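import Mathlib

/-! # Real entire power series and the linear equation `w'' = 2 b w' + 4 a (y - c) w` -/

set_option autoImplicit false

namespace Pool.Agent.R195.Ent

open Filter Topology

/-- super-exponential decay of the coefficients -/
def Dec (u : ℕ → ℝ) : Prop := ∀ R : ℝ, 0 < R → ∃ C, ∀ n, |u n| * R ^ n ≤ C

/-- the sum of the series -/
noncomputable def pw (u : ℕ → ℝ) (y : ℝ) : ℝ := ∑' n, u n * y ^ n

/-- the coefficients of the derivative -/
def shiftD (u : ℕ → ℝ) (n : ℕ) : ℝ := (n + 1) * u (n + 1)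

lemma Dec.shiftD {u : ℕ → ℝ} (hu : Dec u) : Dec (shiftD u) := by
  intro R hR
  obtain ⟨C, hC⟩ := hu (2 * R) (by positivity)
  refine ⟨C / R, fun n => ?_⟩
  have h1 := hC (n + 1)
  have h2 : ((n:ℝ) + 1) ≤ 2 ^ (n + 1) := by
    have : (n + 1 : ℕ) ≤ 2 ^ (n + 1) := Nat.lt_two_pow_self.le
    exact_mod_cast this
  unfold Ent.shiftD
  rw [abs_mul, abs_of_nonneg (by positivity : (0:ℝ) ≤ n + 1), le_div_iff₀ hR]
  calc ((n:ℝ) + 1) * |u (n + 1)| * R ^ n * R = ((n:ℝ) + 1) * (|u (n + 1)| * R ^ (n + 1)) := by
        rw [pow_succ]; ring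
    _ ≤ 2 ^ (n + 1) * (|u (n + 1)| * R ^ (n + 1)) :=
        mul_le_mul_of_nonneg_right h2 (by positivity)
    _ = |u (n + 1)| * (2 * R) ^ (n + 1) := by rw [mul_pow]; ring
    _ ≤ C := h1

lemma Dec.summable {u : ℕ → ℝ} (hu : Dec u) (R : ℝ) (hR : 0 < R) :
    Summable (fun n => |u n| * R ^ n) := by
  obtain ⟨C, hC⟩ := hu (2 * R) (by positivity)
  refine Summable.of_nonneg_of_le (fun n => by positivity) (fun n => ?_)
    ((summable_geometric_of_lt_one (by norm_num) (by norm_num : (1/2:ℝ) < 1)).mul_left C)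
  have h1 := hC n
  rw [mul_pow] at h1
  have h2 : (1/2:ℝ) ^ n * 2 ^ n = 1 := by rw [← mul_pow]; norm_num
  calc |u n| * R ^ n = (1/2:ℝ) ^ n * (|u n| * (2 ^ n * R ^ n)) := by
        linear_combination (-(|u n| * R ^ n)) * h2
    _ ≤ (1/2:ℝ) ^ n * C := mul_le_mul_of_nonneg_left h1 (by positivity)
    _ = C * (1/2:ℝ) ^ n := by ring

lemma Dec.summable' {u : ℕ → ℝ} (hu : Dec u) (y : ℝ) : Summable (fun n => u n * y ^ n) := by
  have h := hu.summable (|y| + 1) (by positivity)
  refine Summable.of_norm_bounded h (fun n => ?_)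
  rw [norm_mul, norm_pow, Real.norm_eq_abs, Real.norm_eq_abs]
  exact mul_le_mul_of_nonneg_left (pow_le_pow_left₀ (abs_nonneg _) (by linarith) _) (abs_nonneg _)

lemma Dec.analytic {u : ℕ → ℝ} (hu : Dec u) : AnalyticOnNhd ℝ (pw u) Set.univ := by
  have hrad : (FormalMultilinearSeries.ofScalars ℝ u).radius = ⊤ := by
    apply FormalMultilinearSeries.radius_eq_top_of_forall_nnreal_isBigO
    intro r
    obtain ⟨C, hC⟩ := hu (r + 1) (by positivity)
    apply Asymptotics.IsBigO.of_bound C
    filter_upwards with n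
    rw [FormalMultilinearSeries.ofScalars_norm, Real.norm_eq_abs, Real.norm_eq_abs,
      abs_of_nonneg (by positivity : 0 ≤ |u n| * (r:ℝ) ^ n), norm_one, mul_one]
    refine le_trans ?_ (hC n)
    exact mul_le_mul_of_nonneg_left (pow_le_pow_left₀ (by positivity) (by linarith) _)
      (abs_nonneg _)
  have h := (FormalMultilinearSeries.ofScalars ℝ u).hasFPowerSeriesOnBall (by rw [hrad]; simp)
  rw [hrad] at h
  have h2 := h.analyticOnNhd
  have e : (FormalMultilinearSeries.ofScalars ℝ u).sum = pw u := by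
    funext y
    have := FormalMultilinearSeries.ofScalars_sum_eq u y
    unfold FormalMultilinearSeries.ofScalarsSum at this
    rw [this]
    simp [pw]
  rw [e] at h2
  intro y _
  exact h2 y (by simp)

lemma Dec.hasDerivAt {u : ℕ → ℝ} (hu : Dec u) (y : ℝ) :
    HasDerivAt (pw u) (pw (Ent.shiftD u) y) y := by
  set R := |y| + 1
  have hR : 0 < R := by positivity
  have h0 : HasDerivAt (fun z => ∑' n : ℕ, u n * z ^ n) (∑' n : ℕ, u n * (n * y ^ (n - 1))) y := by
    have hb : Summable (fun n : ℕ => |u n| * (n * R ^ (n - 1))) := by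
      rw [← summable_nat_add_iff 1]
      have := hu.shiftD.summable R hR
      refine this.congr (fun n => ?_)
      unfold Ent.shiftD
      rw [abs_mul, abs_of_nonneg (by positivity : (0:ℝ) ≤ n + 1)]
      push_cast
      ring
    refine hasDerivAt_tsum_of_isPreconnected (t := Metric.ball 0 R) (y₀ := 0) hb
      Metric.isOpen_ball (convex_ball _ _).isPreconnected
      (g := fun n z => u n * z ^ n) (g' := fun n z => u n * (n * z ^ (n - 1))) ?_ ?_ ?_ ?_ ?_
    · intro n z _
      exact (hasDerivAt_pow n z).const_mul (u n)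
    · intro n z hz
      rw [norm_mul, Real.norm_eq_abs, norm_mul, norm_pow, Real.norm_eq_abs, Real.norm_eq_abs,
        abs_of_nonneg (by positivity : (0:ℝ) ≤ n)]
      rw [Metric.mem_ball, dist_zero_right, Real.norm_eq_abs] at hz
      gcongr
    · simp [hR]
    · exact hu.summable' 0
    · rw [Metric.mem_ball, dist_zero_right, Real.norm_eq_abs]
      simp [R]
  have e : ∑' n : ℕ, u n * (n * y ^ (n - 1)) = pw (Ent.shiftD u) y := by
    have hs : Summable (fun n : ℕ => u n * (n * y ^ (n - 1))) := by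
      rw [← summable_nat_add_iff 1]
      refine (hu.shiftD.summable' y).congr (fun n => ?_)
      unfold Ent.shiftD
      push_cast
      ring
    rw [hs.tsum_eq_zero_add]
    simp only [Nat.cast_zero, zero_mul, mul_zero, zero_add, pw]
    refine tsum_congr (fun n => ?_)
    unfold Ent.shiftD
    push_cast
    ring
  rw [← e]
  exact h0

/-- coefficients of the solution with `w 0 = p`, `w' 0 = q` -/
noncomputable def co (a b c p q : ℝ) : ℕ → ℝ
  | 0 => p
  | 1 => q
  | 2 => b * q - 2 * a * c * p
  | n + 3 => (2 * b * (n + 2) * co a b c p q (n + 2) - 4 * a * c * co a b c p q (n + 1) +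
      4 * a * co a b c p q n) / ((n + 3) * (n + 2))

lemma co_dec (a b c p q : ℝ) : Dec (co a b c p q) := by
  intro R hR
  set u := co a b c p q with hu
  -- a threshold
  obtain ⟨N, hN⟩ : ∃ N : ℕ, 6 * |b| * R + 12 * |a * c| * R ^ 2 + 12 * |a| * R ^ 3 ≤ N :=
    exists_nat_ge _
  -- a bound for the first terms
  obtain ⟨M, hM0, hM⟩ : ∃ M : ℝ, 0 ≤ M ∧ ∀ n < N + 3, |u n| * R ^ n ≤ M := by
    refine ⟨∑ n ∈ Finset.range (N + 3), |u n| * R ^ n, Finset.sum_nonneg (fun n _ => by positivity),
      fun n hn => ?_⟩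
    exact Finset.single_le_sum (f := fun n => |u n| * R ^ n) (fun n _ => by positivity)
      (Finset.mem_range.2 hn)
  refine ⟨M, ?_⟩
  intro n
  induction n using Nat.strong_induction_on with
  | _ n ih =>
    by_cases hn : n < N + 3
    · exact hM n hn
    · push Not at hn
      obtain ⟨m, rfl⟩ := Nat.exists_eq_add_of_le' (show 3 ≤ n by omega)
      have hm : (N:ℝ) ≤ m := by exact_mod_cast (by omega : N ≤ m)
      have i2 := ih (m + 2) (by omega)
      have i1 := ih (m + 1) (by omega)
      have i0 := ih m (by omega)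
      have e : u (m + 3) = (2 * b * (m + 2) * u (m + 2) - 4 * a * c * u (m + 1) +
        4 * a * u m) / ((m + 3) * (m + 2)) := by
        rw [hu]; simp only [co]
      have hden : (0:ℝ) < (m + 3) * (m + 2) := by positivity
      rw [e, abs_div, abs_of_pos hden, div_mul_eq_mul_div, div_le_iff₀ hden]
      have h1 : |2 * b * (m + 2) * u (m + 2) - 4 * a * c * u (m + 1) + 4 * a * u m| ≤
          2 * |b| * (m + 2) * |u (m + 2)| + 4 * |a * c| * |u (m + 1)| + 4 * |a| * |u m| := by
        have t1 := abs_add_le (2 * b * (m + 2) * u (m + 2) - 4 * a * c * u (m + 1)) (4 * a * u m)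
        have t2 := abs_sub (2 * b * (m + 2) * u (m + 2)) (4 * a * c * u (m + 1))
        have t3 : |2 * b * ((m:ℝ) + 2) * u (m + 2)| = 2 * |b| * (m + 2) * |u (m + 2)| := by
          rw [abs_mul, abs_mul, abs_mul, abs_two, abs_of_nonneg (by positivity : (0:ℝ) ≤ m + 2)]
        have t4 : |4 * a * c * u (m + 1)| = 4 * |a * c| * |u (m + 1)| := by
          rw [abs_mul, mul_assoc 4 a c, abs_mul 4 (a * c), abs_of_pos (by norm_num : (0:ℝ) < 4)]
        have t5 : |4 * a * u m| = 4 * |a| * |u m| := by
          rw [abs_mul, abs_mul, abs_of_pos (by norm_num : (0:ℝ) < 4)]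
        linarith
      have hR3 : R ^ (m + 3) = R * R ^ (m + 2) := by rw [pow_succ R (m + 2)]; ring
      have hR3' : R ^ (m + 3) = R ^ 2 * R ^ (m + 1) := by rw [← pow_add]; congr 1; ring
      have hR3'' : R ^ (m + 3) = R ^ 3 * R ^ m := by rw [← pow_add]; congr 1; ring
      calc |2 * b * (m + 2) * u (m + 2) - 4 * a * c * u (m + 1) + 4 * a * u m| * R ^ (m + 3)
          ≤ (2 * |b| * (m + 2) * |u (m + 2)| + 4 * |a * c| * |u (m + 1)| + 4 * |a| * |u m|) *
            R ^ (m + 3) := mul_le_mul_of_nonneg_right h1 (by positivity)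
        _ = 2 * |b| * (m + 2) * R * (|u (m + 2)| * R ^ (m + 2)) +
            4 * |a * c| * R ^ 2 * (|u (m + 1)| * R ^ (m + 1)) +
            4 * |a| * R ^ 3 * (|u m| * R ^ m) := by
              rw [add_mul, add_mul]
              nth_rewrite 1 [hR3]
              nth_rewrite 1 [hR3']
              rw [hR3'']
              ring
        _ ≤ 2 * |b| * (m + 2) * R * M + 4 * |a * c| * R ^ 2 * M + 4 * |a| * R ^ 3 * M := by
              gcongr
        _ ≤ M * ((m + 3) * (m + 2)) := by
              have k1 : 0 ≤ |b| * R := by positivity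
              have k2 : 0 ≤ |a * c| * R ^ 2 := by positivity
              have k3 : 0 ≤ |a| * R ^ 3 := by positivity
              have k4 : 2 * |b| * (m + 2) * R + 4 * |a * c| * R ^ 2 + 4 * |a| * R ^ 3 ≤
                  ((m:ℝ) + 3) * (m + 2) := by
                nlinarith
              nlinarith

/-- the solution of the linear equation -/
noncomputable def w (a b c p q : ℝ) : ℝ → ℝ := pw (co a b c p q)
/-- its derivative -/
noncomputable def w' (a b c p q : ℝ) : ℝ → ℝ := pw (shiftD (co a b c p q))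

lemma w_analytic (a b c p q : ℝ) : AnalyticOnNhd ℝ (w a b c p q) Set.univ :=
  (co_dec a b c p q).analytic

lemma w'_analytic (a b c p q : ℝ) : AnalyticOnNhd ℝ (w' a b c p q) Set.univ :=
  (co_dec a b c p q).shiftD.analytic

lemma w_deriv (a b c p q y : ℝ) : HasDerivAt (w a b c p q) (w' a b c p q y) y :=
  (co_dec a b c p q).hasDerivAt y

lemma w'_deriv (a b c p q y : ℝ) : HasDerivAt (w' a b c p q)
    (2 * b * w' a b c p q y + 4 * a * (y - c) * w a b c p q y) y := by
  have h := (co_dec a b c p q).shiftD.hasDerivAt y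
  have hd := co_dec a b c p q
  set u := co a b c p q with hu
  have e : pw (shiftD (shiftD u)) y = 2 * b * w' a b c p q y + 4 * a * (y - c) * w a b c p q y := by
    have s2 := hd.shiftD.shiftD.summable' y
    have s1 := hd.shiftD.summable' y
    have s0 := hd.summable' y
    unfold w w'
    rw [← hu]
    have e1 : 4 * a * (y - c) * pw u y = 4 * a * (y * pw u y) - 4 * a * c * pw u y := by ring
    have e2 : y * pw u y = ∑' n : ℕ, (if n = 0 then 0 else u (n - 1)) * y ^ n := by
      have s3 : Summable (fun n : ℕ => (if n = 0 then 0 else u (n - 1)) * y ^ n) := by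
        rw [← summable_nat_add_iff 1]
        refine (s0.mul_left y).congr (fun n => ?_)
        simp [pow_succ]; ring
      rw [s3.tsum_eq_zero_add]
      simp only [pw, ← tsum_mul_left]
      simp only [if_true, zero_mul, zero_add]
      refine tsum_congr (fun n => ?_)
      simp [pow_succ]; ring
    have s3 : Summable (fun n : ℕ => (if n = 0 then 0 else u (n - 1)) * y ^ n) := by
      rw [← summable_nat_add_iff 1]
      refine (s0.mul_left y).congr (fun n => ?_)
      simp [pow_succ]; ring
    rw [e1, e2]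
    have t : pw (shiftD (shiftD u)) y = ∑' n : ℕ, (2 * b * (shiftD u n * y ^ n) +
        (4 * a * ((if n = 0 then 0 else u (n - 1)) * y ^ n) - 4 * a * c * (u n * y ^ n))) := by
      unfold pw
      refine tsum_congr (fun n => ?_)
      rcases n with _ | n
      · simp only [shiftD, if_true]
        have : u 2 = b * u 1 - 2 * a * c * u 0 := by rw [hu]; simp [co]
        norm_num
        rw [this]
        ring
      · simp only [shiftD, Nat.succ_ne_zero, if_false, Nat.add_sub_cancel]
        have : u (n + 3) = (2 * b * (n + 2) * u (n + 2) - 4 * a * c * u (n + 1) +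
          4 * a * u n) / ((n + 3) * (n + 2)) := by
          rw [hu]; simp only [co]
        have h1 : ((n:ℝ) + 3) * (n + 2) ≠ 0 := by positivity
        rw [eq_div_iff h1] at this
        rw [show n + 1 + 1 + 1 = n + 3 by ring, show n + 1 + 1 = n + 2 by ring]
        push_cast
        linear_combination (y ^ (n + 1)) * this
    rw [t, Summable.tsum_add (s1.mul_left _) ((s3.mul_left _).sub (s0.mul_left _)),
      Summable.tsum_sub (s3.mul_left _) (s0.mul_left _), tsum_mul_left, tsum_mul_left,
      tsum_mul_left]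
    rfl
  rw [← e]
  exact h

lemma pw_zero (u : ℕ → ℝ) : pw u 0 = u 0 := by
  unfold pw
  rw [tsum_eq_single 0]
  · simp
  · intro n hn
    simp [hn]

lemma w_zero (a b c p q : ℝ) : w a b c p q 0 = p := by
  unfold w; rw [pw_zero]; rfl

lemma w'_zero (a b c p q : ℝ) : w' a b c p q 0 = q := by
  unfold w'; rw [pw_zero]; simp [shiftD, co]

end Pool.Agent.R195.Ent
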