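import Mathlib

/-! # A family of periodic words of the greedy planar walk: the algebraic part -/

set_option autoImplicit false

namespace Pool.Agent.R195.GW

open Complex

/-- half of the word: `(P M M)^n (P M P M P)` with `P = 1`, `M = -1` -/
def Hw (n r : ℕ) : ℤ :=
  if r < 3 * n then (if r % 3 = 0 then 1 else -1) else (if (r - 3 * n) % 2 = 0 then 1 else -1)

/-- the word: `H` followed by its negative, repeated -/
def Ew (n j : ℕ) : ℤ :=
  if (j / (3 * n + 5)) % 2 = 0 then Hw n (j % (3 * n + 5)) else -Hw n (j % (3 * n + 5))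

lemma Ew_anti (n j : ℕ) : Ew n (j + (3 * n + 5)) = -Ew n j := by
  unfold Ew
  rw [Nat.add_div_right _ (by omega), Nat.add_mod_right]
  rcases Nat.mod_two_eq_zero_or_one (j / (3 * n + 5)) with h | h
  · rw [if_neg (by omega), if_pos h]
  · rw [if_pos (by omega), if_neg (by omega), neg_neg]

lemma Ew_small {n j : ℕ} (h : j < 3 * n + 5) : Ew n j = Hw n j := by
  unfold Ew
  rw [Nat.div_eq_of_lt h, Nat.mod_eq_of_lt h]
  simp

lemma Hw_block {n j : ℕ} (h : j < 3 * n + 2) : Hw n j = if j % 3 = 0 then 1 else -1 := by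
  unfold Hw
  by_cases h1 : j < 3 * n
  · rw [if_pos h1]
  · rw [if_neg h1]
    have h2 : j = 3 * n ∨ j = 3 * n + 1 := by omega
    rcases h2 with h2 | h2
    · rw [if_pos (by omega), if_pos (by omega)]
    · rw [if_neg (by omega), if_neg (by omega)]

lemma Hw_pm (n j : ℕ) : Hw n j = 1 ∨ Hw n j = -1 := by
  unfold Hw
  split_ifs <;> simp

lemma Ew_pm (n j : ℕ) : Ew n j = 1 ∨ Ew n j = -1 := by
  unfold Ew
  rcases Hw_pm n (j % (3 * n + 5)) with h | h <;> rw [h] <;> split_ifs <;> simp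

/-- the recursion in the rotating frame -/
noncomputable def uu (w u0 : ℂ) (E : ℕ → ℤ) : ℕ → ℂ
  | 0 => u0
  | j + 1 => w * uu w u0 E j + E j

lemma uu_anti {w u0 : ℂ} {E : ℕ → ℤ} {m : ℕ} (hE : ∀ j, E (j + m) = -E j)
    (h : uu w u0 E m = -u0) (j : ℕ) : uu w u0 E (j + m) = -uu w u0 E j := by
  induction j with
  | zero => simpa [uu] using h
  | succ j ih =>
    rw [show j + 1 + m = (j + m) + 1 by ring]
    simp only [uu]
    rw [ih, hE]
    push_cast
    ring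

/-- the centres -/
noncomputable def Cc (w : ℂ) (j : ℕ) : ℂ :=
  if j % 3 = 0 then (w ^ 2 - w - 1) / (1 - w ^ 3)
  else if j % 3 = 1 then (1 - w - w ^ 2) / (1 - w ^ 3) else (-1 + w - w ^ 2) / (1 - w ^ 3)

/-- the amplitude -/
noncomputable def Tt (w : ℂ) (n : ℕ) : ℂ :=
  2 * (1 + w ^ 5) / ((1 - w ^ 3) * (1 + w) * (1 + w ^ (3 * n + 5)))

/-- the initial point -/
noncomputable def U0 (w : ℂ) (n : ℕ) : ℂ := Cc w 0 + Tt w n * w

lemma Cc_step {w : ℂ} (h3 : 1 - w ^ 3 ≠ 0) (j : ℕ) :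
    w * Cc w j + ((if j % 3 = 0 then 1 else -1 : ℤ) : ℂ) = Cc w (j + 1) := by
  unfold Cc
  have h : j % 3 = 0 ∨ j % 3 = 1 ∨ j % 3 = 2 := by omega
  rcases h with h | h | h
  · rw [if_pos h, if_pos h, if_neg (by omega), if_pos (by omega)]
    push_cast
    field_simp
    ring
  · rw [if_neg (by omega), if_pos h, if_neg (by omega), if_neg (by omega), if_neg (by omega)]
    push_cast
    field_simp
    ring
  · rw [if_neg (by omega), if_neg (by omega), if_neg (by omega), if_pos (by omega)]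
    push_cast
    field_simp
    ring

lemma uu_closed {w : ℂ} {n : ℕ} (h3 : 1 - w ^ 3 ≠ 0) {j : ℕ} (hj : j ≤ 3 * n + 2) :
    uu w (U0 w n) (Ew n) j = Cc w j + Tt w n * w ^ (j + 1) := by
  induction j with
  | zero => simp [uu, U0]
  | succ j ih =>
    simp only [uu]
    rw [ih (by omega), Ew_small (by omega), Hw_block (by omega), ← Cc_step h3 j]
    ring

lemma uu_tail3 {w : ℂ} {n : ℕ} (h3 : 1 - w ^ 3 ≠ 0) :
    uu w (U0 w n) (Ew n) (3 * n + 3) = w * (Cc w 2 + Tt w n * w ^ (3 * n + 3)) + 1 := by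
  have e0 : uu w (U0 w n) (Ew n) (3 * n + 3) =
      w * uu w (U0 w n) (Ew n) (3 * n + 2) + Ew n (3 * n + 2) := rfl
  rw [e0, uu_closed h3 le_rfl, Ew_small (by omega)]
  have e1 : Cc w (3 * n + 2) = Cc w 2 := by
    unfold Cc
    rw [show (3 * n + 2) % 3 = 2 by omega]
  have e2 : Hw n (3 * n + 2) = 1 := by
    unfold Hw
    rw [if_neg (by omega), if_pos (by omega)]
  rw [e1, e2]
  push_cast
  ring

lemma uu_tail4 {w : ℂ} {n : ℕ} (h3 : 1 - w ^ 3 ≠ 0) :
    uu w (U0 w n) (Ew n) (3 * n + 4) =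
      w * (w * (Cc w 2 + Tt w n * w ^ (3 * n + 3)) + 1) - 1 := by
  rw [show 3 * n + 4 = (3 * n + 3) + 1 by ring]
  rw [uu, uu_tail3 h3, Ew_small (by omega)]
  have e2 : Hw n (3 * n + 3) = -1 := by
    unfold Hw
    rw [if_neg (by omega), if_neg (by omega)]
  rw [e2]
  push_cast
  ring

lemma uu_close {w : ℂ} {n : ℕ} (h3 : 1 - w ^ 3 ≠ 0) (h1 : 1 + w ≠ 0)
    (hm : 1 + w ^ (3 * n + 5) ≠ 0) :
    uu w (U0 w n) (Ew n) (3 * n + 5) = -U0 w n := by
  rw [show 3 * n + 5 = (3 * n + 4) + 1 by ring, uu, uu_tail4 h3, Ew_small (by omega)]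
  have e2 : Hw n (3 * n + 4) = 1 := by
    unfold Hw
    rw [if_neg (by omega), if_pos (by omega)]
  rw [e2]
  have e3 : Tt w n * (1 + w ^ (3 * n + 5)) = 2 * (1 + w ^ 5) / ((1 - w ^ 3) * (1 + w)) := by
    unfold Tt
    field_simp
  have e4 : w ^ (3 * n + 3) * w ^ 3 = w * w ^ (3 * n + 5) := by
    rw [← pow_add, ← pow_succ']
  have key : w * (w * (w * (Cc w 2 + Tt w n * w ^ (3 * n + 3)) + 1) - 1) + ((1 : ℤ) : ℂ) +
      U0 w n = w ^ 3 * Cc w 2 + w ^ 2 - w + 1 + Cc w 0 + w * (Tt w n * (1 + w ^ (3 * n + 5))) := by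
    unfold U0
    push_cast
    linear_combination (Tt w n) * e4
  rw [eq_neg_iff_add_eq_zero, key, e3]
  unfold Cc
  simp only [Nat.zero_mod, if_true]
  norm_num
  field_simp
  ring

end Pool.Agent.R195.GW
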