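import Mathlib
import Pool.Agent.R195.GWAlg

/-! # The family of words: real parts -/

set_option autoImplicit false

namespace Pool.Agent.R195.GW

open Complex

/-- the rotation -/
noncomputable def om (θ : ℝ) : ℂ := exp (-(θ * I))

lemma om_pow (θ : ℝ) (j : ℕ) : om θ ^ j = exp (-((j * θ : ℝ) * I)) := by
  unfold om
  rw [← Complex.exp_nat_mul]
  congr 1
  push_cast
  ring

lemma one_add_om (a : ℝ) : 1 + exp (-((a : ℂ) * I)) =
    2 * (Real.cos (a / 2) : ℂ) * exp (-((a / 2 : ℝ) * I)) := by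
  push_cast
  rw [Complex.cos]
  have e1 : exp (-((a : ℂ) * I)) = exp (-((a : ℂ) / 2 * I)) * exp (-((a : ℂ) / 2 * I)) := by
    rw [← Complex.exp_add]; congr 1; ring
  have e2 : (1 : ℂ) = exp ((a : ℂ) / 2 * I) * exp (-((a : ℂ) / 2 * I)) := by
    rw [← Complex.exp_add]; simp
  rw [e1]
  nth_rewrite 1 [e2]
  rw [show -((a : ℂ) / 2) * I = -((a : ℂ) / 2 * I) by ring]
  ring

lemma one_sub_om (a : ℝ) : 1 - exp (-((a : ℂ) * I)) =
    2 * I * (Real.sin (a / 2) : ℂ) * exp (-((a / 2 : ℝ) * I)) := by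
  push_cast
  rw [Complex.sin]
  have e1 : exp (-((a : ℂ) * I)) = exp (-((a : ℂ) / 2 * I)) * exp (-((a : ℂ) / 2 * I)) := by
    rw [← Complex.exp_add]; congr 1; ring
  have e2 : (1 : ℂ) = exp ((a : ℂ) / 2 * I) * exp (-((a : ℂ) / 2 * I)) := by
    rw [← Complex.exp_add]; simp
  rw [e1]
  nth_rewrite 1 [e2]
  rw [show -((a : ℂ) / 2) * I = -((a : ℂ) / 2 * I) by ring]
  have hI : I * I = -1 := I_mul_I
  linear_combination (-(exp (-((a:ℂ) / 2 * I)) - exp ((a:ℂ) / 2 * I)) *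
    exp (-((a:ℂ) / 2 * I))) * hI

/-- the real part of the centres -/
noncomputable def ac (θ : ℝ) (j : ℕ) : ℝ :=
  if j % 3 = 0 then -(1 / 2)
  else if j % 3 = 1 then 1 / 2 + Real.sin (θ / 2) / Real.sin (3 * θ / 2)
  else 1 / 2 - Real.sin (θ / 2) / Real.sin (3 * θ / 2)

lemma re_div_aux (x y s c : ℝ) (hs : s ≠ 0) :
    ((((x : ℂ) + y * I)) / (2 * I * s) * (c : ℂ)).re = y * c / (2 * s) := by
  have h : (((x : ℂ) + y * I)) / (2 * I * s) * (c : ℂ) =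
      ((y * c / (2 * s) : ℝ) : ℂ) + ((-(x * c) / (2 * s) : ℝ) : ℂ) * I := by
    have hs' : (s : ℂ) ≠ 0 := by exact_mod_cast hs
    push_cast
    field_simp
    have hI : I ^ 2 = -1 := I_sq
    linear_combination (x * c : ℂ) * hI
  rw [h, add_re, ofReal_re, mul_I_re, ofReal_im, neg_zero, add_zero]

lemma one_sub_om3 (θ : ℝ) : 1 - om θ ^ 3 =
    2 * I * (Real.sin (3 * θ / 2) : ℂ) * exp (-((3 * θ / 2 : ℝ) * I)) := by
  rw [om_pow]
  have := one_sub_om (3 * θ)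
  push_cast at this ⊢
  exact this

lemma exp_real_I (a : ℝ) : exp (-((a : ℝ) * I)) = (Real.cos a : ℂ) + ((-Real.sin a : ℝ) : ℂ) * I := by
  rw [show -((a : ℂ) * I) = ((-a : ℝ) : ℂ) * I by push_cast; ring, Complex.exp_mul_I]
  push_cast
  rw [Complex.cos_neg, Complex.sin_neg]

lemma ac_eq {θ : ℝ} (hs : Real.sin (3 * θ / 2) ≠ 0) (j : ℕ) : (om θ * Cc (om θ) j).re = ac θ j := by
  have hden := one_sub_om3 θ
  have h3 : exp (-((3 * θ / 2 : ℝ) * I)) ≠ 0 := Complex.exp_ne_zero _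
  have hs' : (Real.sin (3 * θ / 2) : ℂ) ≠ 0 := by exact_mod_cast hs
  have hI : I ≠ 0 := I_ne_zero
  -- quotients
  have q : ∀ b : ℕ, om θ ^ b / (1 - om θ ^ 3) =
      exp (-((b * θ - 3 * θ / 2 : ℝ) * I)) / (2 * I * Real.sin (3 * θ / 2)) := by
    intro b
    rw [hden, om_pow]
    rw [div_eq_div_iff (by
      refine mul_ne_zero (mul_ne_zero (mul_ne_zero two_ne_zero hI) hs') h3)
      (mul_ne_zero (mul_ne_zero two_ne_zero hI) hs')]
    have e : exp (-((b * θ : ℝ) * I)) = exp (-((b * θ - 3 * θ / 2 : ℝ) * I)) *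
        exp (-((3 * θ / 2 : ℝ) * I)) := by
      rw [← Complex.exp_add]; congr 1; push_cast; ring
    rw [e]; ring
  have r : ∀ b : ℕ, (om θ ^ b / (1 - om θ ^ 3)).re =
      -Real.sin (b * θ - 3 * θ / 2) / (2 * Real.sin (3 * θ / 2)) := by
    intro b
    rw [q b, exp_real_I]
    have := re_div_aux (Real.cos (b * θ - 3 * θ / 2)) (-Real.sin (b * θ - 3 * θ / 2))
      (Real.sin (3 * θ / 2)) 1 hs
    simpa using this
  have r1 := r 1
  have r2 := r 2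
  have r3 := r 3
  have s1 : Real.sin ((1:ℕ) * θ - 3 * θ / 2) = -Real.sin (θ / 2) := by
    rw [← Real.sin_neg]; congr 1; push_cast; ring
  have s2 : Real.sin ((2:ℕ) * θ - 3 * θ / 2) = Real.sin (θ / 2) := by
    congr 1; push_cast; ring
  have s3 : Real.sin ((3:ℕ) * θ - 3 * θ / 2) = Real.sin (3 * θ / 2) := by
    congr 1; push_cast; ring
  rw [s1] at r1
  rw [s2] at r2
  rw [s3] at r3
  clear s1 s2 s3 r q hden h3 hs'
  unfold Cc ac
  generalize Real.sin (3 * θ / 2) = S at *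
  generalize Real.sin (θ / 2) = s at *
  have h : j % 3 = 0 ∨ j % 3 = 1 ∨ j % 3 = 2 := by omega
  rcases h with h | h | h
  · rw [if_pos h, if_pos h]
    have e : om θ * ((om θ ^ 2 - om θ - 1) / (1 - om θ ^ 3)) =
        om θ ^ 3 / (1 - om θ ^ 3) - om θ ^ 2 / (1 - om θ ^ 3) - om θ ^ 1 / (1 - om θ ^ 3) := by
      ring
    rw [e, sub_re, sub_re, r1, r2, r3]
    field_simp
    ring
  · rw [if_neg (by omega), if_pos h, if_neg (by omega), if_pos h]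
    have e : om θ * ((1 - om θ - om θ ^ 2) / (1 - om θ ^ 3)) =
        om θ ^ 1 / (1 - om θ ^ 3) - om θ ^ 2 / (1 - om θ ^ 3) - om θ ^ 3 / (1 - om θ ^ 3) := by
      ring
    rw [e, sub_re, sub_re, r1, r2, r3]
    field_simp
    ring
  · rw [if_neg (by omega), if_neg (by omega), if_neg (by omega), if_neg (by omega)]
    have e : om θ * ((-1 + om θ - om θ ^ 2) / (1 - om θ ^ 3)) =
        om θ ^ 2 / (1 - om θ ^ 3) - om θ ^ 1 / (1 - om θ ^ 3) - om θ ^ 3 / (1 - om θ ^ 3) := by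
      ring
    rw [e, sub_re, sub_re, r1, r2, r3]
    field_simp
    ring

/-- the real amplitude -/
noncomputable def ta (θ : ℝ) (n : ℕ) : ℝ :=
  Real.cos (5 * θ / 2) / (2 * Real.sin (3 * θ / 2) * Real.cos (θ / 2) *
    Real.cos (((3 * n + 5 : ℕ) : ℝ) * θ / 2))

lemma T_eq {θ : ℝ} {n : ℕ} (hs : Real.sin (3 * θ / 2) ≠ 0) (hc : Real.cos (θ / 2) ≠ 0)
    (hm : Real.cos (((3 * n + 5 : ℕ) : ℝ) * θ / 2) ≠ 0) (j : ℕ) :
    (Tt (om θ) n * om θ ^ (j + 2)).re =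
      ta θ n * Real.sin (((3 * n + 5 : ℕ) : ℝ) * θ / 2 - 5 * θ / 2 - j * θ) := by
  have e5 : 1 + om θ ^ 5 = 2 * (Real.cos (5 * θ / 2) : ℂ) * exp (-((5 * θ / 2 : ℝ) * I)) := by
    rw [om_pow]
    have := one_add_om (5 * θ)
    push_cast at this ⊢
    exact this
  have e1 : 1 + om θ = 2 * (Real.cos (θ / 2) : ℂ) * exp (-((θ / 2 : ℝ) * I)) := one_add_om θ
  have em : 1 + om θ ^ (3 * n + 5) = 2 * (Real.cos (((3 * n + 5 : ℕ) : ℝ) * θ / 2) : ℂ) *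
      exp (-((((3 * n + 5 : ℕ) : ℝ) * θ / 2 : ℝ) * I)) := by
    rw [om_pow]
    exact one_add_om (((3 * n + 5 : ℕ) : ℝ) * θ)
  have e3 := one_sub_om3 θ
  have hs' : (Real.sin (3 * θ / 2) : ℂ) ≠ 0 := by exact_mod_cast hs
  have hc' : (Real.cos (θ / 2) : ℂ) ≠ 0 := by exact_mod_cast hc
  have hm' : (Real.cos (((3 * n + 5 : ℕ) : ℝ) * θ / 2) : ℂ) ≠ 0 := by exact_mod_cast hm
  set M : ℝ := ((3 * n + 5 : ℕ) : ℝ) * θ / 2 with hM
  have key : Tt (om θ) n * om θ ^ (j + 2) =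
      exp (-((5 * θ / 2 + j * θ - M : ℝ) * I)) / (2 * I * Real.sin (3 * θ / 2)) *
        ((Real.cos (5 * θ / 2) : ℂ) / ((Real.cos (θ / 2) : ℂ) * (Real.cos M : ℂ))) := by
    unfold Tt
    rw [e5, e1, em, e3, om_pow]
    have hE : exp (-((5 * θ / 2 : ℝ) * I)) * exp (-(((j + 2 : ℕ) : ℝ) * θ : ℝ) * I) =
        exp (-((5 * θ / 2 + j * θ - M : ℝ) * I)) * (exp (-((3 * θ / 2 : ℝ) * I)) *
          exp (-((θ / 2 : ℝ) * I)) * exp (-((M : ℝ) * I))) := by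
      rw [← Complex.exp_add, ← Complex.exp_add, ← Complex.exp_add, ← Complex.exp_add]
      congr 1
      push_cast
      ring
    have hE' : exp (-((5 * θ / 2 : ℝ) * I)) * exp (-((((j + 2 : ℕ) : ℝ) * θ : ℝ) * I)) =
        exp (-((5 * θ / 2 + j * θ - M : ℝ) * I)) * (exp (-((3 * θ / 2 : ℝ) * I)) *
          exp (-((θ / 2 : ℝ) * I)) * exp (-((M : ℝ) * I))) := by
      rw [← hE]; congr 2; push_cast; ring
    have x1 := Complex.exp_ne_zero (-((3 * θ / 2 : ℝ) * I))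
    have x2 := Complex.exp_ne_zero (-((θ / 2 : ℝ) * I))
    have x3 := Complex.exp_ne_zero (-((M : ℝ) * I))
    set A := exp (-((5 * θ / 2 : ℝ) * I))
    set B := exp (-((((j + 2 : ℕ) : ℝ) * θ : ℝ) * I))
    set C := exp (-((5 * θ / 2 + j * θ - M : ℝ) * I))
    set X := exp (-((3 * θ / 2 : ℝ) * I))
    set Y := exp (-((θ / 2 : ℝ) * I))
    set Z := exp (-((M : ℝ) * I))
    set s3 : ℂ := (Real.sin (3 * θ / 2) : ℂ)
    set c1 : ℂ := (Real.cos (θ / 2) : ℂ)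
    set cM : ℂ := (Real.cos M : ℂ)
    set c5 : ℂ := (Real.cos (5 * θ / 2) : ℂ)
    have hI : I ≠ 0 := I_ne_zero
    field_simp
    linear_combination c5 * hE'
  have hcast : ((Real.cos (5 * θ / 2) : ℂ) / ((Real.cos (θ / 2) : ℂ) * (Real.cos M : ℂ))) =
      ((Real.cos (5 * θ / 2) / (Real.cos (θ / 2) * Real.cos M) : ℝ) : ℂ) := by push_cast; rfl
  rw [key, hcast, exp_real_I, re_div_aux _ _ _ _ hs, ← Real.sin_neg]
  unfold ta
  rw [← hM]
  have : -(5 * θ / 2 + j * θ - M) = M - 5 * θ / 2 - j * θ := by ring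
  rw [this]
  field_simp

/-- the real parts along the first `3 n + 3` steps -/
lemma re_main {θ : ℝ} {n : ℕ} (hs : Real.sin (3 * θ / 2) ≠ 0) (hc : Real.cos (θ / 2) ≠ 0)
    (hm : Real.cos (((3 * n + 5 : ℕ) : ℝ) * θ / 2) ≠ 0) (h3 : 1 - om θ ^ 3 ≠ 0)
    {j : ℕ} (hj : j ≤ 3 * n + 2) :
    (om θ * uu (om θ) (U0 (om θ) n) (Ew n) j).re =
      ac θ j + ta θ n * Real.sin (((3 * n + 5 : ℕ) : ℝ) * θ / 2 - 5 * θ / 2 - j * θ) := by
  rw [uu_closed h3 hj, mul_add, add_re, ac_eq hs]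
  congr 1
  rw [← T_eq hs hc hm j]
  congr 1
  ring

lemma om_re (θ : ℝ) : (om θ).re = Real.cos θ := by
  have := exp_real_I θ
  unfold om
  rw [this, add_re, ofReal_re, mul_I_re, ofReal_im, neg_zero, add_zero]

lemma om_sq_re (θ : ℝ) : (om θ ^ 2).re = Real.cos (2 * θ) := by
  rw [om_pow]
  have := exp_real_I ((2:ℕ) * θ)
  rw [this, add_re, ofReal_re, mul_I_re, ofReal_im, neg_zero, add_zero]
  norm_num

lemma re_tail3 {θ : ℝ} {n : ℕ} (hs : Real.sin (3 * θ / 2) ≠ 0) (hc : Real.cos (θ / 2) ≠ 0)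
    (hm : Real.cos (((3 * n + 5 : ℕ) : ℝ) * θ / 2) ≠ 0) (h3 : 1 - om θ ^ 3 ≠ 0) :
    (om θ * uu (om θ) (U0 (om θ) n) (Ew n) (3 * n + 3)).re =
      -(1 / 2) + 2 * Real.cos θ + ta θ n *
        Real.sin (((3 * n + 5 : ℕ) : ℝ) * θ / 2 - 5 * θ / 2 - (3 * n + 3 : ℕ) * θ) := by
  rw [uu_tail3 h3]
  have e : om θ * (om θ * (Cc (om θ) 2 + Tt (om θ) n * om θ ^ (3 * n + 3)) + 1) =
      om θ * (om θ * Cc (om θ) 2 + ((if 2 % 3 = 0 then 1 else -1 : ℤ) : ℂ)) + 2 * om θ +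
        Tt (om θ) n * om θ ^ (3 * n + 3 + 2) := by
    push_cast
    norm_num
    ring
  rw [e, Cc_step h3, add_re, add_re, ac_eq hs, T_eq hs hc hm]
  have : (2 * om θ).re = 2 * Real.cos θ := by
    rw [← om_re]; simp
  rw [this]
  simp [ac]

lemma re_tail4 {θ : ℝ} {n : ℕ} (hs : Real.sin (3 * θ / 2) ≠ 0) (hc : Real.cos (θ / 2) ≠ 0)
    (hm : Real.cos (((3 * n + 5 : ℕ) : ℝ) * θ / 2) ≠ 0) (h3 : 1 - om θ ^ 3 ≠ 0) :
    (om θ * uu (om θ) (U0 (om θ) n) (Ew n) (3 * n + 4)).re =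
      1 / 2 + Real.sin (θ / 2) / Real.sin (3 * θ / 2) + 2 * Real.cos (2 * θ) - 2 * Real.cos θ +
      ta θ n * Real.sin (((3 * n + 5 : ℕ) : ℝ) * θ / 2 - 5 * θ / 2 - (3 * n + 4 : ℕ) * θ) := by
  rw [uu_tail4 h3]
  have e : om θ * (om θ * (om θ * (Cc (om θ) 2 + Tt (om θ) n * om θ ^ (3 * n + 3)) + 1) - 1) =
      om θ * (om θ * (om θ * Cc (om θ) 2 + ((if 2 % 3 = 0 then 1 else -1 : ℤ) : ℂ)) +
        ((if 3 % 3 = 0 then 1 else -1 : ℤ) : ℂ)) + 2 * om θ ^ 2 - 2 * om θ +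
        Tt (om θ) n * om θ ^ (3 * n + 4 + 2) := by
    push_cast
    norm_num
    ring
  rw [e, Cc_step h3, Cc_step h3, add_re, sub_re, add_re, ac_eq hs, T_eq hs hc hm]
  have h1 : (2 * om θ).re = 2 * Real.cos θ := by
    rw [← om_re]; simp
  have h2 : (2 * om θ ^ 2).re = 2 * Real.cos (2 * θ) := by
    rw [← om_sq_re]; simp
  rw [h1, h2]
  simp [ac]

end Pool.Agent.R195.GW
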