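import Mathlib
import Pool.Agent.R195.GWTrig

/-! # The family of words: the sign conditions -/

set_option autoImplicit false

namespace Pool.Agent.R195.GW

open Real

/-- the amplitude as a function of `θ`, `y` -/
noncomputable def tau (θ y : ℝ) : ℝ :=
  cos (5 * θ / 2) / (2 * sin (3 * θ / 2) * cos (θ / 2) * cos y)

/-- the conditions on `θ`, `y` -/
structure Good (θ y : ℝ) : Prop where
  lt : θ < 2 * π / 9
  s3 : 0 < sin (3 * θ / 2)
  s1 : 0 < sin (θ / 2)
  c1 : 0 < cos (θ / 2)
  cy : cos y < 0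
  tpos : 0 < tau θ y
  tlt : tau θ y < 1 / 4
  apos : 0 < 1 / 2 - sin (θ / 2) / sin (3 * θ / 2)
  w1 : 1 / 2 - sin (θ / 2) / sin (3 * θ / 2) < tau θ y * sin (y - θ / 2)
  w2 : tau θ y * sin (y - θ / 2 + (2 * π - 9 * θ)) < 1 / 2 - sin (θ / 2) / sin (3 * θ / 2)
  f3 : 0 < 1 / 2 - sin (θ / 2) / sin (3 * θ / 2) + tau θ y * sin (y - 9 * θ / 2)
  b1 : π / 2 ≤ y - θ / 2
  b2 : 15 * θ / 2 - y ≤ π + π / 2
  b3 : -(π / 2) ≤ y - 9 * θ / 2
  b4 : 7 * θ / 2 - y ≤ π / 2
  b5 : 0 ≤ y - 21 * θ / 2 + 2 * π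
  b6 : 2 * π - 5 * θ / 2 - y ≤ π
  t4 : 0 < -(1 / 2) + 2 * cos θ - tau θ y
  t5 : 1 / 2 + sin (θ / 2) / sin (3 * θ / 2) + 2 * cos (2 * θ) - 2 * cos θ + tau θ y < 0

lemma sin_sub_nat (x : ℝ) (l : ℕ) : sin (x + l * (2 * π)) = sin x := by
  exact_mod_cast Real.sin_add_nat_mul_two_pi x l

lemma ta_sin {θ y : ℝ} {k : ℕ} (hy : ((3 * (3 * k + 1) + 5 : ℕ) : ℝ) * θ / 2 - k * π = y) (x : ℝ) :
    ta θ (3 * k + 1) * sin (((3 * (3 * k + 1) + 5 : ℕ) : ℝ) * θ / 2 - x) =
      tau θ y * sin (y - x) := by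
  have e : ((3 * (3 * k + 1) + 5 : ℕ) : ℝ) * θ / 2 = y + k * π := by linarith
  unfold ta tau
  rw [e]
  have e2 : y + k * π - x = (y - x) + k * π := by ring
  rw [e2, Real.sin_add_nat_mul_pi, Real.cos_add_nat_mul_pi]
  rcases Nat.even_or_odd k with h | h
  · rw [h.neg_one_pow]; ring
  · rw [h.neg_one_pow]
    have : 2 * sin (3 * θ / 2) * cos (θ / 2) * (-1 * cos y) =
      -(2 * sin (3 * θ / 2) * cos (θ / 2) * cos y) := by ring
    rw [this, div_neg]
    ring

theorem signs {θ y : ℝ} {k : ℕ} (hg : Good θ y)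
    (hy : ((3 * (3 * k + 1) + 5 : ℕ) : ℝ) * θ / 2 - k * π = y) :
    ∀ j < 3 * (3 * k + 1) + 5, (Ew (3 * k + 1) j : ℝ) *
      (om θ * uu (om θ) (U0 (om θ) (3 * k + 1)) (Ew (3 * k + 1)) j).re < 0 := by
  set n := 3 * k + 1 with hn
  have hs := hg.s3.ne'
  have hc := hg.c1.ne'
  have hcy := hg.cy.ne
  have hM : ((3 * n + 5 : ℕ) : ℝ) * θ / 2 = y + k * π := by linarith
  have hm : cos (((3 * n + 5 : ℕ) : ℝ) * θ / 2) ≠ 0 := by
    rw [hM, Real.cos_add_nat_mul_pi]
    exact mul_ne_zero (pow_ne_zero _ (by norm_num)) hcy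
  have h3 : 1 - om θ ^ 3 ≠ 0 := by
    rw [one_sub_om3]
    have : (sin (3 * θ / 2) : ℂ) ≠ 0 := by exact_mod_cast hs
    exact mul_ne_zero (mul_ne_zero (mul_ne_zero two_ne_zero Complex.I_ne_zero) this)
      (Complex.exp_ne_zero _)
  have hP := Real.pi_pos
  set κ := 2 * π - 9 * θ with hκ
  have hκ0 : 0 < κ := by have := hg.lt; rw [hκ]; linarith
  -- `k κ = 8 θ - 2 y`
  have hk : (k:ℝ) * κ = 8 * θ - 2 * y := by
    have h : ((3 * n + 5 : ℕ) : ℝ) = 9 * k + 8 := by rw [hn]; push_cast; ring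
    rw [h] at hy
    rw [hκ]
    linarith
  have hre : ∀ j ≤ 3 * n + 2, (om θ * uu (om θ) (U0 (om θ) n) (Ew n) j).re =
      ac θ j + tau θ y * sin (y - (5 * θ / 2 + j * θ)) := by
    intro j hj
    rw [re_main hs hc hm h3 hj, ← ta_sin hy (5 * θ / 2 + j * θ)]
    congr 3
    ring
  have habs : ∀ x : ℝ, -tau θ y ≤ tau θ y * sin x ∧ tau θ y * sin x ≤ tau θ y := by
    intro x
    have h1 := Real.neg_one_le_sin x
    have h2 := Real.sin_le_one x
    have h3 := hg.tpos
    constructor <;> nlinarith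
  have hratio : 0 < sin (θ / 2) / sin (3 * θ / 2) := div_pos hg.s1 hg.s3
  intro j hj
  by_cases hj2 : j < 3 * n + 2
  · -- the block part
    rw [Ew_small hj, Hw_block hj2, hre j (by omega)]
    have hj3 : j % 3 = 0 ∨ j % 3 = 1 ∨ j % 3 = 2 := by omega
    obtain ⟨l1, l2⟩ := habs (y - (5 * θ / 2 + j * θ))
    rcases hj3 with h | h | h
    · rw [if_pos h]
      unfold ac
      rw [if_pos h]
      have := hg.tlt
      push_cast
      linarith
    · rw [if_neg (by omega)]
      unfold ac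
      rw [if_neg (by omega), if_pos h]
      have := hg.tlt
      push_cast
      linarith
    · rw [if_neg (by omega)]
      unfold ac
      rw [if_neg (by omega), if_neg (by omega)]
      suffices hsuff : 0 < 1 / 2 - sin (θ / 2) / sin (3 * θ / 2) +
          tau θ y * sin (y - (5 * θ / 2 + j * θ)) by
        push_cast; linarith
      have hlt : j < 3 * n := by omega
      have h9 : j % 9 = 2 ∨ j % 9 = 5 ∨ j % 9 = 8 := by omega
      rcases h9 with h9 | h9 | h9
      · -- first class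
        obtain ⟨l, hl⟩ : ∃ l, j = 9 * l + 2 := ⟨j / 9, by omega⟩
        have hlk : l ≤ k := by omega
        have e : y - (5 * θ / 2 + j * θ) = (y - 9 * θ / 2 + l * κ) - l * (2 * π) := by
          rw [hl, hκ]; push_cast; ring
        have e2 : sin (y - (5 * θ / 2 + j * θ)) = sin (y - 9 * θ / 2 + l * κ) := by
          rw [e, ← sin_sub_nat ((y - 9 * θ / 2 + l * κ) - l * (2 * π)) l]
          congr 1; ring
        have hlk' : (l:ℝ) * κ ≤ k * κ :=
          mul_le_mul_of_nonneg_right (by exact_mod_cast hlk) hκ0.le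
        have h0 : 0 ≤ (l:ℝ) * κ := by positivity
        have hmono : sin (y - 9 * θ / 2) ≤ sin (y - 9 * θ / 2 + l * κ) := by
          apply Real.sin_le_sin_of_le_of_le_pi_div_two hg.b3
          · have := hg.b4; linarith
          · linarith
        rw [e2]
        have := hg.f3
        nlinarith [mul_le_mul_of_nonneg_left hmono hg.tpos.le]
      · -- second class
        obtain ⟨l, hl⟩ : ∃ l, j = 9 * l + 5 := ⟨j / 9, by omega⟩
        have hlk : l + 1 ≤ k := by omega
        obtain ⟨t, ht⟩ := Nat.exists_eq_add_of_le hlk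
        -- `k = l + 1 + t`
        have hkr : (k:ℝ) = l + 1 + t := by exact_mod_cast ht
        have e : y - (5 * θ / 2 + j * θ) = -(y - θ / 2 + (t + 1) * κ) - l * (2 * π) := by
          have : (l:ℝ) * κ = 8 * θ - 2 * y - (t + 1) * κ := by
            rw [← hk, hkr]; ring
          have e3 : (l:ℝ) * (2 * π) = l * κ + 9 * l * θ := by rw [hκ]; ring
          rw [e3, this, hl]
          push_cast
          ring
        have e2 : sin (y - (5 * θ / 2 + j * θ)) = -sin (y - θ / 2 + (t + 1) * κ) := by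
          rw [e, ← sin_sub_nat (-(y - θ / 2 + (t + 1) * κ) - l * (2 * π)) l, ← Real.sin_neg]
          congr 1; ring
        have ht1 : ((t:ℝ) + 1) * κ ≤ k * κ := by
          apply mul_le_mul_of_nonneg_right _ hκ0.le
          have : (0:ℝ) ≤ l := Nat.cast_nonneg l
          linarith
        have ht0 : κ ≤ ((t:ℝ) + 1) * κ := by
          have : (0:ℝ) ≤ t := Nat.cast_nonneg t
          nlinarith
        have hmono : sin (y - θ / 2 + (t + 1) * κ) ≤ sin (y - θ / 2 + κ) := by
          rw [← Real.sin_pi_sub (y - θ / 2 + (t + 1) * κ), ← Real.sin_pi_sub (y - θ / 2 + κ)]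
          apply Real.sin_le_sin_of_le_of_le_pi_div_two
          · have := hg.b2; linarith
          · have := hg.b1; linarith
          · linarith
        rw [e2]
        have := hg.w2
        rw [← hκ] at this
        nlinarith [mul_le_mul_of_nonneg_left hmono hg.tpos.le]
      · -- third class
        obtain ⟨l, hl⟩ : ∃ l, j = 9 * l + 8 := ⟨j / 9, by omega⟩
        have hlk : l ≤ k := by omega
        have e : y - (5 * θ / 2 + j * θ) =
            (y - 21 * θ / 2 + 2 * π + l * κ) - (l + 1 : ℕ) * (2 * π) := by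
          rw [hl, hκ]; push_cast; ring
        have e2 : sin (y - (5 * θ / 2 + j * θ)) = sin (y - 21 * θ / 2 + 2 * π + l * κ) := by
          rw [e, ← sin_sub_nat ((y - 21 * θ / 2 + 2 * π + l * κ) - (l + 1 : ℕ) * (2 * π)) (l + 1)]
          congr 1; ring
        have hlk' : (l:ℝ) * κ ≤ k * κ :=
          mul_le_mul_of_nonneg_right (by exact_mod_cast hlk) hκ0.le
        have h0 : 0 ≤ (l:ℝ) * κ := by positivity
        have hpos : 0 ≤ sin (y - 21 * θ / 2 + 2 * π + l * κ) := by
          apply Real.sin_nonneg_of_nonneg_of_le_pi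
          · have := hg.b5; linarith
          · have := hg.b6; linarith
        rw [e2]
        have := hg.apos
        have := mul_nonneg hg.tpos.le hpos
        linarith
  · have hj' : j = 3 * n + 2 ∨ j = 3 * n + 3 ∨ j = 3 * n + 4 := by omega
    rcases hj' with rfl | rfl | rfl
    · have e1 : Ew n (3 * n + 2) = 1 := by
        rw [Ew_small (by omega)]
        unfold Hw
        rw [if_neg (by omega), if_pos (by omega)]
      rw [e1, hre _ le_rfl]
      unfold ac
      rw [if_neg (by omega), if_neg (by omega)]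
      have e : y - (5 * θ / 2 + (3 * n + 2 : ℕ) * θ) = -(y - θ / 2) - k * (2 * π) := by
        have e3 : (k:ℝ) * (2 * π) = k * κ + 9 * k * θ := by rw [hκ]; ring
        rw [e3, hk, hn]
        push_cast
        ring
      have e2 : sin (y - (5 * θ / 2 + (3 * n + 2 : ℕ) * θ)) = -sin (y - θ / 2) := by
        rw [e, ← sin_sub_nat (-(y - θ / 2) - k * (2 * π)) k, ← Real.sin_neg]
        congr 1; ring
      rw [e2]
      have := hg.w1
      push_cast
      linarith
    · have e1 : Ew n (3 * n + 3) = -1 := by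
        rw [Ew_small (by omega)]
        unfold Hw
        rw [if_neg (by omega), if_neg (by omega)]
      have e0 := ta_sin hy (5 * θ / 2 + (3 * n + 3 : ℕ) * θ)
      rw [← hn] at e0
      rw [e1, re_tail3 hs hc hm h3, sub_sub, e0]
      obtain ⟨l1, l2⟩ := habs (y - (5 * θ / 2 + (3 * n + 3 : ℕ) * θ))
      have := hg.t4
      push_cast at *
      linarith
    · have e1 : Ew n (3 * n + 4) = 1 := by
        rw [Ew_small (by omega)]
        unfold Hw
        rw [if_neg (by omega), if_pos (by omega)]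
      have e0 := ta_sin hy (5 * θ / 2 + (3 * n + 4 : ℕ) * θ)
      rw [← hn] at e0
      rw [e1, re_tail4 hs hc hm h3, sub_sub, e0]
      obtain ⟨l1, l2⟩ := habs (y - (5 * θ / 2 + (3 * n + 4 : ℕ) * θ))
      have := hg.t5
      push_cast at *
      linarith

end Pool.Agent.R195.GW
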