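import Mathlib
import Pool.Agent.R195.GWSign

/-! # The family of words: the limit `θ → 2 π / 9` -/

set_option autoImplicit false

namespace Pool.Agent.R195.GW

open Real Filter Topology

/-- tangent of the limiting angle -/
noncomputable def gg (θ : ℝ) : ℝ :=
  sin (θ / 2) / cos (θ / 2) + (sin (3 * θ / 2) - 2 * sin (θ / 2)) / cos (5 * θ / 2)

/-- the angle `y` as a function of `θ` -/
noncomputable def YY (θ : ℝ) : ℝ := π + arctan (gg θ) - (2 * π / 9 - θ)

/-! ### Numerical values at `2 π / 9` -/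

lemma c_bounds : 0.93969 < cos (π / 9) ∧ cos (π / 9) < 0.939695 := by
  have h3 : cos (3 * (π / 9)) = 4 * cos (π / 9) ^ 3 - 3 * cos (π / 9) := Real.cos_three_mul _
  have e : 3 * (π / 9) = π / 3 := by ring
  rw [e, Real.cos_pi_div_three] at h3
  have hlow : cos (π / 6) < cos (π / 9) := by
    apply Real.cos_lt_cos_of_nonneg_of_le_pi_div_two
    · positivity
    · linarith [Real.pi_pos]
    · linarith [Real.pi_pos]
  rw [Real.cos_pi_div_six] at hlow
  have hs3 : (1.732 : ℝ) < √3 := by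
    rw [Real.lt_sqrt (by norm_num)]; norm_num
  have hle := Real.cos_le_one (π / 9)
  set c := cos (π / 9) with hc
  have hc86 : 0.866 < c := by linarith
  constructor
  · by_contra hcon
    push Not at hcon
    have : 4 * c ^ 3 - 3 * c < 1 / 2 := by
      have h1 : 4 * c ^ 3 - 3 * c ≤ 4 * 0.93969 ^ 3 - 3 * 0.93969 := by
        nlinarith [mul_nonneg (sub_nonneg.2 hcon) (by nlinarith : 0 ≤ 4 * (0.93969 ^ 2 + 0.93969 * c + c ^ 2) - 3)]
      refine lt_of_le_of_lt h1 (by norm_num)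
    linarith
  · by_contra hcon
    push Not at hcon
    have : 1 / 2 < 4 * c ^ 3 - 3 * c := by
      have h1 : 4 * 0.939695 ^ 3 - 3 * 0.939695 ≤ 4 * c ^ 3 - 3 * c := by
        nlinarith [mul_nonneg (sub_nonneg.2 hcon) (by nlinarith : 0 ≤ 4 * (0.939695 ^ 2 + 0.939695 * c + c ^ 2) - 3)]
      refine lt_of_lt_of_le (by norm_num) h1
    linarith

lemma s_bounds : 0.34201 < sin (π / 9) ∧ sin (π / 9) < 0.34203 := by
  obtain ⟨h1, h2⟩ := c_bounds
  have h := Real.sin_sq_add_cos_sq (π / 9)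
  have hs : 0 < sin (π / 9) := Real.sin_pos_of_pos_of_lt_pi (by positivity) (by linarith [Real.pi_pos])
  constructor <;> nlinarith

lemma sqrt3_bounds : 1.73205 < √3 ∧ √3 < 1.73206 := by
  constructor
  · rw [Real.lt_sqrt (by norm_num)]; norm_num
  · rw [Real.sqrt_lt' (by norm_num)]; norm_num

lemma D_eq : cos (5 * π / 9) = cos (π / 9) ^ 2 - 1 / 2 - √3 * (sin (π / 9) * cos (π / 9)) := by
  have e : 5 * π / 9 = π / 3 + 2 * (π / 9) := by ring
  rw [e, Real.cos_add, Real.cos_pi_div_three, Real.sin_pi_div_three, Real.cos_two_mul,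
    Real.sin_two_mul]
  ring

lemma D_bounds : -0.17368 < cos (5 * π / 9) ∧ cos (5 * π / 9) < -0.17362 := by
  obtain ⟨c1, c2⟩ := c_bounds
  obtain ⟨s1, s2⟩ := s_bounds
  obtain ⟨r1, r2⟩ := sqrt3_bounds
  rw [D_eq]
  set c := cos (π / 9)
  set s := sin (π / 9)
  have m1 : 0.321383 < s * c := by nlinarith
  have m2 : s * c < 0.321405 := by nlinarith
  have n1 : 0.55665 < √3 * (s * c) := by nlinarith
  have n2 : √3 * (s * c) < 0.556694 := by nlinarith
  constructor <;> nlinarith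

/-- the values at `2 π / 9` -/
lemma g0_eq : gg (2 * π / 9) =
    sin (π / 9) / cos (π / 9) + (√3 / 2 - 2 * sin (π / 9)) / cos (5 * π / 9) := by
  unfold gg
  rw [show 2 * π / 9 / 2 = π / 9 by ring, show 3 * (2 * π / 9) / 2 = π / 3 by ring,
    show 5 * (2 * π / 9) / 2 = 5 * π / 9 by ring, Real.sin_pi_div_three]

lemma g0_bounds : -0.685 < gg (2 * π / 9) ∧ gg (2 * π / 9) < -0.683 := by
  obtain ⟨c1, c2⟩ := c_bounds
  obtain ⟨s1, s2⟩ := s_bounds
  obtain ⟨r1, r2⟩ := sqrt3_bounds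
  obtain ⟨d1, d2⟩ := D_bounds
  rw [g0_eq]
  set c := cos (π / 9)
  set s := sin (π / 9)
  set D := cos (5 * π / 9)
  have a1 : 0.3639 < s / c := by rw [lt_div_iff₀ (by linarith)]; nlinarith
  have a2 : s / c < 0.364 := by rw [div_lt_iff₀ (by linarith)]; nlinarith
  have b1 : -1.0489 < (√3 / 2 - 2 * s) / D := by
    rw [lt_div_iff_of_neg (by linarith)]; nlinarith
  have b2 : (√3 / 2 - 2 * s) / D < -1.047 := by
    rw [div_lt_iff_of_neg (by linarith)]; nlinarith
  constructor <;> linarith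

/-! ### The two window conditions -/

lemma tau_rho {θ y : ℝ} (hs : 0 < sin (3 * θ / 2)) (hc : 0 < cos (θ / 2))
    (hD : cos (5 * θ / 2) < 0) (hy : cos y < 0) :
    tau θ y * ((gg θ * cos (θ / 2) - sin (θ / 2)) * cos y) =
      1 / 2 - sin (θ / 2) / sin (3 * θ / 2) := by
  unfold tau gg
  have h1 := hs.ne'
  have h2 := hc.ne'
  have h3 := hD.ne
  have h4 := hy.ne
  clear hs hc hD hy
  generalize sin (3 * θ / 2) = S at *
  generalize cos (θ / 2) = C at *
  generalize cos (5 * θ / 2) = D at *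
  generalize cos y = Y at *
  generalize sin (θ / 2) = s at *
  field_simp
  ring

lemma tau_pos {θ y : ℝ} (hs : 0 < sin (3 * θ / 2)) (hc : 0 < cos (θ / 2))
    (hD : cos (5 * θ / 2) < 0) (hy : cos y < 0) : 0 < tau θ y := by
  unfold tau
  apply div_pos_of_neg_of_neg hD
  apply mul_neg_of_pos_of_neg (by positivity) hy

lemma window1 {θ : ℝ} (hlt : θ < 2 * π / 9) (hη : 2 * π / 9 - θ < π / 16)
    (hc : 0 < cos (θ / 2)) :
    (gg θ * cos (θ / 2) - sin (θ / 2)) * cos (YY θ) < sin (YY θ - θ / 2) := by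
  set g := gg θ
  set η := 2 * π / 9 - θ with hηdef
  have hη0 : 0 < η := by linarith
  have e1 : YY θ = π + (arctan g - η) := by unfold YY; ring
  have e2 : YY θ - θ / 2 = (arctan g - η - θ / 2) + π := by rw [e1]; ring
  rw [e2, Real.sin_add_pi, e1, add_comm π, Real.cos_add_pi]
  have hr : 0 < cos (arctan g) := Real.cos_arctan_pos g
  have hsin : sin (arctan g) = g * cos (arctan g) := by
    rw [Real.sin_arctan, Real.cos_arctan]; ring
  have hsη : 0 < sin η := Real.sin_pos_of_pos_of_lt_pi hη0 (by linarith [Real.pi_pos])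
  have key : -sin (arctan g - η - θ / 2) - (g * cos (θ / 2) - sin (θ / 2)) * -cos (arctan g - η) =
      sin η * (cos (θ / 2) * ((1 + g ^ 2) * cos (arctan g))) := by
    clear_value η
    rw [Real.sin_sub (arctan g - η) (θ / 2), Real.sin_sub (arctan g) η,
      Real.cos_sub (arctan g) η, hsin]
    ring
  have : 0 < sin η * (cos (θ / 2) * ((1 + g ^ 2) * cos (arctan g))) := by positivity
  linarith

lemma window2 {θ : ℝ} (hlt : θ < 2 * π / 9) (hη : 2 * π / 9 - θ < π / 16)
    (hneg : cos (arctan (gg θ) - θ / 2) > 1 / 2)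
    (hpos : (gg θ * cos (θ / 2) - sin (θ / 2)) * cos (arctan (gg θ)) < 0)
    (hsmall : (gg θ * cos (θ / 2) - sin (θ / 2)) * sin (arctan (gg θ)) < 1) :
    sin (YY θ - θ / 2 + (2 * π - 9 * θ)) < (gg θ * cos (θ / 2) - sin (θ / 2)) * cos (YY θ) := by
  set g := gg θ
  set η := 2 * π / 9 - θ with hηdef
  set ρ := g * cos (θ / 2) - sin (θ / 2) with hρ
  have hη0 : 0 < η := by linarith
  have hP := Real.pi_pos
  have e1 : YY θ = π + (arctan g - η) := by unfold YY; ring
  have e2 : YY θ - θ / 2 + (2 * π - 9 * θ) = (arctan g - θ / 2 + 8 * η) + π := by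
    rw [e1]; ring
  rw [e2, Real.sin_add_pi, e1, add_comm π, Real.cos_add_pi]
  have hsη : 0 < sin η := Real.sin_pos_of_pos_of_lt_pi hη0 (by linarith)
  have hsη' : sin η ≤ η := Real.sin_le hη0.le
  have h8 : 4 * sin η ≤ sin (8 * η) := by
    have := Real.mul_le_sin (x := 8 * η) (by positivity) (by linarith)
    have h4 := Real.pi_le_four
    have : 4 * η ≤ 2 / π * (8 * η) := by
      rw [div_mul_eq_mul_div, le_div_iff₀ hP]
      nlinarith
    linarith
  have hcos : cos (8 * η) ≤ cos η := by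
    apply Real.cos_le_cos_of_nonneg_of_le_pi hη0.le
    · linarith
    · linarith
  have hAT : sin (arctan g - θ / 2) = ρ * cos (arctan g) := by
    rw [Real.sin_sub, Real.sin_arctan, Real.cos_arctan, hρ]
    ring
  have k1 : sin (arctan g - θ / 2 + 8 * η) = ρ * cos (arctan g) * cos (8 * η) +
      cos (arctan g - θ / 2) * sin (8 * η) := by
    rw [Real.sin_add, hAT]
  have k2 : cos (arctan g - η) = cos (arctan g) * cos η + sin (arctan g) * sin η :=
    Real.cos_sub _ _
  rw [k1, k2]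
  have m1 : ρ * cos (arctan g) * cos η ≤ ρ * cos (arctan g) * cos (8 * η) :=
    mul_le_mul_of_nonpos_left hcos hpos.le
  have m2 : 2 * sin η ≤ cos (arctan g - θ / 2) * sin (8 * η) := by
    have : 1 / 2 * sin (8 * η) ≤ cos (arctan g - θ / 2) * sin (8 * η) :=
      mul_le_mul_of_nonneg_right hneg.le (by linarith)
    linarith
  have m3 : ρ * sin (arctan g) * sin η ≤ 1 * sin η :=
    mul_le_mul_of_nonneg_right hsmall.le hsη.le
  nlinarith

/-! ### The limit -/

lemma cont_gg {θ : ℝ} (h1 : cos (θ / 2) ≠ 0) (h2 : cos (5 * θ / 2) ≠ 0) :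
    ContinuousAt gg θ := by
  unfold gg
  apply ContinuousAt.add
  · exact ContinuousAt.div (by fun_prop) (by fun_prop) h1
  · exact ContinuousAt.div (by fun_prop) (by fun_prop) h2

lemma cont_YY {θ : ℝ} (h1 : cos (θ / 2) ≠ 0) (h2 : cos (5 * θ / 2) ≠ 0) :
    ContinuousAt YY θ := by
  unfold YY
  have := cont_gg h1 h2
  apply ContinuousAt.sub _ (by fun_prop)
  exact continuousAt_const.add (Real.continuous_arctan.continuousAt.comp this)

lemma ev_lt {f g : ℝ → ℝ} {x : ℝ} (hf : ContinuousAt f x) (hg : ContinuousAt g x)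
    (h : f x < g x) : ∀ᶠ t in 𝓝 x, f t < g t := hf.eventually_lt hg h

lemma arctan_g0 : -(π / 3) < arctan (gg (2 * π / 9)) ∧ arctan (gg (2 * π / 9)) < -(π / 9) := by
  obtain ⟨g1, g2⟩ := g0_bounds
  obtain ⟨c1, c2⟩ := c_bounds
  obtain ⟨s1, s2⟩ := s_bounds
  obtain ⟨r1, r2⟩ := sqrt3_bounds
  have hP := Real.pi_pos
  constructor
  · have h : arctan (tan (-(π / 3))) = -(π / 3) := Real.arctan_tan (by linarith) (by linarith)
    rw [← h]
    apply Real.arctan_strictMono
    rw [Real.tan_neg, Real.tan_pi_div_three]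
    linarith
  · have h : arctan (tan (-(π / 9))) = -(π / 9) := Real.arctan_tan (by linarith) (by linarith)
    rw [← h]
    apply Real.arctan_strictMono
    rw [Real.tan_neg, Real.tan_eq_sin_div_cos]
    have : sin (π / 9) / cos (π / 9) < 0.5 := by
      rw [div_lt_iff₀ (by linarith)]; linarith
    linarith

lemma arctan_g0' : -(π / 4) < arctan (gg (2 * π / 9)) := by
  obtain ⟨g1, g2⟩ := g0_bounds
  rw [← Real.arctan_one, ← Real.arctan_neg]
  apply Real.arctan_strictMono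
  linarith

theorem good_eventually : ∀ᶠ θ in 𝓝[<] (2 * π / 9), Good θ (YY θ) := by
  obtain ⟨g1, g2⟩ := g0_bounds
  obtain ⟨c1, c2⟩ := c_bounds
  obtain ⟨s1, s2⟩ := s_bounds
  obtain ⟨r1, r2⟩ := sqrt3_bounds
  obtain ⟨d1, d2⟩ := D_bounds
  obtain ⟨a1, a2⟩ := arctan_g0
  have hP := Real.pi_pos
  have e1 : 2 * π / 9 / 2 = π / 9 := by ring
  have e3 : 3 * (2 * π / 9) / 2 = π / 3 := by ring
  have e5 : 5 * (2 * π / 9) / 2 = 5 * π / 9 := by ring
  have hc0 : cos (2 * π / 9 / 2) ≠ 0 := by rw [e1]; linarith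
  have hD0 : cos (5 * (2 * π / 9) / 2) ≠ 0 := by rw [e5]; linarith
  have cY := cont_YY hc0 hD0
  have cG := cont_gg hc0 hD0
  have cAt : ContinuousAt (fun θ => arctan (gg θ)) (2 * π / 9) :=
    Real.continuous_arctan.continuousAt.comp cG
  set g0 := gg (2 * π / 9) with hg0
  have eY : YY (2 * π / 9) = π + arctan g0 := by unfold YY; rw [← hg0]; ring
  -- values of cos and sin of the arctangent
  have hr : 0 < cos (arctan g0) := Real.cos_arctan_pos g0
  have hsin : sin (arctan g0) = g0 * cos (arctan g0) := by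
    rw [Real.sin_arctan, Real.cos_arctan]; ring
  have hsq : cos (arctan g0) ^ 2 * (1 + g0 ^ 2) = 1 := by
    have := Real.sin_sq_add_cos_sq (arctan g0)
    rw [hsin] at this
    linarith
  have hr1 : 0.8 < cos (arctan g0) := by
    by_contra hcon
    push Not at hcon
    have : cos (arctan g0) ^ 2 ≤ 0.64 := by nlinarith
    nlinarith
  have hr2 : cos (arctan g0) < 0.83 := by
    by_contra hcon
    push Not at hcon
    have : 0.6889 ≤ cos (arctan g0) ^ 2 := by nlinarith
    nlinarith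
  set r := cos (arctan g0) with hrdef
  set c := cos (π / 9) with hcdef
  set s := sin (π / 9) with hsdef
  set D := cos (5 * π / 9) with hDdef
  have cosY0 : cos (YY (2 * π / 9)) = -r := by
    rw [eY, add_comm, Real.cos_add_pi]
  have hs3v : sin (3 * (2 * π / 9) / 2) = √3 / 2 := by rw [e3, Real.sin_pi_div_three]
  have hg0v : g0 = s / c + (√3 / 2 - 2 * s) / D := by rw [hg0, g0_eq]
  have tau0 : tau (2 * π / 9) (YY (2 * π / 9)) = D / (√3 * c * -r) := by
    unfold tau
    rw [e5, hs3v, e1, cosY0, ← hcdef, ← hDdef]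
    congr 1
    ring
  -- continuity of tau
  have cTau : ContinuousAt (fun θ => tau θ (YY θ)) (2 * π / 9) := by
    unfold tau
    apply ContinuousAt.div (by fun_prop)
    · apply ContinuousAt.mul (by fun_prop)
      exact Real.continuous_cos.continuousAt.comp cY
    · rw [hs3v, e1, cosY0, ← hcdef]
      have : 0 < √3 := by linarith
      have h1 : 0 < 2 * (√3 / 2) * c := by positivity
      exact mul_ne_zero h1.ne' (by linarith)
  have tau0pos : 0 < D / (√3 * c * -r) := by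
    apply div_pos_of_neg_of_neg (by linarith)
    have : 0 < √3 * c := by
      have : 0 < c := by linarith
      positivity
    nlinarith
  have hsc1 : 1.6 < √3 * c := by nlinarith
  have tau0lt : D / (√3 * c * -r) < 1 / 4 := by
    rw [div_lt_iff_of_neg (by nlinarith)]
    nlinarith
  -- all conditions which are strict in the limit
  have n1 : ∀ᶠ θ in 𝓝 (2 * π / 9), 0 < sin (3 * θ / 2) :=
    ev_lt continuousAt_const (by fun_prop) (by rw [hs3v]; positivity)
  have n2 : ∀ᶠ θ in 𝓝 (2 * π / 9), 0 < sin (θ / 2) :=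
    ev_lt continuousAt_const (by fun_prop) (by rw [e1]; linarith)
  have n3 : ∀ᶠ θ in 𝓝 (2 * π / 9), 0 < cos (θ / 2) :=
    ev_lt continuousAt_const (by fun_prop) (by rw [e1]; linarith)
  have n4 : ∀ᶠ θ in 𝓝 (2 * π / 9), cos (5 * θ / 2) < 0 :=
    ev_lt (by fun_prop) continuousAt_const (by rw [e5]; linarith)
  have n5 : ∀ᶠ θ in 𝓝 (2 * π / 9), cos (YY θ) < 0 :=
    ev_lt (Real.continuous_cos.continuousAt.comp cY) continuousAt_const (by
      rw [cosY0]; linarith)
  have n6 : ∀ᶠ θ in 𝓝 (2 * π / 9), tau θ (YY θ) < 1 / 4 :=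
    ev_lt cTau continuousAt_const (by rw [tau0]; exact tau0lt)
  have cRatio : ContinuousAt (fun θ : ℝ => sin (θ / 2) / sin (3 * θ / 2)) (2 * π / 9) := by
    apply ContinuousAt.div (by fun_prop) (by fun_prop)
    rw [hs3v]; positivity
  have ratio0 : sin (2 * π / 9 / 2) / sin (3 * (2 * π / 9) / 2) = 2 * s / √3 := by
    rw [hs3v, e1, ← hsdef]; field_simp
  have hsq3 : √3 * √3 = 3 := Real.mul_self_sqrt (by norm_num)
  have rat1 : 2 * s / √3 < 0.39497 := by
    rw [div_lt_iff₀ (by linarith)]; nlinarith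
  have rat2 : 0.39489 < 2 * s / √3 := by
    rw [lt_div_iff₀ (by linarith)]; nlinarith
  have n7 : ∀ᶠ θ in 𝓝 (2 * π / 9), 0 < 1 / 2 - sin (θ / 2) / sin (3 * θ / 2) :=
    ev_lt continuousAt_const (continuousAt_const.sub cRatio) (by
      rw [ratio0]; linarith)
  have n8 : ∀ᶠ θ in 𝓝 (2 * π / 9), 0 < 1 / 2 - sin (θ / 2) / sin (3 * θ / 2) +
      tau θ (YY θ) * sin (YY θ - 9 * θ / 2) := by
    refine ev_lt continuousAt_const ?_ ?_
    · apply (continuousAt_const.sub cRatio).add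
      apply cTau.mul
      exact Real.continuous_sin.continuousAt.comp (cY.sub (by fun_prop))
    · rw [ratio0, tau0, eY]
      have e : π + arctan g0 - 9 * (2 * π / 9) / 2 = arctan g0 := by ring
      rw [e, hsin]
      have k1 : D / (√3 * c * -r) * (g0 * r) = -(D * g0) / (√3 * c) := by
        field_simp
      rw [k1]
      have k2 : 0.118 < D * g0 := by nlinarith
      have k3 : D * g0 < 0.11899 := by nlinarith
      have k4 : -(D * g0) / (√3 * c) > -0.0745 := by
        rw [gt_iff_lt, lt_div_iff₀ (by nlinarith)]; nlinarith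
      linarith
  have n9 : ∀ᶠ θ in 𝓝 (2 * π / 9), π / 2 < YY θ - θ / 2 :=
    ev_lt continuousAt_const (cY.sub (by fun_prop)) (by
      rw [eY]; linarith)
  have n10 : ∀ᶠ θ in 𝓝 (2 * π / 9), 15 * θ / 2 - YY θ < π + π / 2 :=
    ev_lt (ContinuousAt.sub (by fun_prop) cY) continuousAt_const (by
      rw [eY]; linarith)
  have n11 : ∀ᶠ θ in 𝓝 (2 * π / 9), -(π / 2) < YY θ - 9 * θ / 2 :=
    ev_lt continuousAt_const (cY.sub (by fun_prop)) (by
      rw [eY]; linarith)
  have n12 : ∀ᶠ θ in 𝓝 (2 * π / 9), 7 * θ / 2 - YY θ < π / 2 :=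
    ev_lt (ContinuousAt.sub (by fun_prop) cY) continuousAt_const (by
      rw [eY]; linarith)
  have n13 : ∀ᶠ θ in 𝓝 (2 * π / 9), 0 < YY θ - 21 * θ / 2 + 2 * π :=
    ev_lt continuousAt_const ((cY.sub (by fun_prop)).add continuousAt_const) (by
      rw [eY]; linarith)
  have n14 : ∀ᶠ θ in 𝓝 (2 * π / 9), 2 * π - 5 * θ / 2 - YY θ < π :=
    ev_lt (ContinuousAt.sub (by fun_prop) cY) continuousAt_const (by
      rw [eY]; linarith)
  have cos40 : cos (2 * π / 9) = 2 * c ^ 2 - 1 := by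
    rw [show 2 * π / 9 = 2 * (π / 9) by ring, Real.cos_two_mul]
  have cos80 : cos (2 * (2 * π / 9)) = 2 * (2 * c ^ 2 - 1) ^ 2 - 1 := by
    rw [Real.cos_two_mul, cos40]
  have q1 : 0.76603 < 2 * c ^ 2 - 1 := by nlinarith
  have q2 : 2 * c ^ 2 - 1 < 0.76608 := by nlinarith
  have q3 : 2 * (2 * c ^ 2 - 1) ^ 2 - 1 < 0.17376 := by nlinarith
  have n15 : ∀ᶠ θ in 𝓝 (2 * π / 9), 0 < -(1 / 2) + 2 * cos θ - tau θ (YY θ) :=
    ev_lt continuousAt_const (ContinuousAt.sub (by fun_prop) cTau) (by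
      rw [tau0, cos40]; linarith)
  have n16 : ∀ᶠ θ in 𝓝 (2 * π / 9), 1 / 2 + sin (θ / 2) / sin (3 * θ / 2) + 2 * cos (2 * θ) -
      2 * cos θ + tau θ (YY θ) < 0 := by
    refine ev_lt ?_ continuousAt_const ?_
    · apply ContinuousAt.add _ cTau
      apply ContinuousAt.sub _ (by fun_prop)
      apply ContinuousAt.add (continuousAt_const.add cRatio) (by fun_prop)
    · rw [ratio0, tau0, cos40, cos80]
      linarith
  -- the conditions for the windows
  have n17 : ∀ᶠ θ in 𝓝 (2 * π / 9), 2 * π / 9 - θ < π / 16 :=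
    ev_lt (by fun_prop) continuousAt_const (by linarith)
  have n18 : ∀ᶠ θ in 𝓝 (2 * π / 9), 1 / 2 < cos (arctan (gg θ) - θ / 2) := by
    refine ev_lt continuousAt_const ?_ ?_
    · exact Real.continuous_cos.continuousAt.comp (cAt.sub (by fun_prop))
    · rw [← hg0, e1, Real.cos_sub, hsin, ← hcdef, ← hsdef, ← hrdef]
      have : 0.7 < c + g0 * s := by nlinarith
      nlinarith
  have n19 : ∀ᶠ θ in 𝓝 (2 * π / 9),
      (gg θ * cos (θ / 2) - sin (θ / 2)) * cos (arctan (gg θ)) < 0 := by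
    refine ev_lt ?_ continuousAt_const ?_
    · apply ContinuousAt.mul
      · exact (cG.mul (by fun_prop)).sub (by fun_prop)
      · exact Real.continuous_cos.continuousAt.comp cAt
    · rw [← hg0, e1, ← hcdef, ← hsdef, ← hrdef]
      have : g0 * c - s < 0 := by nlinarith
      nlinarith
  have n20 : ∀ᶠ θ in 𝓝 (2 * π / 9),
      (gg θ * cos (θ / 2) - sin (θ / 2)) * sin (arctan (gg θ)) < 1 := by
    refine ev_lt ?_ continuousAt_const ?_
    · apply ContinuousAt.mul
      · exact (cG.mul (by fun_prop)).sub (by fun_prop)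
      · exact Real.continuous_sin.continuousAt.comp cAt
    · rw [← hg0, e1, hsin, ← hcdef, ← hsdef]
      have k1 : 0 < g0 ^ 2 * c - g0 * s := by nlinarith
      have k2 : g0 ^ 2 * c - g0 * s < 0.7 := by nlinarith
      have k3 : (g0 * c - s) * (g0 * r) = (g0 ^ 2 * c - g0 * s) * r := by ring
      rw [k3]
      nlinarith
  have hlt : ∀ᶠ θ in 𝓝[<] (2 * π / 9), θ < 2 * π / 9 := self_mem_nhdsWithin
  filter_upwards [hlt, nhdsWithin_le_nhds n1, nhdsWithin_le_nhds n2, nhdsWithin_le_nhds n3,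
    nhdsWithin_le_nhds n4, nhdsWithin_le_nhds n5, nhdsWithin_le_nhds n6, nhdsWithin_le_nhds n7,
    nhdsWithin_le_nhds n8, nhdsWithin_le_nhds n9, nhdsWithin_le_nhds n10, nhdsWithin_le_nhds n11,
    nhdsWithin_le_nhds n12, nhdsWithin_le_nhds n13, nhdsWithin_le_nhds n14,
    nhdsWithin_le_nhds n15, nhdsWithin_le_nhds n16, nhdsWithin_le_nhds n17,
    nhdsWithin_le_nhds n18, nhdsWithin_le_nhds n19, nhdsWithin_le_nhds n20]
    with θ m0 m1 m2 m3 m4 m5 m6 m7 m8 m9 m10 m11 m12 m13 m14 m15 m16 m17 m18 m19 m20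
  have ht := tau_pos m1 m3 m4 m5
  have hrho := tau_rho m1 m3 m4 m5
  refine ⟨m0, m1, m2, m3, m5, ht, m6, m7, ?_, ?_, m8, m9.le, m10.le, m11.le, m12.le, m13.le,
    m14.le, m15, m16⟩
  · rw [← hrho]
    exact mul_lt_mul_of_pos_left (window1 m0 m17 m3) ht
  · rw [← hrho]
    exact mul_lt_mul_of_pos_left (window2 m0 m17 m18 m19 m20) ht

/-- for all large `k` there is `θ < 2 π / 9`, close to `2 π / 9`, as required -/
theorem exists_theta (δ : ℝ) (hδ : 0 < δ) : ∃ k₀ : ℕ, ∀ k ≥ k₀, ∃ θ : ℝ,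
    2 * π / 9 - δ < θ ∧ θ < 2 * π / 9 ∧ Good θ (YY θ) ∧
    ((3 * (3 * k + 1) + 5 : ℕ) : ℝ) * θ / 2 - k * π = YY θ := by
  obtain ⟨g1, g2⟩ := g0_bounds
  obtain ⟨c1, c2⟩ := c_bounds
  obtain ⟨d1, d2⟩ := D_bounds
  obtain ⟨a1, a2⟩ := arctan_g0
  have hP := Real.pi_pos
  have e1 : 2 * π / 9 / 2 = π / 9 := by ring
  have e5 : 5 * (2 * π / 9) / 2 = 5 * π / 9 := by ring
  have n3 : ∀ᶠ θ in 𝓝 (2 * π / 9), 0 < cos (θ / 2) :=
    ev_lt continuousAt_const (by fun_prop) (by rw [e1]; linarith)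
  have n4 : ∀ᶠ θ in 𝓝 (2 * π / 9), cos (5 * θ / 2) < 0 :=
    ev_lt (by fun_prop) continuousAt_const (by rw [e5]; linarith)
  obtain ⟨δ1, hδ1, hball⟩ := Metric.eventually_nhds_iff.1 (n3.and n4)
  have hg := good_eventually
  rw [eventually_nhdsWithin_iff, Metric.eventually_nhds_iff] at hg
  obtain ⟨δ2, hδ2, hgood⟩ := hg
  set ε := min (min δ δ1) (min δ2 1) / 2 with hε
  have hε0 : 0 < ε := by positivity
  have hε1 : ε < δ := by
    have : min (min δ δ1) (min δ2 1) ≤ δ := (min_le_left _ _).trans (min_le_left _ _)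
    linarith
  have hε2 : ε < δ1 := by
    have : min (min δ δ1) (min δ2 1) ≤ δ1 := (min_le_left _ _).trans (min_le_right _ _)
    linarith
  have hε3 : ε < δ2 := by
    have : min (min δ δ1) (min δ2 1) ≤ δ2 := (min_le_right _ _).trans (min_le_left _ _)
    linarith
  have hε4 : ε < 1 := by
    have : min (min δ δ1) (min δ2 1) ≤ 1 := (min_le_right _ _).trans (min_le_right _ _)
    linarith
  obtain ⟨k₀, hk₀⟩ := exists_nat_gt (2 * (π + 1) / ε)
  refine ⟨k₀, fun k hk => ?_⟩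
  have hkr : (k₀:ℝ) ≤ k := by exact_mod_cast hk
  have hm : ((3 * (3 * k + 1) + 5 : ℕ) : ℝ) = 9 * k + 8 := by push_cast; ring
  rw [hm]
  set h : ℝ → ℝ := fun θ => (9 * k + 8) * θ / 2 - k * π - YY θ with hh
  have hcont : ContinuousOn h (Set.Icc (2 * π / 9 - ε) (2 * π / 9)) := by
    intro θ hθ
    have hd : dist θ (2 * π / 9) < δ1 := by
      rw [Real.dist_eq, abs_sub_comm, abs_of_nonneg (by linarith [hθ.2])]
      linarith [hθ.1]
    obtain ⟨k1, k2⟩ := hball hd
    apply ContinuousAt.continuousWithinAt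
    exact ContinuousAt.sub (by fun_prop) (cont_YY k1.ne' k2.ne)
  have h1 : 0 < h (2 * π / 9) := by
    simp only [hh]
    unfold YY
    linarith
  have h0 : h (2 * π / 9 - ε) < 0 := by
    simp only [hh]
    unfold YY
    have b1 := Real.neg_pi_div_two_lt_arctan (gg (2 * π / 9 - ε))
    have b2 : 2 * (π + 1) < k * ε := by
      rw [div_lt_iff₀ hε0] at hk₀
      nlinarith
    nlinarith
  obtain ⟨θ, hθ, hθ0⟩ := intermediate_value_Icc (by linarith) hcont
    (show (0:ℝ) ∈ Set.Icc (h (2 * π / 9 - ε)) (h (2 * π / 9)) from ⟨h0.le, h1.le⟩)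
  have hlt : θ < 2 * π / 9 := by
    rcases hθ.2.lt_or_eq with h' | h'
    · exact h'
    · rw [h'] at hθ0; linarith
  have hgt : 2 * π / 9 - ε ≤ θ := hθ.1
  refine ⟨θ, by linarith, hlt, ?_, ?_⟩
  · apply hgood _ hlt
    rw [Real.dist_eq, abs_sub_comm, abs_of_nonneg (by linarith)]
    linarith
  · simp only [hh] at hθ0
    linarith

end Pool.Agent.R195.GW
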