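import Mathlib
import Pool.Agent.R195.GWLim

/-! # The family of words: sign sequences with irrational rotation number -/

set_option autoImplicit false

namespace Pool.Agent.R195.GW

open Real Filter Topology

/-- `ε` is the (infinite) sign sequence of the walk with rotation number `α` started at `z₀`. The
problem's `z_{-1}` is `z 0`, and the problem's `z_n` is `z (n + 1)`. The strict inequality says
that no tie occurs. -/
def IsSignSequence (α : ℝ) (z₀ : ℂ) (ε : ℕ → ℤ) : Prop :=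
  ∃ z : ℕ → ℂ, z 0 = z₀ ∧ ∀ n : ℕ, (ε n = 1 ∨ ε n = -1) ∧
    z (n + 1) = z n + ε n * Complex.exp (2 * π * Complex.I * α * n) ∧
    ‖z (n + 1)‖ < ‖z n - ε n * Complex.exp (2 * π * Complex.I * α * n)‖

/-- `p` is the period of the eventually periodic sequence `ε`: the least `p ≥ 1` with
`ε (n + p) = ε n` for all large `n`. -/
def HasPeriod (ε : ℕ → ℤ) (p : ℕ) : Prop :=
  IsLeast {q : ℕ | 1 ≤ q ∧ ∃ N : ℕ, ∀ n ≥ N, ε (n + q) = ε n} p

/-! ### From the rotating frame to the walk -/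

lemma norm_lt_of_re {a : ℂ} {e : ℝ} (h : e * a.re < 0) : ‖a + e‖ < ‖a - e‖ := by
  have h1 : ‖a + e‖ ^ 2 = a.re ^ 2 + a.im ^ 2 + 2 * (e * a.re) + e ^ 2 := by
    rw [← Complex.normSq_eq_norm_sq, Complex.normSq_apply]
    simp only [Complex.add_re, Complex.ofReal_re, Complex.add_im, Complex.ofReal_im]
    ring
  have h2 : ‖a - e‖ ^ 2 = a.re ^ 2 + a.im ^ 2 - 2 * (e * a.re) + e ^ 2 := by
    rw [← Complex.normSq_eq_norm_sq, Complex.normSq_apply]
    simp only [Complex.sub_re, Complex.ofReal_re, Complex.sub_im, Complex.ofReal_im]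
    ring
  have : ‖a + e‖ ^ 2 < ‖a - e‖ ^ 2 := by rw [h1, h2]; linarith
  exact lt_of_pow_lt_pow_left₀ 2 (norm_nonneg _) this

lemma signSeq_of_uu {α : ℝ} {u0 : ℂ} {E : ℕ → ℤ} (hpm : ∀ j, E j = 1 ∨ E j = -1)
    (h : ∀ j, (E j : ℝ) * (om (2 * π * α) * uu (om (2 * π * α)) u0 E j).re < 0) :
    IsSignSequence α (om (2 * π * α) * u0) E := by
  set w := om (2 * π * α) with hw
  have hstep : ∀ j : ℕ, Complex.exp (2 * π * Complex.I * α * ((j + 1 : ℕ) : ℂ)) * w =
      Complex.exp (2 * π * Complex.I * α * (j : ℂ)) := by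
    intro j
    rw [hw]
    unfold om
    rw [← Complex.exp_add]
    congr 1
    push_cast
    ring
  have hnorm : ∀ j : ℕ, ‖Complex.exp (2 * π * Complex.I * α * (j : ℂ))‖ = 1 := by
    intro j
    have e : 2 * π * Complex.I * α * (j : ℂ) = ((2 * π * α * j : ℝ) : ℂ) * Complex.I := by
      push_cast; ring
    rw [e, Complex.norm_exp_ofReal_mul_I]
  refine ⟨fun j => Complex.exp (2 * π * Complex.I * α * (j : ℂ)) * (w * uu w u0 E j), ?_, ?_⟩
  · simp [uu]
  · intro j
    have hz : Complex.exp (2 * π * Complex.I * α * ((j + 1 : ℕ) : ℂ)) * (w * uu w u0 E (j + 1)) =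
        Complex.exp (2 * π * Complex.I * α * (j : ℂ)) * (w * uu w u0 E j + (E j : ℝ)) := by
      rw [← mul_assoc, hstep]
      simp only [uu]
      push_cast
      ring
    refine ⟨hpm j, ?_, ?_⟩
    · show Complex.exp (2 * π * Complex.I * α * ((j + 1 : ℕ) : ℂ)) * (w * uu w u0 E (j + 1)) = _
      rw [hz]
      push_cast
      ring
    · show ‖Complex.exp (2 * π * Complex.I * α * ((j + 1 : ℕ) : ℂ)) * (w * uu w u0 E (j + 1))‖ <
        ‖Complex.exp (2 * π * Complex.I * α * (j : ℂ)) * (w * uu w u0 E j) -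
          E j * Complex.exp (2 * π * Complex.I * α * (j : ℂ))‖
      have e2 : Complex.exp (2 * π * Complex.I * α * (j : ℂ)) * (w * uu w u0 E j) -
          E j * Complex.exp (2 * π * Complex.I * α * (j : ℂ)) =
          Complex.exp (2 * π * Complex.I * α * (j : ℂ)) * (w * uu w u0 E j - (E j : ℝ)) := by
        push_cast
        ring
      rw [hz, e2, norm_mul, norm_mul, hnorm, one_mul, one_mul]
      exact norm_lt_of_re (h j)

/-! ### All the sign conditions from the first half period -/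

lemma all_signs {w : ℂ} {n : ℕ} (h3 : 1 - w ^ 3 ≠ 0) (h1 : 1 + w ≠ 0)
    (hm : 1 + w ^ (3 * n + 5) ≠ 0)
    (h : ∀ j < 3 * n + 5, (Ew n j : ℝ) * (w * uu w (U0 w n) (Ew n) j).re < 0) :
    ∀ j, (Ew n j : ℝ) * (w * uu w (U0 w n) (Ew n) j).re < 0 := by
  intro j
  induction j using Nat.strong_induction_on with
  | _ j ih =>
    by_cases hj : j < 3 * n + 5
    · exact h j hj
    · push Not at hj
      obtain ⟨i, hi⟩ := Nat.exists_eq_add_of_le' hj
      rw [hi, Ew_anti, uu_anti (Ew_anti n) (uu_close h3 h1 hm)]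
      have := ih i (by omega)
      push_cast
      rw [mul_neg, Complex.neg_re]
      linarith

/-! ### The least period -/

lemma Ew_block {n j : ℕ} (h : j < 3 * n + 2) : Ew n j = if j % 3 = 0 then 1 else -1 := by
  rw [Ew_small (by omega), Hw_block h]

lemma Ew_break (n : ℕ) : Ew n (3 * n + 2) = 1 := by
  rw [Ew_small (by omega)]
  unfold Hw
  rw [if_neg (by omega), if_pos (by omega)]

lemma Ew_per (n j : ℕ) : Ew n (j + 2 * (3 * n + 5)) = Ew n j := by
  rw [show j + 2 * (3 * n + 5) = (j + (3 * n + 5)) + (3 * n + 5) by ring, Ew_anti, Ew_anti,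
    neg_neg]

lemma Ew_per_mul (n j N : ℕ) : Ew n (j + N * (2 * (3 * n + 5))) = Ew n j := by
  induction N with
  | zero => simp
  | succ N ih =>
    rw [show j + (N + 1) * (2 * (3 * n + 5)) = (j + N * (2 * (3 * n + 5))) + 2 * (3 * n + 5) by ring,
      Ew_per, ih]

lemma no_small {n p : ℕ} (hn : 4 ≤ n) (hp : 1 ≤ p) (hpm : p < 3 * n + 5)
    (h : ∀ j, Ew n (j + p) = Ew n j) : False := by
  by_cases h1 : p = 1
  · have := h 0
    rw [h1, Ew_block (by omega), Ew_block (by omega)] at this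
    norm_num at this
  by_cases h2 : p = 2
  · have := h 0
    rw [h2, Ew_block (by omega), Ew_block (by omega)] at this
    norm_num at this
  by_cases h3 : p ≤ 3 * n
  · have a := h (3 * n + 2 - p)
    have b := h (3 * n - p)
    rw [show 3 * n + 2 - p + p = 3 * n + 2 by omega, Ew_break, Ew_block (by omega)] at a
    rw [show 3 * n - p + p = 3 * n by omega, Ew_block (by omega), Ew_block (by omega),
      if_pos (by omega)] at b
    split_ifs at a with ha
    split_ifs at b with hb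
    omega
  · -- `e = m - p`
    obtain ⟨e, he⟩ : ∃ e, p + e = 3 * n + 5 := ⟨3 * n + 5 - p, by omega⟩
    have hanti : ∀ j, Ew n (j + e) = -Ew n j := by
      intro j
      rw [← Ew_anti n j, ← h (j + e), show j + e + p = j + (3 * n + 5) by omega]
    have he4 : e = 1 ∨ e = 2 ∨ e = 3 ∨ e = 4 := by omega
    rcases he4 with he4 | he4 | he4 | he4
    · have := hanti 1
      rw [he4, Ew_block (by omega), Ew_block (by omega)] at this
      norm_num at this
    · have := hanti 2
      rw [he4, Ew_block (by omega), Ew_block (by omega)] at this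
      norm_num at this
    · have := hanti 0
      rw [he4, Ew_block (by omega), Ew_block (by omega)] at this
      norm_num at this
    · have := hanti 1
      rw [he4, Ew_block (by omega), Ew_block (by omega)] at this
      norm_num at this

theorem Ew_hasPeriod {n : ℕ} (hn : 4 ≤ n) : HasPeriod (Ew n) (2 * (3 * n + 5)) := by
  refine ⟨⟨by omega, 0, fun j _ => Ew_per n j⟩, ?_⟩
  rintro p ⟨hp, N, hN⟩
  by_contra hlt
  push Not at hlt
  have hfull : ∀ j, Ew n (j + p) = Ew n j := by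
    intro j
    have hle : N ≤ j + N * (2 * (3 * n + 5)) := by
      have : N * 1 ≤ N * (2 * (3 * n + 5)) := Nat.mul_le_mul_left _ (by omega)
      omega
    have := hN _ hle
    rw [show j + N * (2 * (3 * n + 5)) + p = (j + p) + N * (2 * (3 * n + 5)) by ring, Ew_per_mul,
      Ew_per_mul] at this
    exact this
  rcases lt_trichotomy p (3 * n + 5) with hc | hc | hc
  · exact no_small hn hp hc hfull
  · have h0 := hfull 0
    rw [hc, Ew_anti, Ew_block (by omega)] at h0
    norm_num at h0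
  · refine no_small (p := 2 * (3 * n + 5) - p) hn (by omega) (by omega) fun j => ?_
    rw [← hfull, show j + (2 * (3 * n + 5) - p) + p = j + 2 * (3 * n + 5) by omega, Ew_per]

/-! ### Perturbation to an irrational rotation number -/

lemma cont_om : Continuous fun α : ℝ => om (2 * π * α) := by
  unfold om
  fun_prop

lemma cont_uu {f g : ℝ → ℂ} {x : ℝ} (hf : ContinuousAt f x) (hg : ContinuousAt g x) (E : ℕ → ℤ)
    (j : ℕ) : ContinuousAt (fun t => uu (f t) (g t) E j) x := by
  induction j with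
  | zero => simpa [uu] using hg
  | succ j ih =>
    simp only [uu]
    exact (hf.mul ih).add continuousAt_const

lemma cont_U0 {f : ℝ → ℂ} {x : ℝ} (hf : ContinuousAt f x) {n : ℕ} (h3 : 1 - f x ^ 3 ≠ 0)
    (h1 : 1 + f x ≠ 0) (hm : 1 + f x ^ (3 * n + 5) ≠ 0) :
    ContinuousAt (fun t => U0 (f t) n) x := by
  unfold U0 Cc Tt
  simp only [Nat.zero_mod, if_true]
  apply ContinuousAt.add
  · apply ContinuousAt.div
    · fun_prop
    · fun_prop
    · exact h3
  · apply ContinuousAt.mul _ hf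
    apply ContinuousAt.div
    · fun_prop
    · fun_prop
    · exact mul_ne_zero (mul_ne_zero h3 h1) hm

/-- The family: for all large `k` there is an irrational `α` in `(1 / 10, 1 / 9)` and a starting
point whose sign sequence has period exactly `18 k + 16`. -/
theorem family : ∃ k₀ : ℕ, ∀ k ≥ k₀, ∃ (α : ℝ) (z₀ : ℂ) (ε : ℕ → ℤ), Irrational α ∧
    1 / 10 < α ∧ α < 1 / 9 ∧ IsSignSequence α z₀ ε ∧ HasPeriod ε (18 * k + 16) := by
  have hP := Real.pi_pos
  obtain ⟨k₀, hk₀⟩ := exists_theta (2 * π / 90) (by positivity)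
  refine ⟨k₀ + 1, fun k hk => ?_⟩
  obtain ⟨θ, hθ1, hθ2, hgood, hy⟩ := hk₀ k (by omega)
  set n := 3 * k + 1 with hn
  have hsg := signs hgood hy
  rw [← hn] at hsg
  set α₀ := θ / (2 * π) with hα₀
  have hθα : 2 * π * α₀ = θ := by rw [hα₀]; field_simp
  have ha1 : 1 / 10 < α₀ := by
    rw [hα₀, lt_div_iff₀ (by positivity)]; linarith
  have ha2 : α₀ < 1 / 9 := by
    rw [hα₀, div_lt_iff₀ (by positivity)]; linarith
  -- nonvanishing
  have h3 : 1 - om (2 * π * α₀) ^ 3 ≠ 0 := by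
    rw [hθα, one_sub_om3]
    have : (sin (3 * θ / 2) : ℂ) ≠ 0 := by exact_mod_cast hgood.s3.ne'
    exact mul_ne_zero (mul_ne_zero (mul_ne_zero two_ne_zero Complex.I_ne_zero) this)
      (Complex.exp_ne_zero _)
  have h1 : 1 + om (2 * π * α₀) ≠ 0 := by
    rw [hθα]
    have e1 : 1 + om θ = 2 * (Real.cos (θ / 2) : ℂ) * Complex.exp (-((θ / 2 : ℝ) * Complex.I)) :=
      one_add_om θ
    rw [e1]
    have : (Real.cos (θ / 2) : ℂ) ≠ 0 := by exact_mod_cast hgood.c1.ne'
    exact mul_ne_zero (mul_ne_zero two_ne_zero this) (Complex.exp_ne_zero _)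
  have hm : 1 + om (2 * π * α₀) ^ (3 * n + 5) ≠ 0 := by
    rw [hθα]
    have em : 1 + om θ ^ (3 * n + 5) = 2 * (Real.cos (((3 * n + 5 : ℕ) : ℝ) * θ / 2) : ℂ) *
        Complex.exp (-((((3 * n + 5 : ℕ) : ℝ) * θ / 2 : ℝ) * Complex.I)) := by
      rw [om_pow]
      exact one_add_om (((3 * n + 5 : ℕ) : ℝ) * θ)
    rw [em]
    have hM : ((3 * n + 5 : ℕ) : ℝ) * θ / 2 = YY θ + k * π := by linarith
    have : Real.cos (((3 * n + 5 : ℕ) : ℝ) * θ / 2) ≠ 0 := by
      rw [hM, Real.cos_add_nat_mul_pi]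
      exact mul_ne_zero (pow_ne_zero _ (by norm_num)) hgood.cy.ne
    have h' : (Real.cos (((3 * n + 5 : ℕ) : ℝ) * θ / 2) : ℂ) ≠ 0 := by exact_mod_cast this
    exact mul_ne_zero (mul_ne_zero two_ne_zero h') (Complex.exp_ne_zero _)
  -- openness
  have cO : ContinuousAt (fun α : ℝ => om (2 * π * α)) α₀ := cont_om.continuousAt
  have cU := cont_U0 cO h3 h1 hm
  have ev3 : ∀ᶠ α in 𝓝 α₀, 1 - om (2 * π * α) ^ 3 ≠ 0 :=
    (continuousAt_const.sub (cO.pow 3)).eventually_ne h3
  have ev1 : ∀ᶠ α in 𝓝 α₀, 1 + om (2 * π * α) ≠ 0 :=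
    (continuousAt_const.add cO).eventually_ne h1
  have evm : ∀ᶠ α in 𝓝 α₀, 1 + om (2 * π * α) ^ (3 * n + 5) ≠ 0 :=
    (continuousAt_const.add (cO.pow _)).eventually_ne hm
  have evj : ∀ j, j < 3 * n + 5 → ∀ᶠ α in 𝓝 α₀, (Ew n j : ℝ) *
      (om (2 * π * α) * uu (om (2 * π * α)) (U0 (om (2 * π * α)) n) (Ew n) j).re < 0 := by
    intro j hj
    refine ContinuousAt.eventually_lt ?_ continuousAt_const ?_
    · apply continuousAt_const.mul
      exact Complex.continuous_re.continuousAt.comp (cO.mul (cont_uu cO cU (Ew n) j))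
    · rw [hθα]
      exact hsg j hj
  have evall : ∀ᶠ α in 𝓝 α₀, ∀ j ∈ Finset.range (3 * n + 5), (Ew n j : ℝ) *
      (om (2 * π * α) * uu (om (2 * π * α)) (U0 (om (2 * π * α)) n) (Ew n) j).re < 0 := by
    rw [Filter.eventually_all_finset]
    intro j hj
    exact evj j (Finset.mem_range.1 hj)
  have evr : ∀ᶠ α in 𝓝 α₀, 1 / 10 < α ∧ α < 1 / 9 :=
    (lt_mem_nhds ha1).and (gt_mem_nhds ha2)
  obtain ⟨δ, hδ, hball⟩ := Metric.eventually_nhds_iff.1
    (((ev3.and ev1).and evm).and (evall.and evr))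
  obtain ⟨α, hirr, hα1, hα2⟩ := exists_irrational_btwn (show α₀ < α₀ + δ by linarith)
  have hd : dist α α₀ < δ := by
    rw [Real.dist_eq, abs_of_pos (by linarith)]; linarith
  obtain ⟨⟨⟨k3, k1⟩, km⟩, ka, kr1, kr2⟩ := hball hd
  refine ⟨α, om (2 * π * α) * U0 (om (2 * π * α)) n, Ew n, hirr, kr1, kr2, ?_, ?_⟩
  · apply signSeq_of_uu (Ew_pm n)
    exact all_signs k3 k1 km fun j hj => ka j (Finset.mem_range.2 hj)
  · have := Ew_hasPeriod (n := n) (by omega)
    have e : 2 * (3 * n + 5) = 18 * k + 16 := by omega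
    rwa [e] at this

end Pool.Agent.R195.GW
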