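import Mathlib

/-! # Special alpha-limit sets of interval maps: a criterion for periodic points -/

set_option autoImplicit false

namespace Pool.Agent.R195.SA

open Set Filter Topology Function

/-- some point of `[0,1]` at distance less than `ε` from `e` is mapped to `x` by an iterate -/
def Acc (F : ℝ → ℝ) (x e : ℝ) : Prop :=
  ∀ ε > 0, ∃ y ∈ Icc (0:ℝ) 1, |y - e| < ε ∧ ∃ k, F^[k] y = x

/-- the union of the images of a neighbourhood -/
def WW (G : ℝ → ℝ) (e ε : ℝ) : Set ℝ := {u | ∃ y ∈ Icc (0:ℝ) 1, |y - e| < ε ∧ ∃ k, G^[k] y = u}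

/-- the points which belong to all of these unions -/
def AA (G : ℝ → ℝ) (e : ℝ) : Set ℝ := {u | ∀ ε > 0, u ∈ WW G e ε}

variable {G : ℝ → ℝ} {e : ℝ}

lemma WW_step {ε t : ℝ} (h : t ∈ WW G e ε) : G t ∈ WW G e ε := by
  obtain ⟨y, hy, hd, k, hk⟩ := h
  exact ⟨y, hy, hd, k + 1, by rw [iterate_succ_apply', hk]⟩

lemma WW_mono {ε δ : ℝ} (h : ε ≤ δ) : WW G e ε ⊆ WW G e δ := by
  rintro u ⟨y, hy, hd, k, hk⟩
  exact ⟨y, hy, lt_of_lt_of_le hd h, k, hk⟩

lemma iter_e (he : G e = e) (k : ℕ) : G^[k] e = e := iterate_fixed he k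

lemma mem_base {ε : ℝ} (hε : 0 < ε) (he0 : e ∈ Icc (0:ℝ) 1) : e ∈ WW G e ε :=
  ⟨e, he0, by simpa using hε, 0, rfl⟩

/-- star-shapedness -/
lemma WW_star (hG : Continuous G) (he : G e = e) (he0 : e ∈ Icc (0:ℝ) 1) {ε t s : ℝ}
    (hε : 0 < ε) (ht : t ∈ WW G e ε) (hs : s ∈ uIcc e t) : s ∈ WW G e ε := by
  obtain ⟨y, hy, hd, k, hk⟩ := ht
  have hpre : IsPreconnected (G^[k] '' (uIcc e y)) :=
    (isPreconnected_uIcc).image _ (hG.iterate k).continuousOn
  have h1 : e ∈ G^[k] '' (uIcc e y) := ⟨e, left_mem_uIcc, iter_e he k⟩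
  have h2 : t ∈ G^[k] '' (uIcc e y) := ⟨y, right_mem_uIcc, hk⟩
  have hsub : uIcc e t ⊆ G^[k] '' (uIcc e y) := hpre.ordConnected.uIcc_subset h1 h2
  obtain ⟨y', hy', hk'⟩ := hsub hs
  refine ⟨y', ?_, ?_, k, hk'⟩
  · exact (ordConnected_Icc.uIcc_subset he0 hy) hy'
  · have := abs_sub_left_of_mem_uIcc hy'
    linarith

lemma AA_star (hG : Continuous G) (he : G e = e) (he0 : e ∈ Icc (0:ℝ) 1) {t s : ℝ}
    (ht : t ∈ AA G e) (hs : s ∈ uIcc e t) : s ∈ AA G e :=
  fun ε hε => WW_star hG he he0 hε (ht ε hε) hs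

lemma e_mem_AA (he0 : e ∈ Icc (0:ℝ) 1) : e ∈ AA G e := fun _ hε => mem_base hε he0

lemma mem_uIcc_of_signed {σ s t : ℝ} (hσ : σ = 1 ∨ σ = -1) (h0 : 0 ≤ σ * (s - e))
    (h1 : σ * (s - e) ≤ σ * (t - e)) : s ∈ uIcc e t := by
  rw [mem_uIcc]
  rcases hσ with h | h
  · left; subst h; constructor <;> linarith
  · right; subst h; constructor <;> linarith

lemma abs_signed {σ s : ℝ} (hσ : σ = 1 ∨ σ = -1) (h0 : 0 ≤ σ * (s - e)) :
    |s - e| = σ * (s - e) := by
  rcases hσ with h | h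
  · subst h; rw [one_mul] at *; exact abs_of_nonneg h0
  · subst h; rw [abs_of_nonpos (by linarith)]; ring

lemma abs_signed' {σ s : ℝ} (hσ : σ = 1 ∨ σ = -1) (h0 : σ * (s - e) ≤ 0) :
    |s - e| = -(σ * (s - e)) := by
  rcases hσ with h | h
  · subst h; rw [one_mul] at *; exact abs_of_nonpos h0
  · subst h; rw [abs_of_nonneg (by linarith)]; ring

/-- the key step, for a point on the side `σ` -/
lemma back_step (hG : Continuous G) (he : G e = e) (he0 : e ∈ Icc (0:ℝ) 1) {σ u : ℝ}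
    (hσ : σ = 1 ∨ σ = -1) (hu : u ∈ AA G e) (hpos : 0 < σ * (u - e)) {ε : ℝ} (hε : 0 < ε) :
    ∃ y ∈ AA G e, |y - e| < ε ∧ ∃ k, 1 ≤ k ∧ G^[k] y = u := by
  have hue : |u - e| = σ * (u - e) := abs_signed hσ hpos.le
  -- points on the side of `u`, closer to `e`, are in `A`
  have hside : ∀ y, 0 ≤ σ * (y - e) → σ * (y - e) ≤ σ * (u - e) → y ∈ AA G e := fun y h0 h1 =>
    AA_star hG he he0 hu (mem_uIcc_of_signed hσ h0 h1)
  have hne : ∀ y k, |y - e| < σ * (u - e) → G^[k] y = u → 1 ≤ k := by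
    intro y k h1 h2
    by_contra hk
    have : k = 0 := by omega
    subst this
    have : y = u := h2
    rw [this, hue] at h1
    exact lt_irrefl _ h1
  by_cases hcase : ∃ t₀ ∈ AA G e, σ * (t₀ - e) < 0
  · obtain ⟨t₀, ht₀, hneg⟩ := hcase
    obtain ⟨y, hy, hd, k, hk⟩ := hu (min ε (min (σ * (u - e)) (-(σ * (t₀ - e)))))
      (lt_min hε (lt_min hpos (by linarith)))
    have hd1 := lt_of_lt_of_le hd (min_le_left _ _)
    have hd2 := lt_of_lt_of_le hd ((min_le_right _ _).trans (min_le_left _ _))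
    have hd3 := lt_of_lt_of_le hd ((min_le_right _ _).trans (min_le_right _ _))
    refine ⟨y, ?_, hd1, k, hne y k hd2 hk, hk⟩
    rcases le_total 0 (σ * (y - e)) with h | h
    · refine hside y h ?_
      rw [abs_signed hσ h] at hd2
      exact hd2.le
    · rw [abs_signed' hσ h] at hd3
      have hσ' : (-σ) = 1 ∨ (-σ) = -1 := by
        rcases hσ with h | h
        · right; rw [h]
        · left; rw [h]; norm_num
      refine AA_star hG he he0 ht₀ (mem_uIcc_of_signed hσ' ?_ ?_)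
      · linarith
      · linarith
  · push Not at hcase
    -- continuity of `G` at `e`
    set ρ := min ε (σ * (u - e)) with hρ
    have hρ0 : 0 < ρ := lt_min hε hpos
    obtain ⟨η, hη, hcont⟩ := Metric.continuousAt_iff.1 (hG.continuousAt (x := e)) ρ hρ0
    rw [he] at hcont
    -- a point on the other side which is not in some `W`
    set tη := e - σ * (η / 2) with htη
    have hσσ : σ * σ = 1 := by rcases hσ with h | h <;> rw [h] <;> norm_num
    have htη' : σ * (tη - e) = -(η / 2) := by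
      rw [htη]; linear_combination (-(η / 2)) * hσσ
    have hnot : tη ∉ AA G e := by
      intro h
      have := hcase tη h
      linarith
    unfold AA at hnot
    rw [Set.mem_ofPred_eq] at hnot
    simp only [not_forall] at hnot
    obtain ⟨ε₁, hε₁, hW⟩ := hnot
    have hbound : ∀ t ∈ WW G e ε₁, -(η / 2) < σ * (t - e) := by
      intro t ht
      by_contra hcon
      push Not at hcon
      apply hW
      have hσ' : (-σ) = 1 ∨ (-σ) = -1 := by
        rcases hσ with h | h
        · right; rw [h]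
        · left; rw [h]; norm_num
      refine WW_star hG he he0 hε₁ ht (mem_uIcc_of_signed hσ' ?_ ?_)
      · linarith
      · linarith
    obtain ⟨y, hy, hd, k, hk⟩ := hu (min ε₁ ρ) (lt_min hε₁ hρ0)
    have hyW : ∀ j, G^[j] y ∈ WW G e ε₁ := fun j =>
      ⟨y, hy, lt_of_lt_of_le hd (min_le_left _ _), j, rfl⟩
    have hdρ : |y - e| < ρ := lt_of_lt_of_le hd (min_le_right _ _)
    -- the last time on the other side
    by_cases hy0 : 0 ≤ σ * (y - e)
    · refine ⟨y, hside y hy0 ?_, lt_of_lt_of_le hdρ (min_le_left _ _), k, ?_, hk⟩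
      · rw [← abs_signed hσ hy0]
        exact (lt_of_lt_of_le hdρ (min_le_right _ _)).le
      · exact hne y k (lt_of_lt_of_le hdρ (min_le_right _ _)) hk
    · push Not at hy0
      -- first time `j` after which we are on the good side until `k`
      have hex : ∃ j, j < k ∧ σ * (G^[j] y - e) < 0 ∧ 0 ≤ σ * (G^[j + 1] y - e) := by
        by_contra hcon
        push Not at hcon
        have : ∀ j, j ≤ k → σ * (G^[j] y - e) < 0 := by
          intro j
          induction j with
          | zero => intro _; exact hy0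
          | succ j ih =>
            intro hj
            exact hcon j (by omega) (ih (by omega))
        have := this k le_rfl
        rw [hk] at this
        linarith
      obtain ⟨j, hjk, hjneg, hjpos⟩ := hex
      have hclose : |G^[j] y - e| < η := by
        rw [abs_signed' hσ hjneg.le]
        have := hbound _ (hyW j)
        linarith
      have hnext : |G^[j + 1] y - e| < ρ := by
        rw [iterate_succ_apply']
        have := hcont (x := G^[j] y) (by rw [Real.dist_eq]; exact hclose)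
        rwa [Real.dist_eq] at this
      have hk' : G^[k - (j + 1)] (G^[j + 1] y) = u := by
        rw [← iterate_add_apply, show k - (j + 1) + (j + 1) = k by omega, hk]
      refine ⟨G^[j + 1] y, hside _ hjpos ?_, lt_of_lt_of_le hnext (min_le_left _ _),
        k - (j + 1), ?_, hk'⟩
      · rw [← abs_signed hσ hjpos]
        exact (lt_of_lt_of_le hnext (min_le_right _ _)).le
      · exact hne _ _ (lt_of_lt_of_le hnext (min_le_right _ _)) hk'

lemma back_step' (hG : Continuous G) (he : G e = e) (he0 : e ∈ Icc (0:ℝ) 1) {u : ℝ}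
    (hu : u ∈ AA G e) {ε : ℝ} (hε : 0 < ε) :
    ∃ y ∈ AA G e, |y - e| < ε ∧ ∃ k, 1 ≤ k ∧ G^[k] y = u := by
  rcases lt_trichotomy u e with h | h | h
  · exact back_step hG he he0 (σ := -1) (Or.inr rfl) hu (by linarith) hε
  · subst h
    exact ⟨u, e_mem_AA he0, by simpa using hε, 1, le_rfl, he⟩
  · exact back_step hG he he0 (σ := 1) (Or.inl rfl) hu (by linarith) hε

/-- a point of `AA` which is mapped to `x` -/
lemma exists_start {F : ℝ → ℝ} (hF : Continuous F) (hI : ∀ t ∈ Icc (0:ℝ) 1, F t ∈ Icc (0:ℝ) 1)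
    {m : ℕ} (hm : 1 ≤ m) (he : F^[m] e = e) (he0 : e ∈ Icc (0:ℝ) 1) {x : ℝ} (hacc : Acc F x e) :
    ∃ u ∈ AA (F^[m]) e, ∃ i, F^[i] u = x := by
  -- a residue and a side which work for all `ε`
  have h1 : ∃ i < m, ∃ σ : ℝ, (σ = 1 ∨ σ = -1) ∧
      ∀ ε > 0, ∃ u ∈ WW (F^[m]) e ε, 0 ≤ σ * (u - e) ∧ F^[i] u = x := by
    by_contra hcon
    push Not at hcon
    -- `hcon : ∀ i < m, ∀ σ, σ = ± 1 → ∃ ε > 0, ...`
    choose! E hE hE' using hcon
    set δ := (Finset.range m).inf' (by simpa using (by omega : m ≠ 0))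
      (fun i => min (E i 1) (E i (-1))) with hδ
    have hδ0 : 0 < δ := by
      rw [hδ, Finset.lt_inf'_iff]
      intro i hi
      have hi' : i < m := Finset.mem_range.1 hi
      exact lt_min (hE i hi' 1 (Or.inl rfl)) (hE i hi' (-1) (Or.inr rfl))
    obtain ⟨y, hy, hd, k, hk⟩ := hacc δ hδ0
    have hi' : k % m < m := Nat.mod_lt _ (by omega)
    have hle : δ ≤ min (E (k % m) 1) (E (k % m) (-1)) :=
      Finset.inf'_le _ (Finset.mem_range.2 hi')
    have hkk : F^[k % m] ((F^[m])^[k / m] y) = x := by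
      rw [← iterate_mul, ← iterate_add_apply, Nat.mod_add_div, hk]
    rcases le_total 0 ((F^[m])^[k / m] y - e) with h | h
    · exact hE' (k % m) hi' 1 (Or.inl rfl) ((F^[m])^[k / m] y)
        ⟨y, hy, lt_of_lt_of_le hd (hle.trans (min_le_left _ _)), k / m, rfl⟩ (by linarith) hkk
    · exact hE' (k % m) hi' (-1) (Or.inr rfl) ((F^[m])^[k / m] y)
        ⟨y, hy, lt_of_lt_of_le hd (hle.trans (min_le_right _ _)), k / m, rfl⟩ (by linarith) hkk
  obtain ⟨i, -, σ, hσ, h⟩ := h1
  -- the nearest solution on the side `σ`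
  have hWI : ∀ ε, ∀ u ∈ WW (F^[m]) e ε, u ∈ Icc (0:ℝ) 1 := by
    rintro ε u ⟨y, hy, -, k, hk⟩
    have : ∀ j, F^[j] y ∈ Icc (0:ℝ) 1 := by
      intro j
      induction j with
      | zero => exact hy
      | succ j ih => rw [iterate_succ_apply']; exact hI _ ih
    rw [← hk, ← iterate_mul]
    exact this _
  set T : Set ℝ := Icc (0:ℝ) 1 ∩ {u | 0 ≤ σ * (u - e) ∧ F^[i] u = x} with hT
  have hTc : IsCompact T := by
    apply isCompact_Icc.inter_right
    apply IsClosed.and
    · exact isClosed_le continuous_const (by fun_prop)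
    · exact isClosed_eq (hF.iterate i) continuous_const
  have hTne : T.Nonempty := by
    obtain ⟨u, hu, hu1, hu2⟩ := h 1 one_pos
    exact ⟨u, hWI _ _ hu, hu1, hu2⟩
  obtain ⟨u, huT, hmin⟩ := hTc.exists_isMinOn hTne
    (f := fun u => σ * (u - e)) (by fun_prop)
  refine ⟨u, ?_, i, huT.2.2⟩
  intro ε hε
  obtain ⟨v, hv, hv1, hv2⟩ := h ε hε
  have hle : σ * (u - e) ≤ σ * (v - e) := hmin ⟨hWI _ _ hv, hv1, hv2⟩
  exact WW_star (hF.iterate m) he he0 hε hv (mem_uIcc_of_signed hσ huT.2.1 hle)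

/-- The criterion: if every neighbourhood of the periodic point `e` contains points which are
mapped to `x`, then a backward orbit branch of `x` accumulates at `e`. -/
theorem exists_branch {F : ℝ → ℝ} (hF : Continuous F)
    (hI : ∀ t ∈ Icc (0:ℝ) 1, F t ∈ Icc (0:ℝ) 1)
    {m : ℕ} (hm : 1 ≤ m) (he : F^[m] e = e) (he0 : e ∈ Icc (0:ℝ) 1) {x : ℝ} (hacc : Acc F x e) :
    ∃ b : ℕ → ℝ, b 0 = x ∧ (∀ k, b k ∈ Icc (0:ℝ) 1) ∧ (∀ k, F (b (k + 1)) = b k) ∧
      ∃ φ : ℕ → ℕ, StrictMono φ ∧ Tendsto (fun j => b (φ j)) atTop (𝓝 e) := by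
  obtain ⟨u, hu, i, hi⟩ := exists_start hF hI hm he he0 hacc
  have hstep : ∀ (v : AA (F^[m]) e) (j : ℕ), ∃ w : AA (F^[m]) e, |(w:ℝ) - e| < 1 / (j + 1) ∧
      ∃ k, 1 ≤ k ∧ (F^[m])^[k] w = v := by
    intro v j
    obtain ⟨y, hy, hd, k, hk1, hk⟩ := back_step' (hF.iterate m) he he0 v.2
      (ε := 1 / ((j:ℝ) + 1)) (by positivity)
    exact ⟨⟨y, hy⟩, hd, k, hk1, hk⟩
  choose nx hnx kk hkk1 hkk using hstep
  -- the sequence of points of `AA`
  let V : ℕ → AA (F^[m]) e := fun j => Nat.rec ⟨u, hu⟩ (fun j v => nx v j) j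
  have hV0 : V 0 = ⟨u, hu⟩ := rfl
  have hVs : ∀ j, V (j + 1) = nx (V j) j := fun j => rfl
  -- the times
  let N : ℕ → ℕ := fun j => Nat.rec i (fun j n => n + m * kk (V j) j) j
  have hN0 : N 0 = i := rfl
  have hNs : ∀ j, N (j + 1) = N j + m * kk (V j) j := fun j => rfl
  have hNlt : ∀ j, N j < N (j + 1) := by
    intro j
    rw [hNs]
    have := hkk1 (V j) j
    have : 0 < m * kk (V j) j := by positivity
    omega
  have hNmono : StrictMono N := strictMono_nat_of_lt_succ hNlt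
  have hNge : ∀ j, j ≤ N j := fun j => hNmono.id_le j
  have hVV : ∀ j d : ℕ, F^[N (j + d) - N j] (V (j + d)).1 = (V j).1 := by
    intro j d
    induction d with
    | zero => simp
    | succ d ih =>
      have h1 : N j ≤ N (j + d) := hNmono.monotone (by omega)
      have h2 : N (j + (d + 1)) = N (j + d) + m * kk (V (j + d)) (j + d) := hNs (j + d)
      have h3 : F^[m * kk (V (j + d)) (j + d)] (V (j + (d + 1))).1 = (V (j + d)).1 := by
        rw [iterate_mul]
        exact hkk (V (j + d)) (j + d)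
      rw [h2, show N (j + d) + m * kk (V (j + d)) (j + d) - N j =
        (N (j + d) - N j) + m * kk (V (j + d)) (j + d) by omega, iterate_add_apply, h3, ih]
  have hVx : ∀ j : ℕ, F^[N j] (V j).1 = x := by
    intro j
    have h1 := hVV 0 j
    rw [zero_add, hN0, hV0] at h1
    have hle : i ≤ N j := hNmono.monotone (Nat.zero_le j)
    rw [show N j = i + (N j - i) by omega, iterate_add_apply, h1, hi]
  have hAI : ∀ v ∈ AA (F^[m]) e, v ∈ Icc (0:ℝ) 1 := by
    intro v hv
    obtain ⟨y, hy, -, k, hk⟩ := hv 1 one_pos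
    have : ∀ j, F^[j] y ∈ Icc (0:ℝ) 1 := by
      intro j
      induction j with
      | zero => exact hy
      | succ j ih => rw [iterate_succ_apply']; exact hI _ ih
    rw [← hk, ← iterate_mul]
    exact this _
  have hiter : ∀ (v : ℝ), v ∈ Icc (0:ℝ) 1 → ∀ j, F^[j] v ∈ Icc (0:ℝ) 1 := by
    intro v hv j
    induction j with
    | zero => exact hv
    | succ j ih => rw [iterate_succ_apply']; exact hI _ ih
  refine ⟨fun t => F^[N t - t] (V t).1, ?_, ?_, ?_, N, hNmono, ?_⟩
  · have := hVx 0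
    simpa using this
  · intro t
    exact hiter _ (hAI _ (V t).2) _
  · intro t
    show F (F^[N (t + 1) - (t + 1)] (V (t + 1)).1) = F^[N t - t] (V t).1
    rw [← iterate_succ_apply' F, ← hVV t 1, ← iterate_add_apply]
    congr 2
    have h1 := hNge t
    have h2 := hNlt t
    omega
  · have hval : ∀ j : ℕ, F^[N (N j) - N j] (V (N j)).1 = (V j).1 := by
      intro j
      have h1 := hNge j
      have h2 := hVV j (N j - j)
      rwa [show j + (N j - j) = N j by omega] at h2
    simp only [hval]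
    rw [tendsto_iff_norm_sub_tendsto_zero]
    rw [← tendsto_add_atTop_iff_nat 1]
    refine squeeze_zero (fun j => norm_nonneg _) (fun j => ?_)
      tendsto_one_div_add_atTop_nhds_zero_nat
    rw [Real.norm_eq_abs, hVs]
    exact (hnx (V j) j).le

end Pool.Agent.R195.SA
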