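import Mathlib
import Pool.Agent.R195.SAlpha1

/-! # Special alpha-limit sets of interval maps: periodic points with a given itinerary -/

set_option autoImplicit false

namespace Pool.Agent.R195.SA

open Set Filter Topology Function

/-! ### Covering relations -/

/-- a subinterval mapped exactly onto `[c, d]` -/
lemma exists_sub_aux {G : ℝ → ℝ} (hG : Continuous G) {u v c d : ℝ} (huv : u ≤ v) (hcd : c ≤ d)
    (hu : G u = c) (hv : G v = d) :
    ∃ a' b', a' ≤ b' ∧ Icc a' b' ⊆ Icc u v ∧ G '' Icc a' b' = Icc c d := by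
  -- `a'`: the last point where `G = c`
  have hK : IsCompact (Icc u v ∩ {t | G t = c}) :=
    isCompact_Icc.inter_right (isClosed_eq hG continuous_const)
  obtain ⟨a', ⟨ha'I, ha'c⟩, ha'max⟩ := hK.exists_isGreatest ⟨u, left_mem_Icc.2 huv, hu⟩
  have hK2 : IsCompact (Icc a' v ∩ {t | G t = d}) :=
    isCompact_Icc.inter_right (isClosed_eq hG continuous_const)
  obtain ⟨b', ⟨hb'I, hb'd⟩, hb'min⟩ := hK2.exists_isLeast ⟨v, right_mem_Icc.2 ha'I.2, hv⟩
  have ha'c' : G a' = c := ha'c
  have hb'd' : G b' = d := hb'd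
  refine ⟨a', b', hb'I.1, ?_, ?_⟩
  · intro t ht
    exact ⟨ha'I.1.trans ht.1, ht.2.trans hb'I.2⟩
  · apply Subset.antisymm
    · rintro _ ⟨t, ht, rfl⟩
      constructor
      · by_contra hcon
        push Not at hcon
        -- then `G = c` somewhere in `[t, b']`
        have : c ∈ G '' Icc t b' := by
          apply intermediate_value_Icc ht.2 hG.continuousOn
          exact ⟨hcon.le, by rw [hb'd']; exact hcd⟩
        obtain ⟨s, hs, hs'⟩ := this
        have h1 : s ≤ a' := ha'max ⟨⟨ha'I.1.trans (ht.1.trans hs.1), hs.2.trans hb'I.2⟩, hs'⟩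
        have h2 : t = a' := le_antisymm (hs.1.trans h1) ht.1
        rw [h2, ha'c'] at hcon
        exact lt_irrefl _ hcon
      · by_contra hcon
        push Not at hcon
        have : d ∈ G '' Icc a' t := by
          apply intermediate_value_Icc ht.1 hG.continuousOn
          exact ⟨by rw [ha'c']; exact hcd, hcon.le⟩
        obtain ⟨s, hs, hs'⟩ := this
        have h1 : b' ≤ s := hb'min ⟨⟨hs.1, (hs.2.trans ht.2).trans hb'I.2⟩, hs'⟩
        have h2 : t = b' := le_antisymm ht.2 (h1.trans hs.2)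
        rw [h2, hb'd'] at hcon
        exact lt_irrefl _ hcon
    · have := intermediate_value_Icc hb'I.1 hG.continuousOn (f := G)
      rwa [ha'c', hb'd'] at this

lemma exists_sub {G : ℝ → ℝ} (hG : Continuous G) {a b c d : ℝ} (hcd : c ≤ d)
    (h : Icc c d ⊆ G '' Icc a b) :
    ∃ a' b', a' ≤ b' ∧ Icc a' b' ⊆ Icc a b ∧ G '' Icc a' b' = Icc c d := by
  obtain ⟨u, hu, hu'⟩ := h (left_mem_Icc.2 hcd)
  obtain ⟨v, hv, hv'⟩ := h (right_mem_Icc.2 hcd)
  rcases le_total u v with huv | huv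
  · obtain ⟨a', b', h1, h2, h3⟩ := exists_sub_aux hG huv hcd hu' hv'
    exact ⟨a', b', h1, h2.trans (Icc_subset_Icc hu.1 hv.2), h3⟩
  · -- apply the previous case to `-G`
    obtain ⟨a', b', h1, h2, h3⟩ := exists_sub_aux (G := fun t => -G t) hG.neg huv
      (neg_le_neg hcd) (by simp [hv']) (by simp [hu'])
    refine ⟨a', b', h1, h2.trans (Icc_subset_Icc hv.1 hu.2), ?_⟩
    ext y
    constructor
    · rintro ⟨t, ht, rfl⟩
      have : -G t ∈ Icc (-d) (-c) := h3 ▸ mem_image_of_mem (fun t => -G t) ht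
      exact ⟨by linarith [this.2], by linarith [this.1]⟩
    · intro hy
      have : -y ∈ (fun t => -G t) '' Icc a' b' := by
        rw [h3]; exact ⟨by linarith [hy.2], by linarith [hy.1]⟩
      obtain ⟨t, ht, ht'⟩ := this
      exact ⟨t, ht, by have : -G t = -y := ht'; linarith⟩

lemma chain {F : ℝ → ℝ} (hF : Continuous F) {A B : ℕ → ℝ} (hAB : ∀ k, A k ≤ B k)
    (hcov : ∀ k, Icc (A (k + 1)) (B (k + 1)) ⊆ F '' Icc (A k) (B k)) (N : ℕ) :
    ∃ c d, c ≤ d ∧ (∀ i ≤ N, ∀ t ∈ Icc c d, F^[i] t ∈ Icc (A i) (B i)) ∧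
      F^[N] '' Icc c d = Icc (A N) (B N) := by
  induction N with
  | zero =>
    refine ⟨A 0, B 0, hAB 0, ?_, by simp⟩
    intro i hi t ht
    have : i = 0 := by omega
    subst this
    exact ht
  | succ N ih =>
    obtain ⟨c, d, hcd, hi, him⟩ := ih
    have h1 : Icc (A (N + 1)) (B (N + 1)) ⊆ F^[N + 1] '' Icc c d := by
      rw [iterate_succ', image_comp, him]
      exact hcov N
    obtain ⟨a', b', h2, h3, h4⟩ := exists_sub (hF.iterate (N + 1)) (hAB _) h1
    refine ⟨a', b', h2, ?_, h4⟩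
    intro i hi' t ht
    rcases Nat.lt_or_ge i (N + 1) with h | h
    · exact hi i (by omega) t (h3 ht)
    · have : i = N + 1 := by omega
      subst this
      rw [← h4]
      exact mem_image_of_mem _ ht

/-- a periodic point with a given periodic itinerary -/
lemma exists_periodic {F : ℝ → ℝ} (hF : Continuous F) {A B : ℕ → ℝ} (hAB : ∀ k, A k ≤ B k)
    (hcov : ∀ k, Icc (A (k + 1)) (B (k + 1)) ⊆ F '' Icc (A k) (B k)) {n : ℕ} (hn : 1 ≤ n)
    (hA : ∀ k, A (k + n) = A k) (hB : ∀ k, B (k + n) = B k) :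
    ∃ z, F^[n] z = z ∧ ∀ k, F^[k] z ∈ Icc (A k) (B k) := by
  obtain ⟨c, d, hcd, hi, him⟩ := chain hF hAB hcov n
  have hA0 : A n = A 0 := by have := hA 0; rwa [zero_add] at this
  have hB0 : B n = B 0 := by have := hB 0; rwa [zero_add] at this
  have hsub : Icc c d ⊆ Icc (A 0) (B 0) := fun t ht => hi 0 (Nat.zero_le _) t ht
  have hc : A 0 ≤ c := (hsub (left_mem_Icc.2 hcd)).1
  have hd : d ≤ B 0 := (hsub (right_mem_Icc.2 hcd)).2
  obtain ⟨u, hu, hu'⟩ : A n ∈ F^[n] '' Icc c d := by rw [him]; exact left_mem_Icc.2 (hAB n)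
  obtain ⟨v, hv, hv'⟩ : B n ∈ F^[n] '' Icc c d := by rw [him]; exact right_mem_Icc.2 (hAB n)
  obtain ⟨z, hz, hz'⟩ := exists_mem_uIcc_isFixedPt (a := v) (b := u) (f := F^[n])
    (hF.iterate n).continuousOn (by rw [hv', hB0]; exact hv.2.trans hd)
    (by rw [hu', hA0]; exact hc.trans hu.1)
  have hzI : z ∈ Icc c d := ordConnected_Icc.uIcc_subset hv hu hz
  refine ⟨z, hz', fun k => ?_⟩
  have hk : F^[k] z = F^[k % n] z := by
    have : IsPeriodicPt F n z := hz'
    exact (this.iterate_mod_apply k).symm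
  have hAk : ∀ q r, A (r + n * q) = A r := by
    intro q r
    induction q with
    | zero => simp
    | succ q ih => rw [show r + n * (q + 1) = (r + n * q) + n by ring, hA, ih]
  have hBk : ∀ q r, B (r + n * q) = B r := by
    intro q r
    induction q with
    | zero => simp
    | succ q ih => rw [show r + n * (q + 1) = (r + n * q) + n by ring, hB, ih]
  have h1 := hi (k % n) (Nat.mod_lt _ (by omega)).le z hzI
  have h2 := hAk (k / n) (k % n)
  have h3 := hBk (k / n) (k % n)
  rw [Nat.mod_add_div] at h2 h3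
  rw [hk, h2, h3]
  exact h1

end Pool.Agent.R195.SA
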