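import Mathlib
import Pool.Agent.R195.SAlpha2

/-! # Special alpha-limit sets of interval maps: the component argument -/

set_option autoImplicit false

namespace Pool.Agent.R195.SA

open Set Filter Topology Function

/-- the set of points with the itinerary given by the intervals `[A k, B k]` -/
def Itin (F : ℝ → ℝ) (A B : ℕ → ℝ) : Set ℝ := {y | ∀ k, F^[k] y ∈ Icc (A k) (B k)}

lemma isClosed_Itin {F : ℝ → ℝ} (hF : Continuous F) (A B : ℕ → ℝ) : IsClosed (Itin F A B) := by
  have : Itin F A B = ⋂ k, (F^[k]) ⁻¹' (Icc (A k) (B k)) := by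
    ext y
    rw [mem_iInter]
    exact Iff.rfl
  rw [this]
  exact isClosed_iInter fun k => isClosed_Icc.preimage (hF.iterate k)

/-- boundary points of the set of points with the given itinerary are accessible -/
lemma acc_of_bad {F : ℝ → ℝ} (hF : Continuous F) {A B : ℕ → ℝ} {P : Set ℝ} {x : ℝ}
    (hAP : ∀ k, A k ∈ P) (hBP : ∀ k, B k ∈ P) (hPI : P ⊆ Icc (0:ℝ) 1)
    (hacc : ∀ p ∈ P, Acc F x p) (hav : ∀ y ∈ Itin F A B, ∀ k, F^[k] y ∉ P) {e : ℝ}
    (he : e ∈ Itin F A B) (hbad : Itin F A B ∉ 𝓝 e) : Acc F x e := by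
  intro ε hε
  have he0 : e ∈ Icc (A 0) (B 0) := he 0
  have heP : e ∉ P := hav e he 0
  have hA0 : A 0 < e := lt_of_le_of_ne he0.1 (fun h => heP (h ▸ hAP 0))
  have hB0 : e < B 0 := lt_of_le_of_ne he0.2 (fun h => heP (h ▸ hBP 0))
  -- a point near `e` without the itinerary
  obtain ⟨y, hyε, hyS⟩ : ∃ y, |y - e| < min ε (min (e - A 0) (B 0 - e)) ∧ y ∉ Itin F A B := by
    by_contra hcon
    push Not at hcon
    apply hbad
    rw [Metric.mem_nhds_iff]
    refine ⟨min ε (min (e - A 0) (B 0 - e)),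
      lt_min hε (lt_min (by linarith) (by linarith)), fun y hy => ?_⟩
    rw [Metric.mem_ball, Real.dist_eq] at hy
    exact hcon y hy
  have h1 := lt_of_lt_of_le hyε (min_le_left _ _)
  have h2 := lt_of_lt_of_le hyε ((min_le_right _ _).trans (min_le_left _ _))
  have h3 := lt_of_lt_of_le hyε ((min_le_right _ _).trans (min_le_right _ _))
  rw [abs_lt] at h2 h3
  have hyI : y ∈ Icc (0:ℝ) 1 := by
    have ha := (hPI (hAP 0)).1
    have hb := (hPI (hBP 0)).2
    constructor <;> linarith [h2.1, h3.2]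
  have heI : e ∈ Icc (0:ℝ) 1 := by
    have ha := (hPI (hAP 0)).1
    have hb := (hPI (hBP 0)).2
    constructor <;> linarith
  unfold Itin at hyS
  rw [Set.mem_ofPred_eq] at hyS
  push Not at hyS
  obtain ⟨k, hk⟩ := hyS
  have hu : F^[k] e ∈ Icc (A k) (B k) := he k
  have huP : F^[k] e ∉ P := hav e he k
  have hAk : A k < F^[k] e := lt_of_le_of_ne hu.1 (fun h => huP (h ▸ hAP k))
  have hBk : F^[k] e < B k := lt_of_le_of_ne hu.2 (fun h => huP (h ▸ hBP k))
  have hpre : IsPreconnected (F^[k] '' (uIcc e y)) :=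
    (isPreconnected_uIcc).image _ (hF.iterate k).continuousOn
  have hsub : uIcc (F^[k] e) (F^[k] y) ⊆ F^[k] '' (uIcc e y) :=
    hpre.ordConnected.uIcc_subset ⟨e, left_mem_uIcc, rfl⟩ ⟨y, right_mem_uIcc, rfl⟩
  -- a point of `P` strictly between
  obtain ⟨p, hpP, δ, hδ, hδs⟩ : ∃ p ∈ P, ∃ δ > 0, ∀ t, |t - p| < δ →
      t ∈ uIcc (F^[k] e) (F^[k] y) := by
    rw [mem_Icc, not_and_or] at hk
    rcases hk with hk | hk
    · push Not at hk
      refine ⟨A k, hAP k, min (F^[k] e - A k) (A k - F^[k] y),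
        lt_min (by linarith) (by linarith), fun t ht => ?_⟩
      have t1 := lt_of_lt_of_le ht (min_le_left _ _)
      have t2 := lt_of_lt_of_le ht (min_le_right _ _)
      rw [abs_lt] at t1 t2
      rw [mem_uIcc]
      right
      constructor <;> linarith [t1.2, t2.1]
    · push Not at hk
      refine ⟨B k, hBP k, min (B k - F^[k] e) (F^[k] y - B k),
        lt_min (by linarith) (by linarith), fun t ht => ?_⟩
      have t1 := lt_of_lt_of_le ht (min_le_left _ _)
      have t2 := lt_of_lt_of_le ht (min_le_right _ _)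
      rw [abs_lt] at t1 t2
      rw [mem_uIcc]
      left
      constructor <;> linarith [t1.1, t2.2]
  obtain ⟨t, -, htp, j, hj⟩ := hacc p hpP δ hδ
  obtain ⟨y', hy', hy't⟩ := hsub (hδs t htp)
  refine ⟨y', ordConnected_Icc.uIcc_subset heI hyI hy', ?_, j + k, ?_⟩
  · have := abs_sub_left_of_mem_uIcc hy'
    linarith
  · rw [iterate_add_apply, hy't, hj]

/-- a periodic boundary point with the given itinerary -/
theorem exists_good {F : ℝ → ℝ} (hF : Continuous F) {A B : ℕ → ℝ} {P : Set ℝ} {x : ℝ}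
    (hAB : ∀ k, A k ≤ B k)
    (hcov : ∀ k, Icc (A (k + 1)) (B (k + 1)) ⊆ F '' Icc (A k) (B k)) {n : ℕ} (hn : 1 ≤ n)
    (hA : ∀ k, A (k + n) = A k) (hB : ∀ k, B (k + n) = B k)
    (hAP : ∀ k, A k ∈ P) (hBP : ∀ k, B k ∈ P) (hPI : P ⊆ Icc (0:ℝ) 1)
    (hacc : ∀ p ∈ P, Acc F x p) (hav : ∀ y ∈ Itin F A B, ∀ k, F^[k] y ∉ P) :
    ∃ e ∈ Itin F A B, F^[2 * n] e = e ∧ Acc F x e := by
  obtain ⟨z, hzn, hzS⟩ := exists_periodic hF hAB hcov hn hA hB
  set S := Itin F A B with hS
  have hSc : IsClosed S := isClosed_Itin hF A B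
  have hzS' : z ∈ S := hzS
  set J := connectedComponentIn S z with hJ
  have hJS : J ⊆ S := connectedComponentIn_subset S z
  have hzJ : z ∈ J := mem_connectedComponentIn hzS'
  have hJpre : IsPreconnected J := isPreconnected_connectedComponentIn
  have hJc : IsClosed J := by
    rw [← closure_subset_iff_isClosed]
    apply hJpre.closure.subset_connectedComponentIn (subset_closure hzJ)
    exact closure_minimal hJS hSc
  have hJb : J ⊆ Icc (A 0) (B 0) := fun y hy => hJS hy 0
  have hJK : IsCompact J := isCompact_Icc.of_isClosed_subset hJc hJb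
  obtain ⟨a, b, hab⟩ : ∃ a b, J = Icc a b :=
    ⟨_, _, eq_Icc_of_connected_compact ⟨⟨z, hzJ⟩, hJpre⟩ hJK⟩
  have hzab : z ∈ Icc a b := hab ▸ hzJ
  have hle : a ≤ b := hzab.1.trans hzab.2
  have habS : Icc a b ⊆ S := hab ▸ hJS
  -- maximality
  have hmax : ∀ T : Set ℝ, IsPreconnected T → z ∈ T → T ⊆ S → T ⊆ Icc a b := by
    intro T h1 h2 h3
    rw [← hab]
    exact h1.subset_connectedComponentIn h2 h3
  -- `F^n` maps `[a, b]` into itself
  have hshift : ∀ y ∈ S, F^[n] y ∈ S := by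
    intro y hy k
    rw [← iterate_add_apply, ← hA k, ← hB k]
    exact hy (k + n)
  have hmaps : ∀ y ∈ Icc a b, F^[n] y ∈ Icc a b := by
    intro y hy
    have h := hmax (F^[n] '' Icc a b) (isPreconnected_Icc.image _ (hF.iterate n).continuousOn)
      ⟨z, hzab, hzn⟩ (by rintro _ ⟨t, ht, rfl⟩; exact hshift t (habS ht))
    exact h (mem_image_of_mem _ hy)
  -- the endpoints are boundary points of `S`
  have hbada : S ∉ 𝓝 a := by
    intro h
    obtain ⟨δ, hδ, hball⟩ := Metric.mem_nhds_iff.1 h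
    have h1 := hmax (Ioc (a - δ) a ∪ Icc a b) (by
      apply IsPreconnected.union a (right_mem_Ioc.2 (by linarith)) (left_mem_Icc.2 hle)
        isPreconnected_Ioc isPreconnected_Icc) (Or.inr hzab) (by
      rintro t (ht | ht)
      · apply hball
        rw [Metric.mem_ball, Real.dist_eq, abs_lt]
        constructor <;> linarith [ht.1, ht.2]
      · exact habS ht)
    have h2 : a - δ / 2 ∈ Icc a b := h1 (Or.inl ⟨by linarith, by linarith⟩)
    linarith [h2.1]
  have hbadb : S ∉ 𝓝 b := by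
    intro h
    obtain ⟨δ, hδ, hball⟩ := Metric.mem_nhds_iff.1 h
    have h1 := hmax (Ico b (b + δ) ∪ Icc a b) (by
      apply IsPreconnected.union b (left_mem_Ico.2 (by linarith)) (right_mem_Icc.2 hle)
        isPreconnected_Ico isPreconnected_Icc) (Or.inr hzab) (by
      rintro t (ht | ht)
      · apply hball
        rw [Metric.mem_ball, Real.dist_eq, abs_lt]
        constructor <;> linarith [ht.1, ht.2]
      · exact habS ht)
    have h2 : b + δ / 2 ∈ Icc a b := h1 (Or.inl ⟨by linarith, by linarith⟩)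
    linarith [h2.2]
  -- boundary points are mapped to endpoints
  have hend : ∀ e ∈ Icc a b, S ∉ 𝓝 e → F^[n] e = a ∨ F^[n] e = b := by
    intro e he hb
    by_contra hcon
    push Not at hcon
    have h1 := hmaps e he
    have h2 : F^[n] e ∈ Ioo a b :=
      ⟨lt_of_le_of_ne h1.1 (Ne.symm hcon.1), lt_of_le_of_ne h1.2 hcon.2⟩
    apply hb
    have e1 : ∀ᶠ y in 𝓝 e, F^[n] y ∈ Ioo a b :=
      (hF.iterate n).continuousAt.eventually (isOpen_Ioo.mem_nhds h2)
    have e2 : ∀ᶠ y in 𝓝 e, ∀ k ∈ Finset.range n, F^[k] y ∈ Ioo (A k) (B k) := by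
      rw [Filter.eventually_all_finset]
      intro k _
      apply (hF.iterate k).continuousAt.eventually (isOpen_Ioo.mem_nhds _)
      have h3 : F^[k] e ∈ Icc (A k) (B k) := habS he k
      have h4 : F^[k] e ∉ P := hav e (habS he) k
      exact ⟨lt_of_le_of_ne h3.1 (fun h => h4 (h ▸ hAP k)),
        lt_of_le_of_ne h3.2 (fun h => h4 (h ▸ hBP k))⟩
    filter_upwards [e1, e2] with y hy1 hy2
    intro k
    rcases Nat.lt_or_ge k n with hk | hk
    · exact Ioo_subset_Icc_self (hy2 k (Finset.mem_range.2 hk))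
    · obtain ⟨d, rfl⟩ := Nat.exists_eq_add_of_le' hk
      rw [iterate_add_apply, hA d, hB d]
      exact habS (Ioo_subset_Icc_self hy1) d
  have haS : a ∈ S := habS (left_mem_Icc.2 hle)
  have hbS : b ∈ S := habS (right_mem_Icc.2 hle)
  have h2n : ∀ t, F^[2 * n] t = F^[n] (F^[n] t) := by
    intro t
    rw [two_mul, iterate_add_apply]
  rcases hend a (left_mem_Icc.2 hle) hbada with h1 | h1
  · exact ⟨a, haS, by rw [h2n, h1, h1], acc_of_bad hF hAP hBP hPI hacc hav haS hbada⟩
  · rcases hend b (right_mem_Icc.2 hle) hbadb with h2 | h2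
    · exact ⟨a, haS, by rw [h2n, h1, h2], acc_of_bad hF hAP hBP hPI hacc hav haS hbada⟩
    · exact ⟨b, hbS, by rw [h2n, h2, h2], acc_of_bad hF hAP hBP hPI hacc hav hbS hbadb⟩

end Pool.Agent.R195.SA
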