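import Mathlib
import Pool.Agent.R195.SAlpha3

/-! # Special alpha-limit sets of interval maps: period three -/

set_option autoImplicit false

namespace Pool.Agent.R195.SA

open Set Filter Topology Function

/-- The special alpha-limit set `sα(x)` of a map of `[0,1]`: the points `y` to which some
subsequence of some backward orbit branch `b` of `x` converges. -/
def specialAlpha (f : unitInterval → unitInterval) (x : unitInterval) : Set unitInterval :=
  {y | ∃ b : ℕ → unitInterval, b 0 = x ∧ (∀ k, f (b (k + 1)) = b k) ∧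
    ∃ φ : ℕ → ℕ, StrictMono φ ∧ Tendsto (fun j => b (φ j)) atTop (𝓝 y)}

/-- The set `S` contains a periodic orbit of (least) period `n` of `f`. -/
def ContainsPeriodicOrbit (f : unitInterval → unitInterval) (S : Set unitInterval) (n : ℕ) :
    Prop :=
  ∃ p, f^[n] p = p ∧ (∀ m, 1 ≤ m → m < n → f^[m] p ≠ p) ∧ ∀ k, f^[k] p ∈ S

/-! ### Real version: a cycle `p → q → r → p` with `q` between `p` and `r` -/

theorem real_version {F : ℝ → ℝ} (hF : Continuous F) {x p q r : ℝ} (hp : F p = q) (hq : F q = r)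
    (hr : F r = p) (hbet : (p < q ∧ q < r) ∨ (r < q ∧ q < p)) (hpI : p ∈ Icc (0:ℝ) 1)
    (hqI : q ∈ Icc (0:ℝ) 1) (hrI : r ∈ Icc (0:ℝ) 1) (hpa : Acc F x p) (hqa : Acc F x q)
    (hra : Acc F x r) {n : ℕ} (hn : 1 ≤ n) (hn3 : n ≠ 3) :
    ∃ e ∈ Icc (0:ℝ) 1, F^[2 * n] e = e ∧ (∀ j, 1 ≤ j → F^[j] e = e → n ∣ j) ∧ Acc F x e := by
  classical
  set c : ℕ → Prop := fun k => 2 ≤ n ∧ n ∣ k with hc
  set A : ℕ → ℝ := fun k => if c k then min p q else min q r with hAdef
  set B : ℕ → ℝ := fun k => if c k then max p q else max q r with hBdef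
  set P : Set ℝ := {p, q, r} with hP
  have hcn : ∀ k, c (k + n) ↔ c k := by
    intro k
    simp only [hc]
    rw [Nat.dvd_add_self_right]
  have hAB : ∀ k, A k ≤ B k := by
    intro k
    simp only [hAdef, hBdef]
    split_ifs
    · exact min_le_max
    · exact min_le_max
  have hA : ∀ k, A (k + n) = A k := by
    intro k
    simp only [hAdef, hcn]
  have hB : ∀ k, B (k + n) = B k := by
    intro k
    simp only [hBdef, hcn]
  have hAP : ∀ k, A k ∈ P := by
    intro k
    simp only [hAdef, hP]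
    split_ifs
    · rcases min_choice p q with h | h <;> rw [h] <;> simp
    · rcases min_choice q r with h | h <;> rw [h] <;> simp
  have hBP : ∀ k, B k ∈ P := by
    intro k
    simp only [hBdef, hP]
    split_ifs
    · rcases max_choice p q with h | h <;> rw [h] <;> simp
    · rcases max_choice q r with h | h <;> rw [h] <;> simp
  have hPI : P ⊆ Icc (0:ℝ) 1 := by
    rintro t (h | h | h)
    · rw [h]; exact hpI
    · rw [h]; exact hqI
    · rw [mem_singleton_iff.1 h]; exact hrI
  have hacc : ∀ t ∈ P, Acc F x t := by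
    rintro t (h | h | h)
    · rw [h]; exact hpa
    · rw [h]; exact hqa
    · rw [mem_singleton_iff.1 h]; exact hra
  have hIcc1 : ∀ k, c k → Icc (A k) (B k) = uIcc p q := by
    intro k hk
    simp only [hAdef, hBdef, if_pos hk]
    rfl
  have hIcc2 : ∀ k, ¬ c k → Icc (A k) (B k) = uIcc q r := by
    intro k hk
    simp only [hAdef, hBdef, if_neg hk]
    rfl
  have hbig1 : uIcc p q ⊆ uIcc r p := by
    rcases hbet with ⟨h1, h2⟩ | ⟨h1, h2⟩
    · rw [uIcc_of_le h1.le, uIcc_comm r p, uIcc_of_le (h1.trans h2).le]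
      exact Icc_subset_Icc_right h2.le
    · rw [uIcc_comm p q, uIcc_of_le h2.le, uIcc_of_le (h1.trans h2).le]
      exact Icc_subset_Icc_left h1.le
  have hbig2 : uIcc q r ⊆ uIcc r p := by
    rcases hbet with ⟨h1, h2⟩ | ⟨h1, h2⟩
    · rw [uIcc_of_le h2.le, uIcc_comm r p, uIcc_of_le (h1.trans h2).le]
      exact Icc_subset_Icc_left h1.le
    · rw [uIcc_comm q r, uIcc_of_le h1.le, uIcc_of_le (h1.trans h2).le]
      exact Icc_subset_Icc_right h2.le
  have hcov : ∀ k, Icc (A (k + 1)) (B (k + 1)) ⊆ F '' Icc (A k) (B k) := by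
    intro k
    by_cases hk : c k
    · have hk1 : ¬ c (k + 1) := by
        rintro ⟨h1, h2⟩
        have h3 : n ∣ 1 := (Nat.dvd_add_right hk.2).1 h2
        have := Nat.le_of_dvd one_pos h3
        omega
      rw [hIcc1 k hk, hIcc2 (k + 1) hk1]
      have := intermediate_value_uIcc (hF.continuousOn (s := uIcc p q))
      rwa [hp, hq] at this
    · rw [hIcc2 k hk]
      have := intermediate_value_uIcc (hF.continuousOn (s := uIcc q r))
      rw [hq, hr] at this
      by_cases hk1 : c (k + 1)
      · rw [hIcc1 _ hk1]; exact hbig1.trans this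
      · rw [hIcc2 _ hk1]; exact hbig2.trans this
  -- the points `p` and `r` force the interval
  have hp' : p ∉ uIcc q r := by
    rw [mem_uIcc]
    rcases hbet with ⟨h1, h2⟩ | ⟨h1, h2⟩
    · rintro (h | h) <;> linarith [h.1, h.2]
    · rintro (h | h) <;> linarith [h.1, h.2]
  have hinter : ∀ t, t ∈ uIcc p q → t ∈ uIcc q r → t = q := by
    intro t h1 h2
    rw [mem_uIcc] at h1 h2
    rcases hbet with ⟨g1, g2⟩ | ⟨g1, g2⟩
    · rcases h1 with h1 | h1 <;> rcases h2 with h2 | h2 <;> linarith [h1.1, h1.2, h2.1, h2.2]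
    · rcases h1 with h1 | h1 <;> rcases h2 with h2 | h2 <;> linarith [h1.1, h1.2, h2.1, h2.2]
  have hFP : ∀ t ∈ P, ∀ k, F^[k] t ∈ P := by
    intro t ht k
    induction k with
    | zero => exact ht
    | succ k ih =>
      rw [iterate_succ_apply']
      rcases ih with h | h | h
      · rw [h, hp]; simp [hP]
      · rw [h, hq]; simp [hP]
      · rw [mem_singleton_iff.1 h, hr]; simp [hP]
  have h3p : F (F (F p)) = p := by rw [hp, hq, hr]
  have hnofollow : ∀ t ∈ P, t ∉ Itin F A B := by
    intro t ht hS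
    -- some iterate is `p`
    obtain ⟨j, hj⟩ : ∃ j, F^[j] t = p := by
      rcases ht with h | h | h
      · exact ⟨0, h⟩
      · refine ⟨2, ?_⟩
        rw [h]
        show F (F q) = p
        rw [hq, hr]
      · refine ⟨1, ?_⟩
        rw [mem_singleton_iff.1 h]
        exact hr
    have hj3 : F^[j + 3] t = p := by
      rw [show j + 3 = 3 + j by ring, iterate_add_apply, hj]
      exact h3p
    have hcj : ∀ i, F^[i] t = p → c i := by
      intro i hi
      by_contra hci
      have := hS i
      rw [hi, hIcc2 i hci] at this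
      exact hp' this
    have c1 := hcj j hj
    have c2 := hcj (j + 3) hj3
    have h3 : n ∣ 3 := (Nat.dvd_add_right c1.2).1 c2.2
    have := Nat.le_of_dvd (by norm_num) h3
    have h2 := c1.1
    have hn2 : n = 2 := by omega
    rw [hn2] at h3
    omega
  have hshift : ∀ y ∈ Itin F A B, ∀ m, F^[n * m] y ∈ Itin F A B := by
    intro y hy m
    induction m with
    | zero => simpa using hy
    | succ m ih =>
      intro k
      rw [show n * (m + 1) = n + n * m by ring, iterate_add_apply, ← iterate_add_apply,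
        ← hA k, ← hB k]
      exact ih (k + n)
  have hav : ∀ y ∈ Itin F A B, ∀ k, F^[k] y ∉ P := by
    intro y hy k hk
    have h1 : F^[n * k] y ∈ P := by
      have h2 : n * k = (n * k - k) + k := by
        have : k ≤ n * k := Nat.le_mul_of_pos_left k (by omega)
        omega
      rw [h2, iterate_add_apply]
      exact hFP _ hk _
    exact hnofollow _ h1 (hshift y hy k)
  obtain ⟨e, heS, hen, hea⟩ := exists_good hF hAB hcov hn hA hB hAP hBP hPI hacc hav
  refine ⟨e, ?_, hen, ?_, hea⟩
  · have h1 : e ∈ Icc (A 0) (B 0) := heS 0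
    exact ⟨(hPI (hAP 0)).1.trans h1.1, h1.2.trans (hPI (hBP 0)).2⟩
  · intro j hj hje
    by_contra hcon
    have hn2 : 2 ≤ n := by
      by_contra h
      have : n = 1 := by omega
      rw [this] at hcon
      exact hcon (one_dvd _)
    have c0 : c 0 := ⟨hn2, dvd_zero _⟩
    have cj : ¬ c j := fun h => hcon h.2
    have h0 : e ∈ Icc (A 0) (B 0) := heS 0
    have h1 := heS j
    rw [hje, hIcc2 j cj] at h1
    rw [hIcc1 0 c0] at h0
    have h2 : e = q := hinter e h0 h1
    apply hav e heS 0
    show e ∈ P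
    rw [h2]
    simp [hP]

/-! ### The theorem -/

/-- the extension to the real line -/
noncomputable def ext (f : unitInterval → unitInterval) : ℝ → ℝ :=
  Set.IccExtend (zero_le_one' ℝ) (fun t => (f t : ℝ))

lemma ext_coe (f : unitInterval → unitInterval) (t : unitInterval) : ext f t = f t := by
  unfold ext
  exact Set.IccExtend_val (zero_le_one' ℝ) (fun t => (f t : ℝ)) t

lemma ext_cont {f : unitInterval → unitInterval} (hf : Continuous f) : Continuous (ext f) := by
  unfold ext
  exact (continuous_subtype_val.comp hf).Icc_extend'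

lemma ext_mem (f : unitInterval → unitInterval) (t : ℝ) : ext f t ∈ Icc (0:ℝ) 1 := by
  unfold ext Set.IccExtend
  exact (f _).2

lemma ext_iter (f : unitInterval → unitInterval) (t : unitInterval) (k : ℕ) :
    (ext f)^[k] t = ((f^[k] t : unitInterval) : ℝ) := by
  induction k with
  | zero => rfl
  | succ k ih => rw [iterate_succ_apply', iterate_succ_apply', ih, ext_coe]

lemma acc_of_mem {f : unitInterval → unitInterval} {x y : unitInterval}
    (h : y ∈ specialAlpha f x) : Acc (ext f) x y := by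
  obtain ⟨b, hb0, hb, φ, -, hφ⟩ := h
  intro ε hε
  obtain ⟨N, hN⟩ := Metric.tendsto_atTop.1 hφ ε hε
  refine ⟨b (φ N), (b (φ N)).2, ?_, φ N, ?_⟩
  · have := hN N le_rfl
    rwa [Subtype.dist_eq, Real.dist_eq] at this
  · rw [ext_iter]
    have : ∀ k, f^[k] (b k) = x := by
      intro k
      induction k with
      | zero => exact hb0
      | succ k ih => rw [iterate_succ_apply, hb, ih]
    rw [this]

lemma mem_of_acc {f : unitInterval → unitInterval} (hf : Continuous f) {x e : unitInterval}
    {m : ℕ} (hm : 1 ≤ m) (he : f^[m] e = e) (h : Acc (ext f) x e) : e ∈ specialAlpha f x := by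
  obtain ⟨b, hb0, hbI, hb, φ, hφ, hlim⟩ := exists_branch (ext_cont hf)
    (fun t _ => ext_mem f t) hm (e := (e:ℝ)) (by rw [ext_iter, he]) e.2 h
  refine ⟨fun k => ⟨b k, hbI k⟩, Subtype.ext hb0, fun k => ?_, φ, hφ, ?_⟩
  · apply Subtype.ext
    rw [← ext_coe]
    exact hb k
  · rw [tendsto_subtype_rng]
    exact hlim

lemma forward {f : unitInterval → unitInterval} (hf : Continuous f) {x y : unitInterval}
    (h : y ∈ specialAlpha f x) : f y ∈ specialAlpha f x := by
  obtain ⟨b, hb0, hb, φ, hφ, hlim⟩ := h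
  have hpos : ∀ j, 1 ≤ φ (j + 1) := fun j => by
    have h : φ j < φ (j + 1) := hφ (Nat.lt_succ_self j)
    omega
  refine ⟨b, hb0, hb, fun j => φ (j + 1) - 1, ?_, ?_⟩
  · intro i j hij
    have h1 := hφ (show i + 1 < j + 1 by omega)
    have h2 := hpos i
    show φ (i + 1) - 1 < φ (j + 1) - 1
    omega
  · have h1 : Tendsto (fun j => f (b (φ (j + 1)))) atTop (𝓝 (f y)) :=
      (hf.tendsto y).comp (hlim.comp (tendsto_add_atTop_nat 1))
    refine h1.congr fun j => ?_
    have h2 := hb (φ (j + 1) - 1)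
    rw [Nat.sub_add_cancel (hpos j)] at h2
    exact h2

lemma forward_iter {f : unitInterval → unitInterval} (hf : Continuous f) {x y : unitInterval}
    (h : y ∈ specialAlpha f x) (k : ℕ) : f^[k] y ∈ specialAlpha f x := by
  induction k with
  | zero => exact h
  | succ k ih => rw [iterate_succ_apply']; exact forward hf ih

/-- the middle point of the cycle -/
lemma exists_middle {f : unitInterval → unitInterval} {x p : unitInterval} (hp : f^[3] p = p)
    (hp1 : f^[1] p ≠ p) (hp2 : f^[2] p ≠ p) (hS : ∀ k, f^[k] p ∈ specialAlpha f x) :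
    ∃ a b c : unitInterval, f a = b ∧ f b = c ∧ f c = a ∧
      (((a:ℝ) < b ∧ (b:ℝ) < c) ∨ ((c:ℝ) < b ∧ (b:ℝ) < a)) ∧ a ∈ specialAlpha f x ∧
      b ∈ specialAlpha f x ∧ c ∈ specialAlpha f x := by
  have h0 : p ∈ specialAlpha f x := hS 0
  have h1 : f p ∈ specialAlpha f x := hS 1
  have h2 : f (f p) ∈ specialAlpha f x := hS 2
  have h3 : f (f (f p)) = p := hp
  have n1 : f p ≠ p := hp1
  have n2 : f (f p) ≠ p := hp2
  have n3 : f (f p) ≠ f p := by
    intro h
    apply n2
    have : f (f (f p)) = f (f p) := congrArg f h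
    rw [← this, h3]
  have m1 : (f p : ℝ) ≠ p := fun h => n1 (Subtype.ext h)
  have m2 : (f (f p) : ℝ) ≠ p := fun h => n2 (Subtype.ext h)
  have m3 : (f (f p) : ℝ) ≠ f p := fun h => n3 (Subtype.ext h)
  rcases lt_or_gt_of_ne m1 with g1 | g1 <;> rcases lt_or_gt_of_ne m2 with g2 | g2 <;>
    rcases lt_or_gt_of_ne m3 with g3 | g3
  -- the middle one of the three
  · exact ⟨p, f p, f (f p), rfl, rfl, h3, Or.inr ⟨g3, g1⟩, h0, h1, h2⟩
  · exact ⟨f p, f (f p), p, rfl, h3, rfl, Or.inl ⟨g3, g2⟩, h1, h2, h0⟩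
  · linarith
  · exact ⟨f (f p), p, f p, h3, rfl, rfl, Or.inr ⟨g1, g2⟩, h2, h0, h1⟩
  · exact ⟨f (f p), p, f p, h3, rfl, rfl, Or.inl ⟨g2, g1⟩, h2, h0, h1⟩
  · linarith
  · exact ⟨f p, f (f p), p, rfl, h3, rfl, Or.inr ⟨g2, g3⟩, h1, h2, h0⟩
  · exact ⟨p, f p, f (f p), rfl, rfl, h3, Or.inl ⟨g1, g3⟩, h0, h1, h2⟩

theorem main {f : unitInterval → unitInterval} (hf : Continuous f) (x : unitInterval)
    (h3 : ContainsPeriodicOrbit f (specialAlpha f x) 3) {n : ℕ} (hn : 1 ≤ n) :
    ContainsPeriodicOrbit f (specialAlpha f x) n ∨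
      ContainsPeriodicOrbit f (specialAlpha f x) (2 * n) := by
  by_cases hn3 : n = 3
  · left; rw [hn3]; exact h3
  obtain ⟨p, hp, hpm, hS⟩ := h3
  obtain ⟨a, b, c, hab, hbc, hca, hbet, ha, hb, hc⟩ := exists_middle hp
    (hpm 1 le_rfl (by norm_num)) (hpm 2 (by norm_num) (by norm_num)) hS
  obtain ⟨e, heI, hen, hmin, hacc⟩ := real_version (ext_cont hf) (x := x) (p := a) (q := b)
    (r := c) (by rw [ext_coe, hab]) (by rw [ext_coe, hbc]) (by rw [ext_coe, hca]) hbet a.2 b.2 c.2
    (acc_of_mem ha) (acc_of_mem hb) (acc_of_mem hc) hn hn3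
  set e' : unitInterval := ⟨e, heI⟩ with he'
  have hen' : f^[2 * n] e' = e' := by
    apply Subtype.ext
    rw [← ext_iter]
    exact hen
  have hmin' : ∀ j, 1 ≤ j → f^[j] e' = e' → n ∣ j := by
    intro j hj h
    apply hmin j hj
    have := ext_iter f e' j
    rw [h] at this
    exact this
  have hmem : e' ∈ specialAlpha f x := mem_of_acc hf (m := 2 * n) (by omega) hen' hacc
  by_cases hcase : f^[n] e' = e'
  · left
    refine ⟨e', hcase, fun m hm1 hm2 h => ?_, forward_iter hf hmem⟩
    have := Nat.le_of_dvd (by omega) (hmin' m hm1 h)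
    omega
  · right
    refine ⟨e', hen', fun m hm1 hm2 h => ?_, forward_iter hf hmem⟩
    obtain ⟨d, hd⟩ := hmin' m hm1 h
    have hd1 : d = 1 := by
      have h1 : d ≠ 0 := by
        rintro rfl
        omega
      have h2 : d < 2 := by
        by_contra h'
        have : n * 2 ≤ n * d := Nat.mul_le_mul_left _ (by omega)
        omega
      omega
    rw [hd, hd1, mul_one] at h
    exact hcase h

end Pool.Agent.R195.SA
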