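import Mathlib

/-! # Two interleaved Liouville numbers and inhomogeneous approximation (for MP_653f52) -/

set_option autoImplicit false

namespace Pool.Agent.R195.SG

open Filter Topology

/-- the denominators -/
def Q (K : ℕ → ℕ) : ℕ → ℕ
  | 0 => 1
  | n + 1 => 16 * (Q K n) ^ 2 * (K (Q K n) + 1)

/-- `4 * Q n * c n = Q (n+2)` -/
def c (K : ℕ → ℕ) (n : ℕ) : ℕ :=
  4 * Q K (n + 1) * (16 * Q K n * (K (Q K n) + 1)) * (K (Q K (n + 1)) + 1)

/-- partial sums of `c` -/
def s (K : ℕ → ℕ) : ℕ → ℕ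
  | 0 => 0
  | 1 => 0
  | n + 2 => s K (n + 1) + c K n

variable (K : ℕ → ℕ)

lemma Q_pos (n : ℕ) : 0 < Q K n := by
  induction n with
  | zero => simp [Q]
  | succ n ih => simp only [Q]; positivity

lemma Q_succ (n : ℕ) : Q K (n + 1) = 16 * (Q K n) ^ 2 * (K (Q K n) + 1) := rfl

lemma Q_succ_ge (n : ℕ) : 16 * (Q K n) ^ 2 ≤ Q K (n + 1) := by
  rw [Q_succ]
  exact Nat.le_mul_of_pos_right _ (Nat.succ_pos _)

lemma Q_succ_ge' (n : ℕ) : 16 * Q K n ≤ Q K (n + 1) := by
  have h := Q_succ_ge K n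
  have h1 := Q_pos K n
  nlinarith

lemma Q_dvd_succ (n : ℕ) : Q K n ∣ Q K (n + 1) := by
  rw [Q_succ]
  exact Dvd.intro (16 * Q K n * (K (Q K n) + 1)) (by ring)

lemma Q_dvd {l n : ℕ} (h : l ≤ n) : Q K l ∣ Q K n := by
  induction n, h using Nat.le_induction with
  | base => exact dvd_rfl
  | succ n _ ih => exact ih.trans (Q_dvd_succ K n)

lemma c_spec (n : ℕ) : 4 * Q K n * c K n = Q K (n + 2) := by
  rw [Q_succ K (n + 1), c, Q_succ K n]
  ring

lemma Q_dvd_c (n : ℕ) : Q K (n + 1) ∣ c K n := by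
  rw [c]
  exact Dvd.intro (4 * (16 * Q K n * (K (Q K n) + 1)) * (K (Q K (n + 1)) + 1)) (by ring)

lemma s_succ (n : ℕ) : s K (n + 2) = s K (n + 1) + c K n := rfl

lemma s_le (n : ℕ) : s K n ≤ Q K n := by
  have key : ∀ n, s K n ≤ Q K n ∧ s K (n + 1) ≤ Q K (n + 1) := by
    intro n
    induction n with
    | zero => simp [s]
    | succ n ih =>
      refine ⟨ih.2, ?_⟩
      rw [s_succ]
      have h1 := c_spec K n
      have h2 := Q_succ_ge' K (n + 1)
      have h3 := Q_pos K n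
      have h4 : 4 * c K n ≤ 4 * Q K n * c K n := by nlinarith
      have := ih.2
      simp only [Nat.add_assoc] at *
      norm_num at *
      omega
  exact (key n).1

lemma s_le' (n : ℕ) : 2 * Q K n * s K (n + 2) ≤ Q K (n + 2) := by
  rw [s_succ]
  have h1 := c_spec K n
  have h2 := Q_succ_ge K (n + 1)
  have h3 := Q_pos K n
  have h4 := s_le K (n + 1)
  have h5 := Q_succ_ge' K n
  simp only [Nat.add_assoc] at *
  norm_num at *
  nlinarith

lemma s_mono_succ (n : ℕ) : s K n ≤ s K (n + 1) := by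
  cases n with
  | zero => simp [s]
  | succ n => rw [s_succ]; exact Nat.le_add_right _ _

lemma s_mono {l n : ℕ} (h : l ≤ n) : s K l ≤ s K n := by
  induction n, h using Nat.le_induction with
  | base => exact le_rfl
  | succ n _ ih => exact ih.trans (s_mono_succ K n)

lemma s_dvd {l n : ℕ} (h : l ≤ n) : ∃ t : ℕ, s K n = s K l + Q K l * t := by
  induction n, h using Nat.le_induction with
  | base => exact ⟨0, by simp⟩
  | succ n hn ih =>
    obtain ⟨t, ht⟩ := ih
    cases n with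
    | zero =>
      have : l = 0 := by omega
      subst this
      exact ⟨0, by simp [s]⟩
    | succ n =>
      obtain ⟨u, hu⟩ := (Q_dvd K hn).trans (Q_dvd_c K n)
      refine ⟨t + u, ?_⟩
      rw [s_succ, ht, hu]
      ring

/-- halving sequences are summable with small sum -/
lemma halving {g : ℕ → ℝ} (h0 : ∀ j, 0 ≤ g j) (h1 : ∀ j, g (j + 1) ≤ g j / 2) :
    Summable g ∧ ∑' j, g j ≤ 2 * g 0 := by
  have h2 : ∀ j, g j ≤ g 0 * (1 / 2) ^ j := by
    intro j
    induction j with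
    | zero => simp
    | succ j ih =>
      refine (h1 j).trans ?_
      rw [pow_succ]
      linarith
  have hs : Summable (fun j : ℕ => g 0 * (1 / 2 : ℝ) ^ j) :=
    (summable_geometric_of_lt_one (by norm_num) (by norm_num)).mul_left _
  have hg : Summable g := Summable.of_nonneg_of_le h0 h2 hs
  refine ⟨hg, ?_⟩
  have := hg.tsum_le_tsum h2 hs
  rw [tsum_mul_left, tsum_geometric_of_lt_one (by norm_num) (by norm_num)] at this
  norm_num at this
  linarith

attribute [irreducible] Q s c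

lemma Qr_pos (n : ℕ) : (0:ℝ) < Q K n := by exact_mod_cast Q_pos K n

lemma inv_halving (n : ℕ) : (1:ℝ) / Q K (n + 1) ≤ 1 / Q K n / 16 := by
  have h1 := Qr_pos K n
  have h2 : (16:ℝ) * Q K n ≤ Q K (n + 1) := by exact_mod_cast Q_succ_ge' K n
  rw [div_div]
  apply one_div_le_one_div_of_le (by positivity)
  linarith

lemma tail_inv (m : ℕ) : Summable (fun j => (1:ℝ) / Q K (j + m)) ∧
    ∑' j, (1:ℝ) / Q K (j + m) ≤ 2 / Q K m := by
  have h := halving (g := fun j => (1:ℝ) / Q K (j + m)) (fun j => by positivity) (fun j => by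
    have := inv_halving K (j + m)
    have h3 : (0:ℝ) ≤ 1 / Q K (j + m) := by positivity
    rw [show j + 1 + m = j + m + 1 by ring]
    linarith)
  refine ⟨h.1, h.2.trans (le_of_eq ?_)⟩
  simp
  ring

/-- the general term of `q α - β` -/
noncomputable def term (w : ℕ → ℕ) (q : ℝ) (l : ℕ) : ℝ := w l * (q - s K l) / Q K l

lemma s_div (l : ℕ) : (s K (l + 2) : ℝ) / Q K (l + 2) ≤ 1 / (2 * Q K l) := by
  have h1 := Qr_pos K l
  have h2 := Qr_pos K (l + 2)
  rw [div_le_div_iff₀ h2 (by positivity)]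
  have := s_le' K l
  have h3 : (2:ℝ) * Q K l * s K (l + 2) ≤ Q K (l + 2) := by exact_mod_cast this
  linarith

lemma tail_s (m : ℕ) : Summable (fun j => (s K (j + (m + 2)) : ℝ) / Q K (j + (m + 2))) ∧
    ∑' j, (s K (j + (m + 2)) : ℝ) / Q K (j + (m + 2)) ≤ 1 / Q K m := by
  obtain ⟨h1, h2⟩ := tail_inv K m
  have h3 : ∀ j, (s K (j + (m + 2)) : ℝ) / Q K (j + (m + 2)) ≤ 1 / 2 * (1 / Q K (j + m)) := by
    intro j
    have := s_div K (j + m)
    rw [show j + (m + 2) = j + m + 2 by ring]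
    refine this.trans (le_of_eq ?_)
    rw [one_div, one_div, one_div, mul_inv]
  have h4 : Summable (fun j => (s K (j + (m + 2)) : ℝ) / Q K (j + (m + 2))) :=
    Summable.of_nonneg_of_le (fun j => by positivity) h3 (h1.mul_left _)
  refine ⟨h4, ?_⟩
  have h5 := h4.tsum_le_tsum h3 (h1.mul_left _)
  rw [tsum_mul_left] at h5
  have : (2:ℝ) / Q K m = 2 * (1 / Q K m) := by ring
  linarith

lemma w_le {w : ℕ → ℕ} (hw : ∀ l, w l ≤ 1) (l : ℕ) : (w l : ℝ) ≤ 1 := by exact_mod_cast hw l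

lemma summable_a {w : ℕ → ℕ} (hw : ∀ l, w l ≤ 1) : Summable (fun l => (w l : ℝ) / Q K l) := by
  refine Summable.of_nonneg_of_le (fun l => by positivity) (fun l => ?_) (tail_inv K 0).1
  simp only [add_zero]
  exact div_le_div_of_nonneg_right (w_le hw l) (by positivity)

lemma summable_b {w : ℕ → ℕ} (hw : ∀ l, w l ≤ 1) :
    Summable (fun l => (w l : ℝ) * s K l / Q K l) := by
  rw [← summable_nat_add_iff 2]
  refine Summable.of_nonneg_of_le (fun l => by positivity) (fun l => ?_) (tail_s K 0).1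
  simp only [zero_add]
  apply div_le_div_of_nonneg_right _ (by positivity)
  exact mul_le_of_le_one_left (by positivity) (w_le hw _)

/-- the number `α` -/
noncomputable def al (w : ℕ → ℕ) : ℝ := ∑' l, (w l : ℝ) / Q K l

/-- the number `β` -/
noncomputable def be (w : ℕ → ℕ) : ℝ := ∑' l, (w l : ℝ) * s K l / Q K l

lemma term_eq (w : ℕ → ℕ) (q : ℝ) (l : ℕ) :
    term K w q l = q * ((w l : ℝ) / Q K l) - (w l : ℝ) * s K l / Q K l := by
  unfold term; ring

lemma summable_term {w : ℕ → ℕ} (hw : ∀ l, w l ≤ 1) (q : ℝ) : Summable (term K w q) := by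
  have := ((summable_a K hw).mul_left q).sub (summable_b K hw)
  refine this.congr (fun l => ?_)
  rw [term_eq]

lemma tsum_term {w : ℕ → ℕ} (hw : ∀ l, w l ≤ 1) (q : ℝ) :
    ∑' l, term K w q l = q * al K w - be K w := by
  rw [al, be, ← tsum_mul_left, ← ((summable_a K hw).mul_left q).tsum_sub (summable_b K hw)]
  exact tsum_congr (fun l => term_eq K w q l)

/-- simultaneous approximation -/
lemma approx {w : ℕ → ℕ} (hw : ∀ l, w l ≤ 1) (N : ℕ) :
    ∃ m : ℤ, |(s K (N + 1) : ℝ) * al K w - be K w - m| ≤ 1 / Q K N := by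
  rw [← tsum_term K hw, ← (summable_term K hw _).sum_add_tsum_nat_add (N + 2)]
  have hint : ∃ m : ℤ, ∑ l ∈ Finset.range (N + 2), term K w (s K (N + 1)) l = m := by
    have : ∀ l ∈ Finset.range (N + 2), ∃ m : ℤ, term K w (s K (N + 1)) l = m := by
      intro l hl
      rw [Finset.mem_range] at hl
      obtain ⟨t, ht⟩ := s_dvd K (show l ≤ N + 1 by omega)
      refine ⟨w l * t, ?_⟩
      unfold term
      rw [ht]
      have := Qr_pos K l
      push_cast
      field_simp
      ring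
    choose! m hm using this
    refine ⟨∑ l ∈ Finset.range (N + 2), m l, ?_⟩
    push_cast
    exact Finset.sum_congr rfl hm
  obtain ⟨m, hm⟩ := hint
  refine ⟨m, ?_⟩
  rw [hm, add_sub_cancel_left]
  obtain ⟨h1, h2⟩ := tail_s K N
  have hb : ∀ j, |term K w (s K (N + 1)) (j + (N + 2))| ≤
      (s K (j + (N + 2)) : ℝ) / Q K (j + (N + 2)) := by
    intro j
    unfold term
    rw [abs_div, abs_mul, abs_of_pos (Qr_pos K _)]
    apply div_le_div_of_nonneg_right _ (by positivity)
    have h3 : (s K (N + 1) : ℝ) ≤ s K (j + (N + 2)) := by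
      exact_mod_cast s_mono K (by omega)
    have h4 : (0:ℝ) ≤ s K (N + 1) := by positivity
    rw [abs_of_nonneg (Nat.cast_nonneg _), abs_of_nonpos (by linarith)]
    calc (w (j + (N + 2)) : ℝ) * -((s K (N + 1) : ℝ) - s K (j + (N + 2)))
        ≤ 1 * -((s K (N + 1) : ℝ) - s K (j + (N + 2))) :=
          mul_le_mul_of_nonneg_right (w_le hw _) (by linarith)
      _ ≤ s K (j + (N + 2)) := by linarith
  have h5 : Summable (fun j => |term K w (s K (N + 1)) (j + (N + 2))|) :=
    Summable.of_nonneg_of_le (fun j => abs_nonneg _) hb h1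
  calc |∑' j, term K w (s K (N + 1)) (j + (N + 2))|
      ≤ ∑' j, |term K w (s K (N + 1)) (j + (N + 2))| := by
        have := norm_tsum_le_tsum_norm (f := fun j => term K w (s K (N + 1)) (j + (N + 2)))
          (by simpa only [Real.norm_eq_abs] using h5)
        simpa only [Real.norm_eq_abs] using this
    _ ≤ ∑' j, (s K (j + (N + 2)) : ℝ) / Q K (j + (N + 2)) := h5.tsum_le_tsum hb h1
    _ ≤ _ := h2

/-- the points `q α` keep away from `β` for a very long time -/
lemma away {w : ℕ → ℕ} (hw : ∀ l, w l ≤ 1) (n : ℕ) (hw1 : w (n + 1) = 0) (hw2 : w (n + 2) = 1)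
    (q : ℕ) (hq : 16 * Q K n * q ≤ Q K (n + 2)) :
    ∃ m : ℤ, -(3 / 8) ≤ Q K n * (q * al K w - be K w) - m ∧
      Q K n * (q * al K w - be K w) - m ≤ -(1 / 8) := by
  rw [← tsum_term K hw, ← (summable_term K hw _).sum_add_tsum_nat_add (n + 3)]
  have hint : ∃ m : ℤ, Q K n * ∑ l ∈ Finset.range (n + 1), term K w q l = m := by
    have : ∀ l ∈ Finset.range (n + 1), ∃ m : ℤ, Q K n * term K w q l = m := by
      intro l hl
      rw [Finset.mem_range] at hl
      obtain ⟨t, ht⟩ := Q_dvd K (show l ≤ n by omega)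
      refine ⟨w l * ((q:ℤ) - s K l) * t, ?_⟩
      unfold term
      rw [ht]
      have := Qr_pos K l
      push_cast
      field_simp
    choose! m hm using this
    refine ⟨∑ l ∈ Finset.range (n + 1), m l, ?_⟩
    push_cast
    rw [Finset.mul_sum]
    exact Finset.sum_congr rfl hm
  obtain ⟨m, hm⟩ := hint
  refine ⟨m, ?_⟩
  rw [Finset.sum_range_succ, Finset.sum_range_succ]
  have e1 : term K w q (n + 1) = 0 := by unfold term; rw [hw1]; simp
  have e2 : term K w q (n + 2) = (q - s K (n + 2)) / Q K (n + 2) := by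
    unfold term; rw [hw2]; simp
  rw [e1, e2]
  have e3 : (Q K n : ℝ) * (∑ l ∈ Finset.range (n + 1), term K w (↑q) l + 0 +
      (q - s K (n + 2)) / Q K (n + 2) + ∑' j, term K w q (j + (n + 3))) - m
      = Q K n * q / Q K (n + 2) - Q K n * s K (n + 2) / Q K (n + 2)
        + Q K n * ∑' j, term K w q (j + (n + 3)) := by
    rw [← hm]; ring
  rw [e3]
  have hQn := Qr_pos K n
  have hQ1 := Qr_pos K (n + 1)
  have hQ2 := Qr_pos K (n + 2)
  have hq' : (16:ℝ) * Q K n * q ≤ Q K (n + 2) := by exact_mod_cast hq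
  -- the main terms
  have b1 : (Q K n : ℝ) * q / Q K (n + 2) ≤ 1 / 16 := by
    rw [div_le_div_iff₀ hQ2 (by norm_num)]; linarith
  have b1' : (0:ℝ) ≤ (Q K n : ℝ) * q / Q K (n + 2) := by positivity
  have hc : (4:ℝ) * Q K n * c K n = Q K (n + 2) := by exact_mod_cast c_spec K n
  have hs : (s K (n + 2) : ℝ) = s K (n + 1) + c K n := by exact_mod_cast s_succ K n
  have b2 : (Q K n : ℝ) * s K (n + 2) / Q K (n + 2) = 1 / 4 + Q K n * s K (n + 1) / Q K (n + 2) := by
    rw [hs, mul_add, add_div, add_comm]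
    congr 1
    rw [div_eq_iff hQ2.ne']
    linarith
  have b3 : (0:ℝ) ≤ Q K n * s K (n + 1) / Q K (n + 2) := by positivity
  have hr1 : (16:ℝ) * Q K n ≤ Q K (n + 1) := by exact_mod_cast Q_succ_ge' K n
  have hr2 : (16:ℝ) * (Q K (n + 1)) ^ 2 ≤ Q K (n + 2) := by exact_mod_cast Q_succ_ge K (n + 1)
  have hs1 : (s K (n + 1) : ℝ) ≤ Q K (n + 1) := by exact_mod_cast s_le K (n + 1)
  have b4 : (Q K n : ℝ) * s K (n + 1) / Q K (n + 2) ≤ 1 / 256 := by
    rw [div_le_div_iff₀ hQ2 (by norm_num)]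
    have : (Q K n : ℝ) * s K (n + 1) ≤ Q K (n + 1) / 16 * Q K (n + 1) := by
      apply mul_le_mul _ hs1 (by positivity) (by positivity)
      linarith
    nlinarith
  -- the tail
  obtain ⟨t1, t2⟩ := tail_inv K (n + 3)
  obtain ⟨u1, u2⟩ := tail_s K (n + 1)
  have hsumT : Summable (fun j => term K w q (j + (n + 3))) :=
    (summable_nat_add_iff (n + 3)).2 (summable_term K hw q)
  have upper : ∀ j, term K w q (j + (n + 3)) ≤ q * (1 / Q K (j + (n + 3))) := by
    intro j
    unfold term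
    have h3 := Qr_pos K (j + (n + 3))
    have h4 : (w (j + (n + 3)) : ℝ) * (q - s K (j + (n + 3))) ≤ q := by
      have h5 : (0:ℝ) ≤ s K (j + (n + 3)) := by positivity
      have h6 : (0:ℝ) ≤ q := by positivity
      have h7 : (0:ℝ) ≤ w (j + (n + 3)) := by positivity
      nlinarith [w_le hw (j + (n + 3)), mul_nonneg h7 h5]
    calc _ ≤ (q:ℝ) / Q K (j + (n + 3)) := div_le_div_of_nonneg_right h4 h3.le
      _ = _ := by ring
  have lower : ∀ j, -((s K (j + (n + 1 + 2)) : ℝ) / Q K (j + (n + 1 + 2))) ≤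
      term K w q (j + (n + 3)) := by
    intro j
    unfold term
    rw [show n + 1 + 2 = n + 3 by ring]
    have h3 := Qr_pos K (j + (n + 3))
    have h4 : -(s K (j + (n + 3)) : ℝ) ≤ (w (j + (n + 3)) : ℝ) * (q - s K (j + (n + 3))) := by
      have h5 : (0:ℝ) ≤ s K (j + (n + 3)) := by positivity
      have h6 : (0:ℝ) ≤ q := by positivity
      have h7 : (0:ℝ) ≤ w (j + (n + 3)) := by positivity
      nlinarith [w_le hw (j + (n + 3)), mul_nonneg h7 h6]
    rw [← neg_div]
    exact div_le_div_of_nonneg_right h4 h3.le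
  have hU : ∑' j, term K w q (j + (n + 3)) ≤ q * (2 / Q K (n + 3)) := by
    refine (hsumT.tsum_le_tsum upper (t1.mul_left _)).trans ?_
    rw [tsum_mul_left]
    exact mul_le_mul_of_nonneg_left t2 (by positivity)
  have hL : -(1 / Q K (n + 1) : ℝ) ≤ ∑' j, term K w q (j + (n + 3)) := by
    have := (u1.neg).tsum_le_tsum lower hsumT
    rw [tsum_neg] at this
    linarith
  have b5 : (Q K n : ℝ) * (q * (2 / Q K (n + 3))) ≤ 1 / 16 := by
    have h3 : (16:ℝ) * Q K (n + 2) ≤ Q K (n + 3) := by exact_mod_cast Q_succ_ge' K (n + 2)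
    have h4 := Qr_pos K (n + 3)
    have : (Q K n : ℝ) * (q * (2 / Q K (n + 3))) = (2 * Q K n * q) / Q K (n + 3) := by ring
    rw [this, div_le_div_iff₀ h4 (by norm_num)]
    nlinarith
  have b6 : -(1 / 16 : ℝ) ≤ Q K n * -(1 / Q K (n + 1) : ℝ) := by
    have : (Q K n : ℝ) * -(1 / Q K (n + 1) : ℝ) = -(Q K n / Q K (n + 1)) := by ring
    rw [this, neg_le_neg_iff, div_le_div_iff₀ hQ1 (by norm_num)]
    linarith
  have b7 := mul_le_mul_of_nonneg_left hU hQn.le
  have b8 := mul_le_mul_of_nonneg_left hL hQn.le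
  constructor
  · rw [b2]; linarith
  · rw [b2]; linarith

end Pool.Agent.R195.SG
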