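import Mathlib
import Pool.Agent.R195.SGNum

/-! # The dynamics of the pair of `5 × 5` matrices (for MP_653f52) -/

set_option autoImplicit false

namespace Pool.Agent.R195.SG

open Filter Topology Real

lemma two_mul_le_sin {r : ℝ} (h : |r| ≤ 1 / 2) : 2 * |r| ≤ |sin (π * r)| := by
  have hp := Real.pi_pos
  have h1 : |sin (π * r)| = sin (π * |r|) := by
    rcases abs_cases r with ⟨h2, h3⟩ | ⟨h2, h3⟩
    · rw [h2]
      apply abs_of_nonneg
      apply sin_nonneg_of_nonneg_of_le_pi (by positivity)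
      have : r ≤ 1 := by linarith [le_abs_self r]
      nlinarith
    · rw [h2]
      have : π * -r = -(π * r) := by ring
      rw [this, sin_neg]
      apply abs_of_nonpos
      apply sin_nonpos_of_nonpos_of_neg_pi_le
      · nlinarith
      · have : -1 ≤ r := by linarith [neg_abs_le r]
        nlinarith
  rw [h1]
  have := Real.mul_le_sin (x := π * |r|) (by positivity) (by nlinarith)
  refine le_trans (le_of_eq ?_) this
  field_simp

lemma sin_add_int (r : ℝ) (z : ℤ) : |sin (π * (r + z))| = |sin (π * r)| := by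
  have : π * (r + z) = π * r + z * π := by ring
  rw [this, Real.sin_add_int_mul_pi]
  rcases Int.even_or_odd z with h | h
  · rw [h.neg_one_zpow]; simp
  · rw [h.neg_one_zpow]; simp

lemma abs_cos_le {t : ℝ} {Q : ℕ} (hQ : 0 < Q) (m : ℤ) (h1 : -(3 / 8) ≤ Q * t - m)
    (h2 : Q * t - m ≤ -(1 / 8)) : |cos (2 * π * t)| ≤ 1 - 1 / (8 * (Q:ℝ) ^ 2) := by
  have hQr : (1:ℝ) ≤ Q := by exact_mod_cast hQ
  set r := 2 * t - round (2 * t) with hr
  have hr2 : |r| ≤ 1 / 2 := abs_sub_round (2 * t)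
  have hlow : 1 / 4 ≤ Q * |r| := by
    by_contra hcon
    push Not at hcon
    have h3 : |(Q:ℝ) * r| < 1 / 4 := by
      rw [abs_mul, abs_of_nonneg (by positivity : (0:ℝ) ≤ Q)]; exact hcon
    rw [abs_lt] at h3
    have h4 : (Q:ℝ) * r = 2 * (Q * t - m) + ((2 * m - Q * round (2 * t) : ℤ) : ℝ) := by
      rw [hr]; push_cast; ring
    set z : ℤ := 2 * m - Q * round (2 * t)
    have h5 : (0:ℝ) < z := by linarith [h3.1]
    have h6 : (z:ℝ) < 1 := by linarith [h3.2]
    have h7 : 0 < z := by exact_mod_cast h5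
    have h8 : z < 1 := by exact_mod_cast h6
    omega
  have h9 : 2 * |r| ≤ |sin (2 * π * t)| := by
    have e : 2 * π * t = π * (r + round (2 * t)) := by rw [hr]; ring
    rw [e, sin_add_int]
    exact two_mul_le_sin hr2
  have h10 : cos (2 * π * t) ^ 2 = 1 - |sin (2 * π * t)| ^ 2 := by
    rw [sq_abs]; have := Real.sin_sq_add_cos_sq (2 * π * t); linarith
  have h11 : 1 / (4 * (Q:ℝ) ^ 2) ≤ |sin (2 * π * t)| ^ 2 := by
    have h12 : 1 / (2 * (Q:ℝ)) ≤ |sin (2 * π * t)| := by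
      refine le_trans ?_ h9
      rw [div_le_iff₀ (by positivity)]
      nlinarith
    have h13 : (1 / (2 * (Q:ℝ))) ^ 2 = 1 / (4 * (Q:ℝ) ^ 2) := by
      rw [div_pow, mul_pow]; norm_num
    rw [← h13]
    exact pow_le_pow_left₀ (by positivity) h12 2
  have h14 : (0:ℝ) ≤ 1 - 1 / (8 * (Q:ℝ) ^ 2) := by
    rw [sub_nonneg, div_le_one (by positivity)]
    nlinarith
  apply abs_le_of_sq_le_sq _ h14
  rw [h10]
  have h15 : 1 / (4 * (Q:ℝ) ^ 2) = 2 * (1 / (8 * (Q:ℝ) ^ 2)) := by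
    field_simp; norm_num
  nlinarith [sq_nonneg (1 / (8 * (Q:ℝ) ^ 2))]

/-- rotation of the two planes by the angles `a`, `b` -/
noncomputable def rotM (a b : ℝ) : Matrix (Fin 5) (Fin 5) ℝ :=
  !![1, 0, 0, 0, 0;
     0, cos a, -sin a, 0, 0;
     0, sin a, cos a, 0, 0;
     0, 0, 0, cos b, -sin b;
     0, 0, 0, sin b, cos b]

/-- the reset matrix -/
noncomputable def resM (a b : ℝ) : Matrix (Fin 5) (Fin 5) ℝ :=
  !![1, cos a / 2, sin a / 2, cos b / 2, sin b / 2;
     0, cos a / 2, sin a / 2, cos b / 2, sin b / 2;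
     0, 0, 0, 0, 0;
     0, cos a / 2, sin a / 2, cos b / 2, sin b / 2;
     0, 0, 0, 0, 0]

open Matrix

lemma rotM_mulVec (a b y u v w z : ℝ) : rotM a b *ᵥ ![y, u, v, w, z] =
    ![y, cos a * u - sin a * v, sin a * u + cos a * v, cos b * w - sin b * z,
      sin b * w + cos b * z] := by
  ext i
  fin_cases i <;> simp [rotM, Matrix.mulVec, dotProduct, Fin.sum_univ_succ] <;> ring

lemma resM_mulVec (a b y u v w z : ℝ) : resM a b *ᵥ ![y, u, v, w, z] =
    ![y + (cos a * u + sin a * v + (cos b * w + sin b * z)) / 2,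
      (cos a * u + sin a * v + (cos b * w + sin b * z)) / 2, 0,
      (cos a * u + sin a * v + (cos b * w + sin b * z)) / 2, 0] := by
  ext i
  fin_cases i <;> simp [resM, Matrix.mulVec, dotProduct, Fin.sum_univ_succ] <;> ring

/-- the states after a reset and `q` rotations -/
noncomputable def P (a b : ℝ) (r : ℝ) (q : ℕ) (y : ℝ) : Fin 5 → ℝ :=
  ![y, r * cos (q * a), r * sin (q * a), r * cos (q * b), r * sin (q * b)]

/-- the factor of a return after `q` rotations -/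
noncomputable def ff (a b c d : ℝ) (q : ℕ) : ℝ := (cos (q * a - c) + cos (q * b - d)) / 2

lemma rot_P (a b r y : ℝ) (q : ℕ) : rotM a b *ᵥ P a b r q y = P a b r (q + 1) y := by
  unfold P
  rw [rotM_mulVec]
  have e1 : ((q + 1 : ℕ) : ℝ) * a = q * a + a := by push_cast; ring
  have e2 : ((q + 1 : ℕ) : ℝ) * b = q * b + b := by push_cast; ring
  rw [e1, e2, cos_add, sin_add, cos_add, sin_add]
  congr 1
  ext i
  fin_cases i <;> simp <;> ring

lemma res_P (a b c d r y : ℝ) (q : ℕ) :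
    resM c d *ᵥ P a b r q y = P a b (r * ff a b c d q) 0 (y + r * ff a b c d q) := by
  unfold P ff
  rw [resM_mulVec, cos_sub, cos_sub]
  ext i
  fin_cases i <;> simp <;> ring

lemma vec5 (x : Fin 5 → ℝ) : x = ![x 0, x 1, x 2, x 3, x 4] := by
  ext i; fin_cases i <;> rfl

lemma norm_vec5_le {y u v w z R : ℝ} (hR : 0 ≤ R) (h0 : |y| ≤ R) (h1 : |u| ≤ R) (h2 : |v| ≤ R)
    (h3 : |w| ≤ R) (h4 : |z| ≤ R) : ‖(![y, u, v, w, z] : Fin 5 → ℝ)‖ ≤ R := by
  rw [pi_norm_le_iff_of_nonneg hR]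
  intro i
  fin_cases i
  · simpa using h0
  · simpa using h1
  · simpa using h2
  · simpa using h3
  · simpa using h4

/-- the invariant of the states of a trajectory -/
def Inv (a b η X : ℝ) (j : ℕ) (x : Fin 5 → ℝ) : Prop :=
  (∃ y u v w z, x = ![y, u, v, w, z] ∧ |y| ≤ X ∧ u ^ 2 + v ^ 2 ≤ 2 * X ^ 2 ∧
    w ^ 2 + z ^ 2 ≤ 2 * X ^ 2) ∨
  (∃ q ≤ j, ∃ r y, x = P a b r q y ∧ |y| + |r| / η ≤ 3 * X + 2 * X / η)

lemma cs (a u v X : ℝ) (hX : 0 ≤ X) (h : u ^ 2 + v ^ 2 ≤ 2 * X ^ 2) :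
    |cos a * u + sin a * v| ≤ 2 * X := by
  apply abs_le_of_sq_le_sq _ (by positivity)
  have h1 := Real.sin_sq_add_cos_sq a
  have h2 : (cos a * u + sin a * v) ^ 2 + (cos a * v - sin a * u) ^ 2 = u ^ 2 + v ^ 2 := by
    linear_combination (u ^ 2 + v ^ 2) * h1
  nlinarith [sq_nonneg (cos a * v - sin a * u), sq_nonneg X]

lemma inv_step {a b c d η X : ℝ} (hη : 0 < η) (hX : 0 ≤ X) {k : ℕ}
    (hf : ∀ q ≤ k, |ff a b c d q| ≤ 1 - η) {j : ℕ} (hj : j < k) {x x' : Fin 5 → ℝ}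
    (h : Inv a b η X j x) (hx : x' = rotM a b *ᵥ x ∨ x' = resM c d *ᵥ x) :
    Inv a b η X (j + 1) x' := by
  rcases h with ⟨y, u, v, w, z, rfl, h0, h1, h2⟩ | ⟨q, hq, r, y, rfl, h0⟩
  · rcases hx with rfl | rfl
    · left
      refine ⟨_, _, _, _, _, rotM_mulVec a b y u v w z, h0, ?_, ?_⟩
      · have h3 := Real.sin_sq_add_cos_sq a
        have : (cos a * u - sin a * v) ^ 2 + (sin a * u + cos a * v) ^ 2 = u ^ 2 + v ^ 2 := by
          linear_combination (u ^ 2 + v ^ 2) * h3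
        linarith
      · have h3 := Real.sin_sq_add_cos_sq b
        have : (cos b * w - sin b * z) ^ 2 + (sin b * w + cos b * z) ^ 2 = w ^ 2 + z ^ 2 := by
          linear_combination (w ^ 2 + z ^ 2) * h3
        linarith
    · right
      refine ⟨0, Nat.zero_le _, (cos c * u + sin c * v + (cos d * w + sin d * z)) / 2,
        y + (cos c * u + sin c * v + (cos d * w + sin d * z)) / 2, ?_, ?_⟩
      · rw [resM_mulVec]
        unfold P
        simp
      · have h3 := cs c u v X hX h1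
        have h4 := cs d w z X hX h2
        have h5 : |(cos c * u + sin c * v + (cos d * w + sin d * z)) / 2| ≤ 2 * X := by
          rw [abs_div, abs_two]
          have := abs_add_le (cos c * u + sin c * v) (cos d * w + sin d * z)
          linarith
        have h6 := abs_add_le y ((cos c * u + sin c * v + (cos d * w + sin d * z)) / 2)
        have h7 : |(cos c * u + sin c * v + (cos d * w + sin d * z)) / 2| / η ≤ 2 * X / η :=
          div_le_div_of_nonneg_right h5 hη.le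
        linarith
  · right
    rcases hx with rfl | rfl
    · exact ⟨q + 1, by omega, r, y, rot_P a b r y q, h0⟩
    · refine ⟨0, Nat.zero_le _, _, _, res_P a b c d r y q, ?_⟩
      have h1 := hf q (by omega)
      have h2 : |r * ff a b c d q| ≤ |r| * (1 - η) := by
        rw [abs_mul]
        exact mul_le_mul_of_nonneg_left h1 (abs_nonneg _)
      have h3 := abs_add_le y (r * ff a b c d q)
      have h4 : |r * ff a b c d q| / η ≤ |r| * (1 - η) / η := div_le_div_of_nonneg_right h2 hη.le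
      have h5 : |r| * (1 - η) / η = |r| / η - |r| := by field_simp
      have h6 : |r| * (1 - η) = |r| - |r| * η := by ring
      have h7 : 0 ≤ |r| * η := by positivity
      linarith

lemma inv_bound {a b η X : ℝ} (hη : 0 < η) (hη1 : η ≤ 1) (hX : 0 ≤ X) {j : ℕ} {x : Fin 5 → ℝ}
    (h : Inv a b η X j x) : ‖x‖ ≤ 5 * X / η := by
  have hX' : X ≤ X / η := by
    rw [le_div_iff₀ hη]; nlinarith
  have h5 : 5 * X / η = 5 * (X / η) := by ring
  have h2 : 2 * X / η = 2 * (X / η) := by ring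
  have hpos : 0 ≤ X / η := by positivity
  rw [h5]
  rcases h with ⟨y, u, v, w, z, rfl, h0, h1, h3⟩ | ⟨q, hq, r, y, rfl, h0⟩
  · have key : ∀ s t : ℝ, s ^ 2 + t ^ 2 ≤ 2 * X ^ 2 → |s| ≤ 5 * (X / η) := by
      intro s t hst
      have : |s| ≤ 2 * X := by
        apply abs_le_of_sq_le_sq _ (by positivity)
        nlinarith [sq_nonneg t, sq_nonneg X]
      linarith
    refine norm_vec5_le (by positivity) (by linarith) (key u v h1) (key v u (by linarith))
      (key w z h3) (key z w (by linarith))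
  · rw [h2] at h0
    have h6 : |r| ≤ |r| / η := by
      rw [le_div_iff₀ hη]; nlinarith [abs_nonneg r]
    have key : ∀ t : ℝ, |t| ≤ 1 → |r * t| ≤ 5 * (X / η) := by
      intro t ht
      rw [abs_mul]
      have : |r| * |t| ≤ |r| := mul_le_of_le_one_right (abs_nonneg _) ht
      have := abs_nonneg y
      linarith
    unfold P
    refine norm_vec5_le (by positivity) ?_ (key _ (abs_cos_le_one _)) (key _ (abs_sin_le_one _))
      (key _ (abs_cos_le_one _)) (key _ (abs_sin_le_one _))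
    have := abs_nonneg r
    linarith

/-- the bound for all trajectories up to time `k` -/
lemma traj_bound {a b c d η : ℝ} (hη : 0 < η) (hη1 : η ≤ 1) {k : ℕ}
    (hf : ∀ q ≤ k, |ff a b c d q| ≤ 1 - η) {x : ℕ → Fin 5 → ℝ}
    (hx : ∀ j, x (j + 1) = rotM a b *ᵥ x j ∨ x (j + 1) = resM c d *ᵥ x j) :
    ‖x k‖ ≤ 5 * ‖x 0‖ / η := by
  have hX : 0 ≤ ‖x 0‖ := norm_nonneg _
  have key : ∀ j ≤ k, Inv a b η ‖x 0‖ j (x j) := by
    intro j
    induction j with
    | zero =>
      intro _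
      left
      have hi : ∀ i, |x 0 i| ≤ ‖x 0‖ := fun i => norm_le_pi_norm (x 0) i
      refine ⟨x 0 0, x 0 1, x 0 2, x 0 3, x 0 4, vec5 _, hi 0, ?_, ?_⟩
      · have h1 := sq_abs (x 0 1)
        have h2 := sq_abs (x 0 2)
        nlinarith [hi 1, hi 2, abs_nonneg (x 0 1), abs_nonneg (x 0 2)]
      · have h1 := sq_abs (x 0 3)
        have h2 := sq_abs (x 0 4)
        nlinarith [hi 3, hi 4, abs_nonneg (x 0 3), abs_nonneg (x 0 4)]
    | succ j ih =>
      intro hj
      exact inv_step hη hX hf (by omega) (ih (by omega)) (hx j)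
  exact inv_bound hη hη1 hX (key k le_rfl)

/-! ### An unbounded trajectory -/

/-- state machine: number of resets, time since the last reset, amplitude, height -/
noncomputable def st (a b c d : ℝ) : ℕ → ℕ × ℕ × ℝ × ℝ
  | 0 => (0, 0, 1, 0)
  | k + 1 =>
    open Classical in
    if 1 - 1 / 2 ^ ((st a b c d k).1 + 2) ≤ ff a b c d (st a b c d k).2.1 then
      ((st a b c d k).1 + 1, 0, (st a b c d k).2.2.1 * ff a b c d (st a b c d k).2.1,
        (st a b c d k).2.2.2 + (st a b c d k).2.2.1 * ff a b c d (st a b c d k).2.1)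
    else ((st a b c d k).1, (st a b c d k).2.1 + 1, (st a b c d k).2.2.1, (st a b c d k).2.2.2)

/-- the trajectory of the state machine -/
noncomputable def tr (a b c d : ℝ) (k : ℕ) : Fin 5 → ℝ :=
  P a b (st a b c d k).2.2.1 (st a b c d k).2.1 (st a b c d k).2.2.2

lemma tr_step (a b c d : ℝ) (k : ℕ) : tr a b c d (k + 1) = rotM a b *ᵥ tr a b c d k ∨
    tr a b c d (k + 1) = resM c d *ᵥ tr a b c d k := by
  classical
  unfold tr
  rw [rot_P, res_P]
  by_cases h : 1 - 1 / 2 ^ ((st a b c d k).1 + 2) ≤ ff a b c d (st a b c d k).2.1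
  · right
    simp only [st, if_pos h]
  · left
    simp only [st, if_neg h]

lemma st_unbounded {a b c d : ℝ} (hf : ∀ ε > 0, ∃ q : ℕ, 1 - ε ≤ ff a b c d q) (i : ℕ) :
    ∃ k r y, st a b c d k = (i, 0, r, y) ∧ 1 / 2 + 1 / 2 ^ (i + 1) ≤ r ∧ r ≤ 1 ∧ (i:ℝ) / 2 ≤ y := by
  classical
  induction i with
  | zero => exact ⟨0, 1, 0, rfl, by norm_num, le_rfl, by norm_num⟩
  | succ i ih =>
    obtain ⟨k, r, y, hk, hr, hr1, hy⟩ := ih
    have hex : ∃ q : ℕ, 1 - 1 / 2 ^ (i + 2) ≤ ff a b c d q := hf _ (by positivity)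
    set q := Nat.find hex with hq
    have h1 : ∀ t ≤ q, st a b c d (k + t) = (i, t, r, y) := by
      intro t
      induction t with
      | zero => intro _; exact hk
      | succ t iht =>
        intro ht
        have h2 := iht (by omega)
        have h3 : ¬ (1 - 1 / 2 ^ (i + 2) ≤ ff a b c d t) := Nat.find_min hex (by omega)
        rw [show k + (t + 1) = k + t + 1 by ring, st, h2]
        simp only [if_neg h3]
    have h4 := h1 q le_rfl
    have h5 : 1 - 1 / 2 ^ (i + 2) ≤ ff a b c d q := Nat.find_spec hex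
    have hf1 : ff a b c d q ≤ 1 := by
      unfold ff
      linarith [cos_le_one (q * a - c), cos_le_one (q * b - d)]
    refine ⟨k + q + 1, r * ff a b c d q, y + r * ff a b c d q, ?_, ?_, ?_, ?_⟩
    · rw [st, h4]
      simp only [if_pos h5]
    · have e1 : (1:ℝ) / 2 ^ (i + 1) = 2 * (1 / 2 ^ (i + 2)) := by
        rw [pow_succ 2 (i + 1)]; field_simp
      have e2 : (1:ℝ) / 2 ^ (i + 1 + 1) = 1 / 2 ^ (i + 2) := rfl
      have e3 : (0:ℝ) < 1 / 2 ^ (i + 2) := by positivity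
      rw [e2]
      have h6 : r * (1 - 1 / 2 ^ (i + 2)) ≤ r * ff a b c d q :=
        mul_le_mul_of_nonneg_left h5 (by linarith)
      nlinarith
    · have h7 : 0 ≤ r := by
        have : (0:ℝ) < 1 / 2 ^ (i + 1) := by positivity
        linarith
      nlinarith
    · have e1 : (1:ℝ) / 2 ^ (i + 1) = 2 * (1 / 2 ^ (i + 2)) := by
        rw [pow_succ 2 (i + 1)]; field_simp
      have e3 : (0:ℝ) < 1 / 2 ^ (i + 2) := by positivity
      have h6 : r * (1 - 1 / 2 ^ (i + 2)) ≤ r * ff a b c d q :=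
        mul_le_mul_of_nonneg_left h5 (by linarith)
      push_cast
      nlinarith

lemma tr_unbounded {a b c d : ℝ} (hf : ∀ ε > 0, ∃ q : ℕ, 1 - ε ≤ ff a b c d q) :
    ¬ ∃ C, ∀ k, ‖tr a b c d k‖ ≤ C := by
  rintro ⟨C, hC⟩
  obtain ⟨i, hi⟩ := exists_nat_gt (2 * C)
  obtain ⟨k, r, y, hk, _, _, hy⟩ := st_unbounded hf i
  have h1 := hC k
  have h2 : |tr a b c d k 0| ≤ ‖tr a b c d k‖ := norm_le_pi_norm (tr a b c d k) 0
  have h3 : tr a b c d k 0 = y := by
    unfold tr P
    rw [hk]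
    rfl
  rw [h3] at h2
  have := le_abs_self y
  linarith

/-! ### The angles -/

/-- even indices -/
def w0 (l : ℕ) : ℕ := if l % 2 = 0 then 1 else 0
/-- odd indices -/
def w1 (l : ℕ) : ℕ := if l % 2 = 1 then 1 else 0

lemma w0_le (l : ℕ) : w0 l ≤ 1 := by unfold w0; split <;> omega
lemma w1_le (l : ℕ) : w1 l ≤ 1 := by unfold w1; split <;> omega

/-- the factor for the two interleaved Liouville numbers -/
noncomputable def F (K : ℕ → ℕ) (q : ℕ) : ℝ :=
  ff (2 * π * al K w0) (2 * π * al K w1) (2 * π * be K w0) (2 * π * be K w1) q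

lemma F_eq (K : ℕ → ℕ) (q : ℕ) : F K q = (cos (2 * π * (q * al K w0 - be K w0)) +
    cos (2 * π * (q * al K w1 - be K w1))) / 2 := by
  unfold F ff
  congr 3 <;> ring_nf

lemma F_le (K : ℕ → ℕ) (n q : ℕ) (hq : 16 * Q K n * q ≤ Q K (n + 2)) :
    |F K q| ≤ 1 - 1 / (16 * (Q K n : ℝ) ^ 2) := by
  rw [F_eq]
  have hQ := Q_pos K n
  have hQr := Qr_pos K n
  have e : 1 / (8 * (Q K n : ℝ) ^ 2) = 2 * (1 / (16 * (Q K n : ℝ) ^ 2)) := by
    field_simp; norm_num
  have c0 := abs_cos_le_one (2 * π * (q * al K w0 - be K w0))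
  have c1 := abs_cos_le_one (2 * π * (q * al K w1 - be K w1))
  have h3 := abs_add_le (cos (2 * π * (q * al K w0 - be K w0)))
    (cos (2 * π * (q * al K w1 - be K w1)))
  rw [abs_div, abs_two]
  rcases Nat.even_or_odd n with hn | hn
  · obtain ⟨m, h1, h2⟩ := away K w0_le n (by
      unfold w0; rw [if_neg]; rcases hn with ⟨t, rfl⟩; omega) (by
      unfold w0; rw [if_pos]; rcases hn with ⟨t, rfl⟩; omega) q hq
    have := abs_cos_le hQ m h1 h2
    linarith
  · obtain ⟨m, h1, h2⟩ := away K w1_le n (by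
      unfold w1; rw [if_neg]; rcases hn with ⟨t, rfl⟩; omega) (by
      unfold w1; rw [if_pos]; rcases hn with ⟨t, rfl⟩; omega) q hq
    have := abs_cos_le hQ m h1 h2
    linarith

lemma cos_near {t : ℝ} (m : ℤ) {δ : ℝ} (h : |t - m| ≤ δ) :
    1 - 2 * π ^ 2 * δ ^ 2 ≤ cos (2 * π * t) := by
  have e : 2 * π * t = 2 * π * (t - m) + m * (2 * π) := by ring
  rw [e, Real.cos_add_int_mul_two_pi]
  have h1 := Real.one_sub_sq_div_two_le_cos (x := 2 * π * (t - m))
  have h2 : (t - m) ^ 2 ≤ δ ^ 2 := by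
    rw [← sq_abs]
    exact pow_le_pow_left₀ (abs_nonneg _) h 2
  have h3 : (2 * π * (t - m)) ^ 2 / 2 = 2 * π ^ 2 * (t - m) ^ 2 := by ring
  have h4 : 2 * π ^ 2 * (t - m) ^ 2 ≤ 2 * π ^ 2 * δ ^ 2 :=
    mul_le_mul_of_nonneg_left h2 (by positivity)
  linarith

lemma two_pow_le_Q (K : ℕ → ℕ) (n : ℕ) : 2 ^ n ≤ Q K n := by
  induction n with
  | zero => exact Q_pos K 0
  | succ n ih =>
    have := Q_succ_ge' K n
    rw [pow_succ]
    omega

lemma F_near (K : ℕ → ℕ) (ε : ℝ) (hε : 0 < ε) : ∃ q : ℕ, 1 - ε ≤ F K q := by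
  obtain ⟨N, hN⟩ : ∃ N : ℕ, 2 * π ^ 2 / ε < 2 ^ N := pow_unbounded_of_one_lt _ (by norm_num)
  refine ⟨s K (N + 1), ?_⟩
  rw [F_eq]
  obtain ⟨m0, h0⟩ := approx K w0_le N
  obtain ⟨m1, h1⟩ := approx K w1_le N
  have c0 := cos_near m0 h0
  have c1 := cos_near m1 h1
  have hQ : (2:ℝ) ^ N ≤ Q K N := by exact_mod_cast two_pow_le_Q K N
  have h2 : 2 * π ^ 2 * (1 / (Q K N : ℝ)) ^ 2 ≤ ε := by
    have h3 : (1:ℝ) ≤ Q K N := by exact_mod_cast Q_pos K N
    have h4 : 2 * π ^ 2 < ε * Q K N := by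
      rw [div_lt_iff₀ hε] at hN
      nlinarith
    rw [div_pow, one_pow, mul_one_div, div_le_iff₀ (by positivity)]
    nlinarith
  linarith

end Pool.Agent.R195.SG
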